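import Pool.Agent.helper13.RF.SpecU
import Pool.Agent.helper33.RF.TRA
import Pool.Agent.helper60.RF.DEL

/-!
# RF (MP_16912e_nt), stage 2, row `rf:UMF`: the primes which contain `f`
-/

set_option autoImplicit false

namespace Pool.Agent.RF

open NumberField

theorem UMF_l {F : Type} [Field F] [NumberField F] (P : Ideal (𝓞 F)) (hP : P.IsPrime) (f : ℕ) (hf0 : f ≠ 0) (hf : (f : 𝓞 F) ∈ P) :
    ∃ l : ℕ, l.Prime ∧ l ∣ f ∧ (l : 𝓞 F) ∈ P := by
  induction f using Nat.strong_induction_on with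
  | _ n ih =>
    by_cases h1 : n = 1
    · exfalso
      subst h1
      apply hP.ne_top
      rw [Ideal.eq_top_iff_one]
      simpa using hf
    · obtain ⟨l, hl, c, rfl⟩ := Nat.exists_prime_and_dvd h1
      rw [Nat.cast_mul] at hf
      rcases hP.mem_or_mem hf with h | h
      · exact ⟨l, hl, dvd_mul_right _ _, h⟩
      · have hc0 : c ≠ 0 := by
          rintro rfl
          exact hf0 (mul_zero _)
        obtain ⟨m, hm, hmc, hmP⟩ := ih c (lt_mul_of_one_lt_left (Nat.pos_of_ne_zero hc0) hl.one_lt) hc0 h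
        exact ⟨m, hm, hmc.trans (dvd_mul_left _ _), hmP⟩

theorem UMF (h1 : UVR_stmt) (h2 : UUE_stmt) (h3 : VVM_stmt) : UMF_stmt := by
  intro D₀ F _ _ C p f hsq hp hpD P hP hP0 hf
  obtain ⟨-, -, -, -, -, -, -, -, hss, -, hw0, hf0, -, hu0, hn0, hn0', -, hs4, hinj⟩ := h2 D₀ F C p f hp hpD
  obtain ⟨v1, v2, v3⟩ := h3 F P hP hP0
  have hD0 : D₀ ≠ 0 := by
    intro h
    have := hp.D0
    rw [hpD, h, zero_mul] at this
    exact lt_irrefl _ this
  have hfn : f ≠ 0 := by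
    rintro rfl
    exact hf0 Nat.cast_zero
  have h1P : (1 : 𝓞 F) ∉ P := fun h => hP.ne_top ((Ideal.eq_top_iff_one _).2 h)
  have hz : ∀ x : 𝓞 F, x ≠ 0 → x ∉ P → vv P x = 0 := by
    intro x hx hxP
    by_contra h
    exact hxP ((v2 x hx).1 (Nat.pos_of_ne_zero h))
  have hι0 : ∀ x : OO, x ≠ 0 → C.ι x ≠ 0 := by
    intro x hx h
    exact hx (hinj x 0 (by rw [h, map_zero]))
  -- coprimality with a member of `P`
  have hcop : ∀ a b : ℤ, IsCoprime a b → (b : 𝓞 F) ∈ P → (a : 𝓞 F) ∉ P := by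
    intro a b hab hb ha
    obtain ⟨x, y, hxy⟩ := hab
    apply h1P
    have h5 : (1 : 𝓞 F) = (x : 𝓞 F) * (a : 𝓞 F) + (y : 𝓞 F) * (b : 𝓞 F) := by exact_mod_cast hxy.symm
    rw [h5]
    exact P.add_mem (P.mul_mem_left _ ha) (P.mul_mem_left _ hb)
  have hfz : ((f : ℤ) : 𝓞 F) ∈ P := by
    rw [Int.cast_natCast]
    exact hf
  have h20 : p.D % 20 = 17 := hp.D20
  have h2P : (2 : 𝓞 F) ∉ P := by
    have h6 : ¬ 2 ∣ f := by
      rintro ⟨c, hc⟩
      rw [hpD, hc] at h20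
      push_cast at h20
      have : (D₀ * (2 * (c : ℤ)) ^ 2) = 4 * (D₀ * (c : ℤ) ^ 2) := by ring
      omega
    have h7 := hcop 2 f (by exact_mod_cast Nat.isCoprime_iff_coprime.2 ((Nat.Prime.coprime_iff_not_dvd Nat.prime_two).2 h6)) hfz
    simpa using h7
  have h5P : (5 : 𝓞 F) ∉ P := by
    have h6 : ¬ 5 ∣ f := by
      rintro ⟨c, hc⟩
      rw [hpD, hc] at h20
      push_cast at h20
      have : (D₀ * (5 * (c : ℤ)) ^ 2) = 25 * (D₀ * (c : ℤ) ^ 2) := by ring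
      omega
    have h7 := hcop 5 f (by exact_mod_cast Nat.isCoprime_iff_coprime.2 ((Nat.Prime.coprime_iff_not_dvd Nat.prime_five).2 h6)) hfz
    simpa using h7
  have hG : 1 ≤ vv P (f : 𝓞 F) := (v2 _ hf0).2 hf
  -- `2 vv w ≤ G`
  have hw2 : C.ι w2 ∉ P := by
    intro h
    apply h5P
    have h8 : C.ι w2 * C.ι (star w2) = 5 := by
      rw [← map_mul]
      have h9 : w2 * star w2 = 5 := by
        rw [TRA_w2, star_add, TRA_2, TRA_phs]
        linear_combination (-1) * TRA_ph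
      rw [h9, map_ofNat]
    rw [← h8]
    exact P.mul_mem_right _ h
  have hw20 : C.ι w2 ≠ 0 := fun h => hw2 (by rw [h]; exact P.zero_mem)
  have hD0F : (D₀ : 𝓞 F) ≠ 0 := by exact_mod_cast hD0
  have hvw : 2 * vv P C.w = vv P (D₀ : 𝓞 F) := by
    have e1 : C.w * C.w = C.ι (-w2) * (D₀ : 𝓞 F) := by
      rw [← sq, C.ww, map_neg]
      ring
    have e2 : C.ι (-w2) ≠ 0 := by
      rw [map_neg]
      exact neg_ne_zero.2 hw20
    have e3 : C.ι (-w2) ∉ P := by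
      rw [map_neg]
      exact fun h => hw2 ((Ideal.neg_mem_iff P).1 h)
    have e4 := congrArg (vv P) e1
    rw [v1 _ _ hw0 hw0, v1 _ _ e2 hD0F, hz _ e2 e3] at e4
    omega
  have hDG : vv P (D₀ : 𝓞 F) ≤ vv P (f : 𝓞 F) := by
    obtain ⟨l, hl, hlf, hlP⟩ := UMF_l P hP f hfn hf
    have hl0 : (l : 𝓞 F) ≠ 0 := by exact_mod_cast hl.ne_zero
    have hlG : vv P (l : 𝓞 F) ≤ vv P (f : 𝓞 F) := by
      refine v3 _ _ hf0 ?_
      obtain ⟨c, rfl⟩ := hlf
      exact ⟨(c : 𝓞 F), by push_cast; rfl⟩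
    have hlP' : ((l : ℤ) : 𝓞 F) ∈ P := by
      rw [Int.cast_natCast]
      exact hlP
    have hlz : Prime (l : ℤ) := Nat.prime_iff_prime_int.1 hl
    by_cases hlD : (l : ℤ) ∣ D₀
    · obtain ⟨c, hc⟩ := hlD
      have hlc : ¬ (l : ℤ) ∣ c := by
        rintro ⟨e, he⟩
        have h9 : (l : ℤ) * (l : ℤ) ∣ D₀ := ⟨e, by rw [hc, he]; ring⟩
        exact hlz.not_isUnit (hsq _ h9)
      have hcP : (c : 𝓞 F) ∉ P := hcop c l ((Prime.coprime_iff_not_dvd hlz).2 hlc).symm hlP'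
      have hc0 : (c : 𝓞 F) ≠ 0 := fun h => hcP (by rw [h]; exact P.zero_mem)
      have e1 : (D₀ : 𝓞 F) = (l : 𝓞 F) * (c : 𝓞 F) := by
        rw [hc]
        push_cast
        rfl
      rw [e1, v1 _ _ hl0 hc0, hz _ hc0 hcP]
      exact hlG
    · have hDP : (D₀ : 𝓞 F) ∉ P := hcop D₀ l ((Prime.coprime_iff_not_dvd hlz).2 hlD).symm hlP'
      rw [hz _ hD0F hDP]
      exact Nat.zero_le _
  have r := h1 D₀ F C p f hp hpD P hP hP0 (vv P (C.σ (C.σ (uu C f p)))) (vv P (C.σ (C.σ (C.σ (uu C f p))))) (vv P (uu C f p))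
    (vv P (C.σ (uu C f p))) _ _ _ _ _ _ rfl rfl rfl rfl rfl rfl rfl rfl rfl rfl
  refine ⟨hG, ?_⟩
  have hK : ∀ x : OO, C.ι x ∉ P → vv P (C.ι (2 * (25 * x))) = 0 := by
    intro x hx
    have e1 : C.ι (2 * (25 * x)) = 2 * (5 * (5 * C.ι x)) := by
      rw [map_mul, map_mul, map_ofNat, map_ofNat]
      ring
    have e2 : C.ι (2 * (25 * x)) ∉ P := by
      rw [e1]
      intro h
      rcases hP.mem_or_mem h with h | h
      · exact h2P h
      · rcases hP.mem_or_mem h with h | h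
        · exact h5P h
        · rcases hP.mem_or_mem h with h | h
          · exact h5P h
          · exact hx h
    exact hz _ (fun h => e2 (by rw [h]; exact P.zero_mem)) e2
  have hkk : C.ι p.k ∉ P ∨ C.ι (star p.k) ∉ P := by
    by_contra h
    push Not at h
    obtain ⟨a, b, hab⟩ := hp.kk
    apply h1P
    have e1 : (1 : 𝓞 F) = C.ι a * C.ι p.k + C.ι b * C.ι (star p.k) := by
      rw [← map_mul, ← map_mul, ← map_add, hab, map_one]
    rw [e1]
    exact P.add_mem (P.mul_mem_left _ h.1) (P.mul_mem_left _ h.2)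
  generalize vv P (C.σ (C.σ (uu C f p))) = c0 at r ⊢
  generalize vv P (C.σ (C.σ (C.σ (uu C f p)))) = c1 at r
  generalize vv P (uu C f p) = c2 at r ⊢
  generalize vv P (C.σ (uu C f p)) = c3 at r
  obtain ⟨q1, q2, q3, q4, q5, q6, q7, q8, -⟩ := r
  rcases hkk with hk | hk
  · rw [hK _ hk] at q7
    omega
  · rw [hK _ hk] at q8
    omega

end Pool.Agent.RF
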