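import Pool.Agent.helper13.RF.Spec2

/-!
# Project RF (MP_16912e_nt), row KUM: the extension of degree 5 of `K` given by a radical, and its norm group
-/

set_option autoImplicit false

open NumberField IsDedekindDomain
open scoped nonZeroDivisors

namespace Pool.Agent.RF

theorem KUM (hDSC : DSC_stmt) (hUNL : UNL_stmt) (hNRM : NRM_stmt) : KUM_stmt := by
  intro K N M _ _ _ _ _ _ _ _ _ _ ζ τ b α hK2 hKr hζ hτ hN4 hG hR hb5 hα
  obtain ⟨hb0, ⟨γ, hγ⟩, ⟨I, hI⟩, u, hu⟩ := hR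
  have hfd : FiniteDimensional K M := Module.Finite.of_restrictScalars_finite ℚ K M
  have hbN : (b : N) ≠ 0 := fun h => hb0 (by
    apply RingOfIntegers.ext
    rw [h]
    rfl)
  obtain ⟨L, hLG, hL5, hL⟩ := hDSC K N M ζ (b : N) γ τ α hζ hτ hN4 hα hbN hγ hb5
  have hun : Unr K L := hUNL K N M ζ α b u I L hζ hG hN4 hα hb0 hI hu hb5 hLG hL5 hL
  exact ⟨L, hLG, hL5, hL, hNRM K L hK2 hKr hLG hL5 hun⟩

end Pool.Agent.RF
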