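import Pool.Agent.helper13.RF.Spec1

/-!
# Project RF (MP_16912e_nt), row SCX: the action of an automorphism on the class group
-/

set_option autoImplicit false

open NumberField
open scoped nonZeroDivisors

namespace Pool.Agent.RF

section scx

variable {K L : Type} [Field K] [NumberField K] [Field L] [NumberField L] [Algebra K L]

/-- the image of a nonzero ideal -/
noncomputable def SCX_m (σ : L ≃ₐ[K] L) (I : (Ideal (𝓞 L))⁰) : (Ideal (𝓞 L))⁰ :=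
  ⟨(I : Ideal (𝓞 L)).map (gO σ), mem_nonZeroDivisors_iff_ne_zero.mpr (fun h =>
    (mem_nonZeroDivisors_iff_ne_zero.mp I.2) ((Ideal.map_eq_bot_iff_of_injective (gO σ).injective).mp h))⟩

theorem SCX_mcoe (σ : L ≃ₐ[K] L) (I : (Ideal (𝓞 L))⁰) :
    ((SCX_m σ I : (Ideal (𝓞 L))⁰) : Ideal (𝓞 L)) = (I : Ideal (𝓞 L)).map (gO σ) := rfl

theorem SCX_wd (σ : L ≃ₐ[K] L) (I J : (Ideal (𝓞 L))⁰) (h : ClassGroup.mk0 I = ClassGroup.mk0 J) :
    ClassGroup.mk0 (SCX_m σ I) = ClassGroup.mk0 (SCX_m σ J) := by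
  obtain ⟨x, y, hx, hy, hxy⟩ := ClassGroup.mk0_eq_mk0_iff.mp h
  rw [ClassGroup.mk0_eq_mk0_iff]
  have hne : ∀ z : 𝓞 L, z ≠ 0 → gO σ z ≠ 0 := fun z hz h =>
    hz ((map_eq_zero_iff _ (gO σ).injective).mp h)
  refine ⟨gO σ x, gO σ y, hne x hx, hne y hy, ?_⟩
  rw [SCX_mcoe, SCX_mcoe]
  have h1 := congrArg (fun A : Ideal (𝓞 L) => A.map (gO σ)) hxy
  simp only [Ideal.map_mul, Ideal.map_span, Set.image_singleton] at h1
  exact h1

theorem SCX_mul (σ : L ≃ₐ[K] L) (I J : (Ideal (𝓞 L))⁰) : SCX_m σ (I * J) = SCX_m σ I * SCX_m σ J := by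
  apply Subtype.ext
  rw [Submonoid.coe_mul, SCX_mcoe, SCX_mcoe, SCX_mcoe, Submonoid.coe_mul, Ideal.map_mul]

theorem SCX_one (σ : L ≃ₐ[K] L) : SCX_m σ 1 = 1 := by
  apply Subtype.ext
  rw [SCX_mcoe, Submonoid.coe_one, Ideal.one_eq_top, Ideal.map_top]

end scx

theorem SCX : SCX_stmt := by
  intro K L _ _ _ _ _ σ
  classical
  set r : ClassGroup (𝓞 L) → (Ideal (𝓞 L))⁰ := fun c => (ClassGroup.mk0_surjective c).choose with hr
  have hrs : ∀ c, ClassGroup.mk0 (r c) = c := fun c => (ClassGroup.mk0_surjective c).choose_spec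
  refine ⟨⟨⟨fun c => ClassGroup.mk0 (SCX_m σ (r c)), ?_⟩, ?_⟩, ?_⟩
  · have h1 : ClassGroup.mk0 (r 1) = ClassGroup.mk0 (1 : (Ideal (𝓞 L))⁰) := by rw [hrs, map_one]
    rw [SCX_wd σ _ _ h1, SCX_one, map_one]
  · intro c d
    have h1 : ClassGroup.mk0 (r (c * d)) = ClassGroup.mk0 (r c * r d) := by rw [hrs, map_mul, hrs, hrs]
    change ClassGroup.mk0 (SCX_m σ (r (c * d))) = ClassGroup.mk0 (SCX_m σ (r c)) * ClassGroup.mk0 (SCX_m σ (r d))
    rw [SCX_wd σ _ _ h1, SCX_mul, map_mul]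
  · intro I J hJ
    change ClassGroup.mk0 (SCX_m σ (r (ClassGroup.mk0 I))) = ClassGroup.mk0 J
    rw [SCX_wd σ _ I (hrs _)]
    exact congrArg ClassGroup.mk0 (Subtype.ext hJ.symm)

end Pool.Agent.RF
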