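import Pool.Agent.helper13.RF.Spec1
import Pool.Agent.helper1.CD.Spec

/-!
# Project RF (MP_16912e_nt), block A (class field theory for unramified extensions of degree 5), part 2

Densities: different unramified extensions `L / K` of degree 5 have different norm groups; the final statement of block A (`REFL_stmt` of `Pool/Agent/helper60/RF/Defs.lean`, with the definitions `Mir`, `Rad`) and its assembly.

RULES. Row `XXX`: file `Pool/Agent/<seat>/RF/XXX.lean`, with the header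

  import Pool.Agent.helper13.RF.Spec2
  set_option autoImplicit false
  open NumberField IsDedekindDomain
  open scoped nonZeroDivisors
  namespace Pool.Agent.RF

(`open Pool.Agent.CH Pool.Agent.GK Pool.Agent.CD` as well if it is useful) and the theorem line of the lock note; auxiliary lemmas are prefixed `XXX_`. No sorry, no straight double quotes, no `convert`, no `congr!`, no `native_decide`. Other rows are used only as hypotheses. `CH.YYY_stmt` (namespace `Pool.Agent.CH`, file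
`Pool/Agent/helper82/CH/SpecA.lean`), `CD.YYY_stmt` (namespace `Pool.Agent.CD`, file `Pool/Agent/helper1/CD/Spec.lean`) and `UN.HLE_stmt` (`Pool/Agent/helper13/UN/Defs4.lean`) are proved in the library; they are only hypotheses here.
-/

set_option autoImplicit false

open NumberField IsDedekindDomain
open scoped nonZeroDivisors

namespace Pool.Agent.RF

section defs

variable (K : Type) [Field K] [NumberField K]

open Classical in
/-- the function on the ideals of a character of the class group -/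
noncomputable def cx (ψ : ClassGroup (𝓞 K) →* ℂˣ) (a : Ideal (𝓞 K)) : ℂ :=
  if h : a = ⊥ then 0 else ((ψ (ClassGroup.mk0 ⟨a, mem_nonZeroDivisors_iff_ne_zero.mpr h⟩) : ℂˣ) : ℂ)

/-- the places whose classes are in `H` -/
def HS (H : Subgroup (ClassGroup (𝓞 K))) : Set (GK.Pl K) :=
  {v | ∀ w : (Ideal (𝓞 K))⁰, (w : Ideal (𝓞 K)) = v.asIdeal → ClassGroup.mk0 w ∈ H}

end defs

/-! ## 1. Densities -/

/-- **CHR** (short; PURE). `D / H` has order 5, so it is cyclic, `D / H ≅ Multiplicative (ZMod 5)`; with `ζ = exp(2πi/5)` this gives `ψ : D →* ℂˣ` with kernel `H` and `ψ d ^ 5 = 1`; `Ψ = {ψ^j : j < 5}`, geometric sum. (Or `CommGroup.exists_apply_ne_one_of_hasEnoughRootsOfUnity` for `D ⧸ H`.) -/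
def CHR_stmt : Prop := ∀ (D : Type) [CommGroup D] [Finite D] (H : Subgroup D), H.index = 5 →
  ∃ Ψ : Finset (D →* ℂˣ), Ψ.card = 5 ∧ 1 ∈ Ψ ∧ ∀ d : D, (d ∈ H → ∑ ψ ∈ Ψ, ((ψ d : ℂˣ) : ℂ) = 5) ∧ (d ∉ H → ∑ ψ ∈ Ψ, ((ψ d : ℂˣ) : ℂ) = 0)

/-- **CGL** (medium; from CH.MAX, CH.TSL, UN.HLE). `χ = cx K ψ`; `‖ψ c‖ = 1` (finite order: `c ^ card = 1`). `CH.HMo ⊤ χ`: `(x)` is principal, so `χ((x)) = 1` for `x ≠ 0`. CH.MAX: the primitive character `χ'` agrees with `χ` on all ideals `≠ ⊥` (`a ⊔ ⊤ = ⊤`), and at `⊥`: `χ' = χ`, `HCharG f χ 0 0`.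
`UN.NT χ` for `ψ ≠ 1`: let `χ(a) = ph t₀ (log N(a))` for all `a ≠ ⊥`. For `a = (p)`, `p` a prime number: `1 = χ((p)) = exp(i t₀ n log p)` up to sign conventions, so `t₀ n log p ∈ 2π ℤ`; `p = 2, 3` and `t₀ ≠ 0` give `2^A = 3^B` (as in NTL, file `Pool/Agent/helper59/CH/NTL.lean`); `t₀ = 0`: `χ = 1` on the ideals
`≠ ⊥`, so `ψ = 1` (`ClassGroup.mk0_surjective`). `L`: HLE and TSL, as in `Pool/Agent/helper76/CH/LCH.lean`. -/
def CGL_stmt : Prop := ∀ (K : Type) [Field K] [NumberField K] (ψ : ClassGroup (𝓞 K) →* ℂˣ), CH.CM (cx K ψ) ∧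
  (ψ ≠ 1 → ∃ L : ℂ → ℂ, Differentiable ℂ L ∧ ∀ s : ℂ, 1 < s.re → LSeries (CH.cc (cx K ψ)) s = L s)

/-- **CGB** (short to medium; from CH.CID, CSM, EXL, LGB, CGL). `exp(l(s)) = LSeries (cc χ) s = L(s)` for `1 < s`, `l = LSeries (lg χ)` (EXL with CID, CSM; `cc χ 1 = 1`: see `PAPr_cc1`, `PAPr_zz` in `Pool/Agent/helper53/CH/PAPr.lean` and `Pool/Agent/helper98/CD/LBD.lean`). `L` is continuous at `1`, so `‖L(s)‖ ≤ C₀` near `1`, `C₀ > 0`:
`exp(Re l(s)) ≤ C₀`, `Re l(s) ≤ log C₀`. LGB: the sum over the primes differs from `l(s)` by at most a constant. -/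
def CGB_stmt : Prop := ∀ (K : Type) [Field K] [NumberField K] (ψ : ClassGroup (𝓞 K) →* ℂˣ), ψ ≠ 1 → ∃ C δ : ℝ, 0 < δ ∧
  ∀ s : ℝ, 1 < s → s < 1 + δ → (∑' p : Nat.Primes, CH.cc (cx K ψ) p * (((p : ℕ) : ℂ) ^ (-(s : ℂ)))).re ≤ C

/-- **CGU** (medium; from CHR, CGL, CGB, CH.LGB, CH.KFV, CD.SMB, CD.DSL, CD.PRS). `S₁ = {v ∈ HS K H : nv v prime}`. By PRS `DS S₁ s = ∑_p #{v ∈ S₁ : nv v = p} p^(-s)`, and `5 #{v ∈ S₁ : nv v = p} = ∑_{ψ ∈ Ψ} cc (cx K ψ) p` (an ideal of norm `p` is a prime: `Ideal.isPrime_of_irreducible_absNorm`; CHR). So (all the series converge: LGB)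
`5 DS S₁ s = ∑_{ψ ∈ Ψ} Re ∑'_p cc (cx K ψ) p p^(-s)`. `ψ = 1`: `cc (cx K 1) p = nd K p`, the sum is at most `-log(s-1) + C` (KFV); the other four are at most `C` (CGB). The places of norm not prime: at most `C` (SMB). So `DS (HS K H) s ≤ (1/5)(-log(s-1)) + C ≤ (1/5 + ε)(-log(s-1))` for `s` near `1`. -/
def CGU_stmt : Prop := ∀ (K : Type) [Field K] [NumberField K] (H : Subgroup (ClassGroup (𝓞 K))), H.index = 5 → CD.UppD K (HS K H) (1 / 5)

/-- **XCT** (short to medium; pure Galois theory). `G_i = L_i.fixingSubgroup`: index 5, normal, `G₁ ≠ G₂` (Galois correspondence, `IntermediateField.fixingSubgroup` injective), so neither contains the other (same index), `G₁ G₂ = G` (`G₁` has prime index), `[G : G₁ ∩ G₂] = 25`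
(`Subgroup.index_inf..`, `[G₁ : G₁ ∩ G₂] = [G₁ G₂ : G₂] = 5`), `|G₁ ∪ G₂| = |G₁| + |G₂| - |G₁ ∩ G₂|`. -/
def XCT_stmt : Prop := ∀ (K M : Type) [Field K] [Field M] [Algebra K M] [FiniteDimensional K M] [IsGalois K M] (L₁ L₂ : IntermediateField K M),
  IsGalois K L₁ → IsGalois K L₂ → Module.finrank K L₁ = 5 → Module.finrank K L₂ = 5 → L₁ ≠ L₂ →
  9 * Module.finrank K M = 25 * Nat.card {g : M ≃ₐ[K] M // (∀ x ∈ L₁, g x = x) ∨ (∀ x ∈ L₂, g x = x)}

/-- **SPH** (medium). `v ∈ Fp K M g`: `q = nv v` is a prime and there is a prime `P` of `𝓞 M` over `v` with `g x - x^q ∈ P` for all `x ∈ 𝓞 M`. `Q = P.under (𝓞 L)`. For `x ∈ 𝓞 L`: `g x = x`, so `x^q ≡ x mod Q`; the field `𝓞 L / Q` (finite) has at most `q` elements (roots of `X^q - X`), and contains `𝓞 K / v` with `q` elements: degree 1. -/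
def SPH_stmt : Prop := ∀ (K M : Type) [Field K] [NumberField K] [Field M] [NumberField M] [Algebra K M] (L : IntermediateField K M) (g : M ≃ₐ[K] M),
  (∀ x ∈ L, g x = x) → ∀ v ∈ CD.Fp K M g, ∃ Q : Ideal (𝓞 L), Q.IsPrime ∧ Q ≠ ⊥ ∧ Q.under (𝓞 K) = v.asIdeal ∧ Q.inertiaDeg (𝓞 K) = 1

/-- **DIS** (short to medium; from CD.LOW, CD.DSL, XCT, SPH, CGU). Suppose `L₁ ≠ L₂`. `X = {g : trivial on L₁ or on L₂}`, `|X| / [M : K] = 9/25` (XCT). For `g ∈ X`: `Fp K M g ⊆ HS K H` (SPH and NG). LOW and CGU with `ε = 1/100`: `(9/25 - 1/100) l ≤ DS (⋃ Fp) ≤ DS (HS K H) ≤ (1/5 + 1/100) l` with `l = -log(s-1) > 0` for `s` near `1`: a contradiction. -/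
def DIS_stmt : Prop := ∀ (K M : Type) [Field K] [NumberField K] [Field M] [NumberField M] [Algebra K M] [IsGalois K M] (L₁ L₂ : IntermediateField K M)
  (H : Subgroup (ClassGroup (𝓞 K))), IsGalois K L₁ → IsGalois K L₂ → Module.finrank K L₁ = 5 → Module.finrank K L₂ = 5 →
  NG K L₁ H → NG K L₂ H → L₁ = L₂

/-! ## 2. Assembly -/

/-- **RLQ** (short). `x` is not rational (`D` is squarefree and `> 1`, not a square), so `K = ℚ(x)`; for an embedding `φ : K →+* ℂ` `(φ x)² = D > 0`, so `φ x` is real, and `φ` is real. -/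
def RLQ_stmt : Prop := ∀ (D : ℤ), 1 < D → Squarefree D → ∀ (K : Type) [Field K] [NumberField K], Module.finrank ℚ K = 2 → (∃ x : K, x ^ 2 = (D : K)) →
  IsTotallyReal K

/-- **RDN** (short). `c = algebraMap b`: injective, `τ c = algebraMap (s b)`, `Ideal.map_span`, `Ideal.map_pow`. (`(τ : N ≃+* N)` is the coercion.) -/
def RDN_stmt : Prop := ∀ (F K N : Type) [Field F] [NumberField F] [Field K] [NumberField K] [Field N] [NumberField N] [Algebra F N] [Algebra K N]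
  (s : F ≃+* F) (τ : N ≃ₐ[K] N), (∀ x : F, τ (algebraMap F N x) = algebraMap F N (s x)) →
  ∀ b : 𝓞 F, Rad s b → Rad (τ : N ≃+* N) (algebraMap (𝓞 F) (𝓞 N) b)

/-- **KUM** (short; from DSC, UNL, NRM). Put together. -/
def KUM_stmt : Prop := ∀ (K N M : Type) [Field K] [NumberField K] [Field N] [NumberField N] [Field M] [NumberField M] [Algebra K N] [Algebra K M]
  [Algebra N M] [IsScalarTower K N M] (ζ : N) (τ : N ≃ₐ[K] N) (b : 𝓞 N) (α : M), Module.finrank ℚ K = 2 → IsTotallyReal K →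
  IsPrimitiveRoot ζ 5 → τ ζ = ζ ^ 2 → Module.finrank K N = 4 → IsGalois K N → Rad (τ : N ≃+* N) b → (¬ ∃ g : N, (b : N) = g ^ 5) →
  α ^ 5 = algebraMap N M (b : N) → ∃ L : IntermediateField K M, IsGalois K L ∧ Module.finrank K L = 5 ∧
    IntermediateField.adjoin N (L : Set M) = IntermediateField.adjoin N {α} ∧ ∃ H : Subgroup (ClassGroup (𝓞 K)), NG K L H

/-- **REF** (medium; from RLQ, CMP, BIG, RDN, FPD, KUM, LIN, DIS, CT5): the final statement of block A. `N, ζ, τ` from CMP, `M` from BIG for the image of `B` in `N`, `α_b ∈ M`, `α_b⁵ = b`. `b` is not a fifth power in `N` (FPD). KUM: `L_b`, `H_b`. If `H_b = H_b'` then `L_b = L_b'` (DIS) and `N(α_b) = N(α_b')`, so (LIN) `b' = b^k h⁵` in `N`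
with `1 ≤ k ≤ 4`; two `b', b''` with the same `k` satisfy `b'/b'' = (h'/h'')⁵`, by FPD (for `x = b'/b'' ∈ F`) `b' = b'' g⁵` in `F`, so `b' = b''`. So the fibres of `b ↦ H_b` have at most 4 elements: CT5 with the type `B`. -/
def REF_doc : Prop := REFL_stmt

/-- **MEX** (medium; pure field theory): `MEX_stmt` of `Pool/Agent/helper60/RF/Defs.lean`. `E = AdjoinRoot (X^2 - 5 : ℚ[X])` (`5` is not a square in `ℚ`), `r` its root, `c = -(r * ((1 + r)/2) * D) ∈ E`; `c` is not a square in `E`: the norm to `ℚ` of `c` is `5 D^2` (or: `c = (a + b r)^2`, `a, b ∈ ℚ`, gives `c c' = 5 D^2 = (a^2 - 5 b^2)^2`, and `5` is not a square).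
`F = AdjoinRoot (X^2 - C c : E[X])` (or `ℚ(r, w)` inside an algebraic closure), `w` its root, `[F : ℚ] = 4`. `s₀ : E → E`, `r ↦ -r`. `s : F → F`: `AdjoinRoot.lift` of `s₀` and `w ↦ w * (2/(1 + r))`: `(w * 2/(1 + r))^2 = c * 4/(1 + r)^2 = r (1 - r) D/2 = s₀ c` as `r^2 = 5`. `s` is injective, and surjective as `F` is finite over `ℚ`. -/
def MEX_doc : Prop := MEX_stmt

end Pool.Agent.RF
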