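import Pool.Agent.helper1.CD.All
import Pool.Agent.helper13.RF.Spec2
import Pool.Agent.helper61.RF.CY5
import Pool.Agent.helper71.RF.HQ5
import Pool.Agent.helper9.RF.NIP
import Pool.Agent.helper71.RF.PIX
import Pool.Agent.helper61.RF.CT5
import Pool.Agent.helper90.RF.TRL
import Pool.Agent.helper39.RF.URK
import Pool.Agent.helper18.RF.UNI
import Pool.Agent.helper13.RF.SCX
import Pool.Agent.helper71.RF.NCX
import Pool.Agent.helper66.RF.INV
import Pool.Agent.helper41.RF.AMA
import Pool.Agent.helper43.RF.AMB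
import Pool.Agent.helper90.RF.NIX
import Pool.Agent.helper25.RF.NRM
import Pool.Agent.helper71.RF.DSC
import Pool.Agent.helper17.RF.LIN
import Pool.Agent.helper73.RF.FPD
import Pool.Agent.helper43.RF.UNA
import Pool.Agent.helper49.RF.UNB
import Pool.Agent.helper49.RF.TOW
import Pool.Agent.helper20.RF.UNL
import Pool.Agent.helper67.RF.CMP
import Pool.Agent.helper17.RF.BIG
import Pool.Agent.helper4.RF.CHR
import Pool.Agent.helper63.RF.CGL
import Pool.Agent.helper63.RF.CGB
import Pool.Agent.helper87.RF.CGU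
import Pool.Agent.helper53.RF.XCT
import Pool.Agent.helper85.RF.SPH
import Pool.Agent.helper41.RF.DIS
import Pool.Agent.helper43.RF.RLQ
import Pool.Agent.helper87.RF.RDN
import Pool.Agent.helper13.RF.KUM
import Pool.Agent.helper87.RF.REF
import Pool.Agent.helper20.RF.MEX

/-!
# Project RF (MP_16912e_nt), block A, assembled without hypotheses: the reflection inequality `REFL_all` and the mirror field `MEX_all`
-/

set_option autoImplicit false

namespace Pool.Agent.RF

theorem HQ5_all : HQ5_stmt := HQ5 CY5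
theorem UNI_all : UNI_stmt := UNI HQ5_all TRL URK
theorem AMA_all : AMA_stmt := AMA INV
theorem AMB_all : AMB_stmt := AMB INV
theorem NIX_all : NIX_stmt := NIX UNI_all SCX AMA_all AMB_all NIP
theorem NRM_all : NRM_stmt := NRM NCX NIX_all PIX
theorem UNL_all : UNL_stmt := UNL UNA UNB TOW
theorem KUM_all : KUM_stmt := KUM DSC UNL_all NRM_all
theorem CGL_all : CGL_stmt := CGL CH.MAX_all CH.TSL_all UN.AllZ.hHLE
theorem CGB_all : CGB_stmt := CGB CH.CID CH.CSM_all CH.EXL CH.LGB_all CGL_all
theorem CGU_all : CGU_stmt := CGU CHR CGL_all CGB_all CH.LGB_all CH.KFV CD.SMB CD.DSL_all CD.PRS_all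
theorem DIS_all : DIS_stmt := DIS CD.LOW_all CD.DSL_all XCT SPH CGU_all

/-- **the reflection inequality**, without hypotheses -/
theorem REFL_all : REFL_stmt := REF RLQ CMP BIG RDN FPD KUM_all LIN DIS_all CT5

/-- **the mirror field**, without hypotheses -/
theorem MEX_all : MEX_stmt := MEX

theorem a_REFL : REFL_stmt := REFL_all

theorem a_MEX : MEX_stmt := MEX_all

end Pool.Agent.RF
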