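import Pool.Agent.helper13.RF.SpecU
import Pool.Agent.helper41.RF.MUL

/-!
# Project RF (MP_16912e_nt), stage 2, row MU3: points `IsPt2` in one class, one type (`SameV`)
-/

set_option autoImplicit false

namespace Pool.Agent.RF

open NumberField

theorem MU3_dvd (f g : ℕ) (b : OO) (h : ∀ l ∈ f.primeFactors, (l : OO) ^ (if l ∣ g then (f.factorization l + 14) / 15 else f.factorization l) ∣ b) :
    ((fU f g : ℕ) : OO) ∣ b := by
  unfold fU
  rw [Nat.cast_prod]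
  apply Finset.prod_dvd_of_coprime
  · intro l hl l' hl' hne
    have h1 := Nat.prime_of_mem_primeFactors (Finset.mem_coe.1 hl)
    have h2 := Nat.prime_of_mem_primeFactors (Finset.mem_coe.1 hl')
    have h3 : Nat.Coprime (l ^ (if l ∣ g then (f.factorization l + 14) / 15 else f.factorization l))
        (l' ^ (if l' ∣ g then (f.factorization l' + 14) / 15 else f.factorization l')) :=
      Nat.Coprime.pow _ _ ((Nat.coprime_primes h1 h2).2 hne)
    exact h3.cast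
  · intro l hl
    rw [Nat.cast_pow]
    exact h l hl

theorem MU3_pos (f g : ℕ) : 0 < fU f g := by
  unfold fU
  apply Finset.prod_pos
  intro l hl
  exact pow_pos (Nat.prime_of_mem_primeFactors hl).pos _

theorem MU3 (h1 : UPO_stmt) (h2 : UDE_stmt) (h3 : UTI_stmt) (h5 : UZC_stmt) (h6 : ULO_stmt) (h8 : SPC_stmt)
    (h7 : HA3_stmt) : MU3_stmt := by
  classical
  intro D₀ F _ _ C f g hsq hD₀ S hS hk hE
  rcases S.eq_empty_or_nonempty with rfl | ⟨o, ho⟩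
  · rw [Finset.card_empty, Nat.cast_zero]
    positivity
  obtain ⟨hoP, hoD, hog, hon⟩ := hS o ho
  have hf0 : 0 < f := by
    rcases Nat.eq_zero_or_pos f with rfl | h
    · exfalso
      have := hoP.D0
      rw [hoD] at this
      simp at this
    · exact h
  obtain ⟨-, -, hfh, -, hh0, -, -, hgl⟩ := h7 f o hf0
  rw [hog] at hfh hh0 hgl
  -- the elements `z`
  have hz : ∀ p q : Pt, ∃ (z : 𝓞 F) (a b : OO), p ∈ S → q ∈ S → z ^ 5 = C.σ (C.σ (uu C f p)) * uu C f q ∧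
      z * C.σ (C.σ z) = C.ι (p.n * q.n) ∧ 10 * z = C.ι a + C.ι b * C.w := by
    intro p q
    by_cases hpq : p ∈ S ∧ q ∈ S
    · obtain ⟨hp, hq⟩ := hpq
      obtain ⟨hpP, hpD, hpg, -⟩ := hS p hp
      obtain ⟨hqP, hqD, hqg, -⟩ := hS q hq
      obtain ⟨hT, hEq⟩ := hE p hp q hq
      obtain ⟨z, hz1, hz2⟩ := h2 D₀ F C p q f hpP hqP hpD hqD hEq
      obtain ⟨a, b, hab⟩ := C.co z
      exact ⟨z, a, b, fun _ _ => ⟨hz1, hz2, hab⟩⟩
    · exact ⟨0, 0, 0, fun hp hq => absurd ⟨hp, hq⟩ hpq⟩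
  choose z a b hz using hz
  -- the labels
  have hL : ∀ l : ℕ, ∃ lab : Pt → Fin 36, l ∈ f.primeFactors → ∀ p ∈ S, ∀ q ∈ S, lab p = lab q → ∀ y : 𝓞 F,
      y ^ 5 = C.σ (C.σ (uu C f p)) * uu C f q → ∀ a b : OO, 10 * y = C.ι a + C.ι b * C.w →
        (l : OO) ^ (if l ∣ g then (f.factorization l + 14) / 15 else f.factorization l) ∣ b := by
    intro l
    by_cases h : l ∈ f.primeFactors
    · obtain ⟨lab, hl⟩ := h6 D₀ F C f hsq hD₀ S (fun p hp => ⟨(hS p hp).1, (hS p hp).2.1⟩) (fun p hp q hq => (hE p hp q hq).1)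
        o ho (fun p => z o p) (fun p hp => (hz o p ho hp).1) l (Nat.prime_of_mem_primeFactors h) (Nat.dvd_of_mem_primeFactors h)
      refine ⟨lab, fun _ p hp q hq hpq y hy a b hab => ?_⟩
      have e1 := hl p hp q hq hpq y hy a b hab
      have e2 := hgl l (Nat.prime_of_mem_primeFactors h)
      by_cases e3 : l ∣ g
      · rw [if_pos e3]
        rw [if_pos (e2.1 e3).2] at e1
        exact e1
      · rw [if_neg e3]
        rw [if_neg (fun e4 => e3 (e2.2 ⟨Nat.dvd_of_mem_primeFactors h, e4⟩))] at e1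
        exact e1
    · exact ⟨fun _ => 0, fun h' => absurd h' h⟩
  choose lab hlab using hL
  let Λ : Pt → ({l // l ∈ f.primeFactors} → Fin 36) := fun i l => lab l.1 i
  obtain ⟨B, hB⟩ : ∃ B : ℝ, B = 1 + 180 * ((f : ℝ) / ((1 : ℕ) * fU f g)) ^ 2 := ⟨_, rfl⟩
  have hB0 : 0 ≤ B := by
    rw [hB]
    positivity
  -- the main step
  have hT : ∀ T : Finset Pt, T ⊆ S.erase o → (∀ i ∈ T, ∀ j ∈ T, Λ i = Λ j) → (T.card : ℝ) ≤ B := by
    intro T hTS hTΛ
    have hmem : ∀ i ∈ T, i ∈ S := fun i hi => Finset.mem_of_mem_erase (hTS hi)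
    obtain ⟨hva, hvb, hN0, hNr⟩ := h1 o hoP
    have hN : (0 : ℝ) < (o.n.norm : ℝ) := by exact_mod_cast hN0
    have hg' : (0 : ℝ) < ((1 : ℕ) : ℝ) := by norm_num
    have hf' : (0 : ℝ) < f := by exact_mod_cast hf0
    have hD' : (0 : ℝ) < D₀ := by exact_mod_cast hD₀
    have ht' : (0 : ℝ) < (fU f g : ℝ) := by exact_mod_cast MU3_pos f g
    have h5' : (0 : ℝ) < √5 := Real.sqrt_pos.2 (by norm_num)
    have hSPC := h8 Pt T (fun i => C.E1 (z o i)) (fun i => C.E2 (z o i)) ((o.n.norm : ℝ) * (D₀ * (f : ℝ) ^ 2) / ((1 : ℕ) : ℝ) ^ 4)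
      ((o.n.norm : ℝ) / ((1 : ℕ) : ℝ) ^ 2 * (fU f g : ℝ) ^ 2 * (√5 * D₀ / 100)) (by positivity) (by positivity) ?_ ?_
    · rw [hB]
      exact hSPC.trans (add_le_add le_rfl (MUL_num _ _ _ _ _ hN hD' hg' ht'))
    · intro i hi
      have hiS := hmem i hi
      obtain ⟨hiP, hiD, hig, hin⟩ := hS i hiS
      obtain ⟨-, hz2, -⟩ := hz o i ho hiS
      obtain ⟨e1, e2⟩ := MUL_nrm C (z o i) (o.n * i.n) 1 (by rw [hz2]; simp)
      rw [le_div_iff₀ (by positivity)]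
      have e3 : ‖C.E1 (z o i)‖ ^ 2 * ‖C.E2 (z o i)‖ ^ 2 * ((1 : ℕ) : ℝ) ^ 4 = (o.n.norm : ℝ) * (i.n.norm : ℝ) := by
        have e4 : va (o.n * i.n) * vb (o.n * i.n) = (o.n.norm : ℝ) * (i.n.norm : ℝ) := by
          rw [← MUL_norm, map_mul]
          push_cast
          rfl
        rw [← e4, ← e1, ← e2]
        ring
      change ‖C.E1 (z o i)‖ ^ 2 * ‖C.E2 (z o i)‖ ^ 2 * ((1 : ℕ) : ℝ) ^ 4 ≤ _
      rw [e3]
      apply mul_le_mul_of_nonneg_left _ hN.le
      have e5 : (i.n.norm : ℝ) ≤ ((i.D : ℤ) : ℝ) := by exact_mod_cast (le_abs_self _).trans hin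
      rw [hiD] at e5
      push_cast at e5
      exact e5
    · intro i hi j hj hij
      have hiS := hmem i hi
      have hjS := hmem j hj
      obtain ⟨hiP, hiD, hig, hin⟩ := hS i hiS
      obtain ⟨hjP, hjD, hjg, hjn⟩ := hS j hjS
      obtain ⟨zi1, zi2, zi3⟩ := hz o i ho hiS
      obtain ⟨zj1, zj2, zj3⟩ := hz o j ho hjS
      obtain ⟨zz1, zz2, zz3⟩ := hz i j hiS hjS
      obtain ⟨hTRI0, hco⟩ := h3 D₀ F C o i j f hoP hiP hjP hoD hiD hjD _ _ _ zi1 zj1 zz1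
      have hTRI : ((1 : ℕ) : 𝓞 F) * (C.σ (C.σ (z o i)) * z o j) = C.ι o.n * z i j := by
        rw [Nat.cast_one, one_mul]
        exact hTRI0
      -- `b ≠ 0`
      have hb0 : b i j ≠ 0 := by
        intro h0
        rw [h0, map_zero, zero_mul, add_zero] at zz3
        apply h5 D₀ F C i j f hsq hiP hjP hiD hjD (hE i hiS j hjS).1 (hk i hiS j hjS) hij (z i j) zz1
        have e1 := congrArg C.σ (congrArg C.σ zz3)
        rw [MUL_ssι, map_mul, map_mul, map_ofNat, map_ofNat, ← zz3] at e1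
        exact mul_left_cancel₀ (by norm_num) e1
      -- `f₁ ∣ b`
      have hdvd : ((fU f g : ℕ) : OO) ∣ b i j := by
        apply MU3_dvd
        intro l hl
        exact hlab l hl i hiS j hjS (congrFun (hTΛ i hi j hj) ⟨l, hl⟩) (z i j) zz1 _ _ zz3
      obtain ⟨c, hc⟩ := hdvd
      have hge := MUL_norm_ge (fU f g) hb0 hc
      obtain ⟨m1, m2⟩ := MUL_pr C _ _ _ _ 1 hTRI
      obtain ⟨i1, i2⟩ := MUL_im C (z i j) _ _ zz3
      have hw := MUL_w12 C hD₀
      obtain ⟨Y1, hY1⟩ : ∃ Y : ℝ, Y = |((starRingEnd ℂ) (C.E1 (z o i)) * C.E1 (z o j)).im| := ⟨_, rfl⟩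
      obtain ⟨Y2, hY2⟩ : ∃ Y : ℝ, Y = |((starRingEnd ℂ) (C.E2 (z o i)) * C.E2 (z o j)).im| := ⟨_, rfl⟩
      change _ ≤ |((starRingEnd ℂ) (C.E1 (z o i)) * C.E1 (z o j)).im| * |((starRingEnd ℂ) (C.E2 (z o i)) * C.E2 (z o j)).im|
      rw [← hY1] at m1 ⊢
      rw [← hY2] at m2 ⊢
      rw [abs_of_pos hva] at m1
      rw [abs_of_pos hvb] at m2
      have e1 : 100 * (((1 : ℕ) : ℝ) ^ 2 * (Y1 * Y2)) = (o.n.norm : ℝ) * (|va (b i j)| * |vb (b i j)|) * (√5 * D₀) := by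
        calc 100 * (((1 : ℕ) : ℝ) ^ 2 * (Y1 * Y2)) = (10 * (((1 : ℕ) : ℝ) * Y1)) * (10 * (((1 : ℕ) : ℝ) * Y2)) := by ring
          _ = (va o.n * (10 * |(C.E1 (z i j)).im|)) * (vb o.n * (10 * |(C.E2 (z i j)).im|)) := by rw [m1, m2]; ring
          _ = (va o.n * vb o.n) * (|va (b i j)| * |vb (b i j)|) * (|(C.E1 C.w).im| * |(C.E2 C.w).im|) := by rw [i1, i2]; ring
          _ = (o.n.norm : ℝ) * (|va (b i j)| * |vb (b i j)|) * (√5 * D₀) := by rw [hw, hNr]
      have e2 : (o.n.norm : ℝ) * (fU f g : ℝ) ^ 2 * (√5 * D₀) ≤ 100 * (((1 : ℕ) : ℝ) ^ 2 * (Y1 * Y2)) := by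
        rw [e1]
        apply mul_le_mul_of_nonneg_right _ (by positivity)
        exact mul_le_mul_of_nonneg_left hge hN.le
      have e3 : (o.n.norm : ℝ) / ((1 : ℕ) : ℝ) ^ 2 * (fU f g : ℝ) ^ 2 * (√5 * D₀ / 100) = (o.n.norm : ℝ) * (fU f g : ℝ) ^ 2 * (√5 * D₀) / (100 * ((1 : ℕ) : ℝ) ^ 2) := by
        field_simp
      rw [e3, div_le_iff₀ (by positivity)]
      linarith
  -- counting
  have hc1 : (S.erase o).card = ∑ y : ({l // l ∈ f.primeFactors} → Fin 36), ((S.erase o).filter fun i => Λ i = y).card :=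
    Finset.card_eq_sum_card_fiberwise fun i _ => Finset.mem_coe.2 (Finset.mem_univ _)
  have hc2 : ((S.erase o).card : ℝ) ≤ (36 : ℝ) ^ f.primeFactors.card * B := by
    rw [hc1]
    push_cast
    calc ∑ y : ({l // l ∈ f.primeFactors} → Fin 36), (((S.erase o).filter fun i => Λ i = y).card : ℝ) ≤ ∑ _y : ({l // l ∈ f.primeFactors} → Fin 36), B := by
          apply Finset.sum_le_sum
          intro y _
          apply hT _ (Finset.filter_subset _ _)
          intro i hi j hj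
          rw [(Finset.mem_filter.1 hi).2, (Finset.mem_filter.1 hj).2]
      _ = (36 : ℝ) ^ f.primeFactors.card * B := by
          rw [Finset.sum_const, Finset.card_univ, Fintype.card_fun, Fintype.card_fin, Fintype.card_coe, nsmul_eq_mul]
          push_cast
          rfl
  have hc3 : S.card = (S.erase o).card + 1 := (Finset.card_erase_add_one ho).symm
  have hBe : B = 1 + 180 * (hU f g : ℝ) ^ 2 := by
    have ht' : (0 : ℝ) < (fU f g : ℝ) := by exact_mod_cast MU3_pos f g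
    have e1 : (f : ℝ) = (fU f g : ℝ) * (hU f g : ℝ) := by exact_mod_cast hfh.symm
    rw [hB, e1, Nat.cast_one, one_mul, mul_div_cancel_left₀ _ ht'.ne']
  rw [hc3, ← hBe]
  push_cast
  linarith

end Pool.Agent.RF
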