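import Pool.Agent.helper60.RF.SpecB

/-!
# Project RF (MP_16912e_nt), stage 2 (exact order), block B', part T: boundedly many types at the primes above the content `g`

In stage 1 two points of the same content `g` and the same type (`SameT`: all valuations at the primes above `g`) give radicals and elements `z`; there are `(log N)^(64 ω(g))` types. Here `SameT` is replaced by `SameU`, with `C^ω(g) τ(g)^4` types.
NOTATION: `P` a prime of `𝓞 F` over `l ∣ g`, `G = vv P g`, `y0 = vv P (ι n)`, `y1 = vv P (ι n')`, `x_j = vv P (σ^j θ)`, `A = AV = 2 x2 + x3 - 2 y1`, `B = BV = 2 x0 + x1 - 2 y1`, `m = vv P (ι M)`, `m' = vv P (ι M')`, `' = star`.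

RULES. Row `XXX`: file `Pool/Agent/<seat>/RF/XXX.lean`, header `import Pool.Agent.helper13.RF.SpecT`, `set_option autoImplicit false`, `namespace Pool.Agent.RF`, `open NumberField`, theorem line of the lock note; auxiliary lemmas prefixed `XXX_`; no sorry, no straight double quotes, no `convert`, no `congr!`, no `native_decide`.
Useful proved files (import them if you like): `Pool/Agent/helper60/RF/DEL.lean` (`DEL_pow`, `DEL_prime`, `DEL_ct2`), `TRI.lean` (`TRI_pt`: basic facts of a point), `RDA.lean` (`RDA_v`, `RDA_v5`, `RDA_g`), `Pool/Agent/helper85/RF/TYP.lean` (`TYP_vv`, `TYP_l`, `TYP_Q`).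
-/

set_option autoImplicit false

namespace Pool.Agent.RF

open NumberField

variable {D : ℤ} {F : Type} [Field F] [NumberField F]

/-- `A = 2 v(σ²θ) + v(σ³θ) - 2 v(n')` -/
noncomputable def AV (C : Ctx D F) (f : ℕ) (P : Ideal (𝓞 F)) (p : Pt) : ℤ :=
  2 * (vv P (C.σ (C.σ (th C f p))) : ℤ) + (vv P (C.σ (C.σ (C.σ (th C f p)))) : ℤ) - 2 * (vv P (C.ι (star p.n)) : ℤ)

/-- `B = 2 v(θ) + v(σθ) - 2 v(n')` -/
noncomputable def BV (C : Ctx D F) (f : ℕ) (P : Ideal (𝓞 F)) (p : Pt) : ℤ :=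
  2 * (vv P (th C f p) : ℤ) + (vv P (C.σ (th C f p)) : ℤ) - 2 * (vv P (C.ι (star p.n)) : ℤ)

/-- the same type at the primes above `g`, new form -/
def SameU (C : Ctx D F) (f g : ℕ) (p q : Pt) : Prop :=
  ∀ P : Ideal (𝓞 F), P.IsPrime → (g : 𝓞 F) ∈ P → (5 : ℤ) ∣ AV C f P p - AV C f P q ∧
    min (AV C f P p) (10 * (vv P (g : 𝓞 F) : ℤ)) = min (AV C f P q) (10 * (vv P (g : 𝓞 F) : ℤ))

variable (F) in
open Classical in
/-- the primes above `g` -/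
noncomputable def QP (g : ℕ) : Finset (Ideal (𝓞 F)) :=
  (UniqueFactorizationMonoid.normalizedFactors (Ideal.span {(g : 𝓞 F)})).toFinset

/-! ## Rows -/

/-- **TVA** (short to medium, PURE). `x ∈ P^k ↔ P^k ∣ (x) ↔ k ≤ vv P x` for `x ≠ 0` (`Multiset.le_count_iff_replicate_le`, `UniqueFactorizationMonoid.dvd_iff_normalizedFactors_le_normalizedFactors`, or `Ideal.count_..`; see `TYP_vv`), so `vv` has the properties of a valuation: (2) `P^k`, `k = min`, is closed under addition; (3) if `vv P x < vv P y` and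
`x + y ∈ P^(vv P x + 1)` (or `x + y = 0`) then `x = (x + y) - y ∈ P^(vv P x + 1)`, a contradiction. -/
def TVA_stmt : Prop := ∀ (F : Type) [Field F] [NumberField F] (P : Ideal (𝓞 F)), P.IsPrime → P ≠ ⊥ →
  (∀ (x : 𝓞 F) (k : ℕ), x ≠ 0 → (x ∈ P ^ k ↔ k ≤ vv P x)) ∧
  (∀ x y : 𝓞 F, x ≠ 0 → y ≠ 0 → x + y ≠ 0 → min (vv P x) (vv P y) ≤ vv P (x + y)) ∧
  (∀ x y : 𝓞 F, x ≠ 0 → y ≠ 0 → vv P x ≠ vv P y → x + y ≠ 0 ∧ vv P (x + y) = min (vv P x) (vv P y))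

/-- **TLR** (short; from TID, VVM, TVA): the relations at every prime. TID (1): `θ τθ = ι(n² n')`, and its image under `σ` (`σ ι = ι star`); TID (2): `ι n ∣ θ σ³θ` and its images under `σ, σ², σ³` (`σ⁴ = 1`), `vv` is monotone for divisibility (VVM (3)); TID (3): `θ + τθ = ι(2X)` and its image under `σ`, TVA (2) (`X ≠ 0` because `X ≡ 1 mod 25`, so `ι(2X), ι(2X') ≠ 0`; `ι` is injective by `C.ind`). -/
def TLR_stmt : Prop := ∀ (D₀ : ℤ) (F : Type) [Field F] [NumberField F] (C : Ctx D₀ F) (p : Pt) (f : ℕ), IsPt p →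
  p.D = D₀ * (f : ℤ) ^ 2 → ∀ P : Ideal (𝓞 F), P.IsPrime → P ≠ ⊥ → ∀ (x0 x1 x2 x3 y0 y1 : ℕ), x0 = vv P (th C f p) → x1 = vv P (C.σ (th C f p)) →
  x2 = vv P (C.σ (C.σ (th C f p))) → x3 = vv P (C.σ (C.σ (C.σ (th C f p)))) → y0 = vv P (C.ι p.n) → y1 = vv P (C.ι (star p.n)) →
  x0 + x2 = 2 * y0 + y1 ∧ x1 + x3 = 2 * y1 + y0 ∧ y0 ≤ x0 + x3 ∧ y1 ≤ x1 + x0 ∧ y0 ≤ x2 + x1 ∧ y1 ≤ x3 + x2 ∧
  min x0 x2 ≤ vv P (C.ι (2 * p.X)) ∧ min x1 x3 ≤ vv P (C.ι (2 * star p.X)) ∧ C.ι (2 * p.X) ≠ 0 ∧ C.ι (2 * star p.X) ≠ 0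

/-- **TLM** (medium; from TRA, VVM, TVA): `M` and `X` at a prime above `g = ct p`. `n = g n₁`, `n' = g n₁'` (`DEL_ct2`), `n₁ - n₁' = (im n₁) √5`, so if `ι n₁, ι n₁' ∈ P` then (`5 ∉ P` because `n ∈ P`, `25 ∣ n - 1`) `im n₁ ∈ P`, `re n₁ ∈ P`: but `gcd (re n₁) (im n₁) = 1`. So `a0 = vv P (ι n₁)`, `a1 = vv P (ι n₁')`, one of them is `0`.
`K = 25 k`: `ι K, ι K' ∉ P` (`k` is coprime to `n` and to `n'`, `n ∈ P`, `n' ∈ P`; for `K' = star K`: `star` of the coprimality of `k` with `n'`, `n`). TRA (2): `M M' = - g (φ n₁' K² + φ' n₁ K'²)`; if exactly one of `n₁, n₁'` is in `P` the bracket is not in `P`, so `M ≠ 0` and `m + m' = G`. TRA (1): `n M + φ n' M' = - 2 X K'` (`vv` of the right side is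
`vv P (ι (2X))`, `φ` is a unit), and the `star` of it: `n' M' + φ' n M = - 2 X' K`: if `y0 + m ≠ y1 + m'` TVA (3) gives the values. -/
def TLM_stmt : Prop := ∀ (D₀ : ℤ) (F : Type) [Field F] [NumberField F] (C : Ctx D₀ F) (p : Pt), IsPt p →
  ∀ P : Ideal (𝓞 F), P.IsPrime → P ≠ ⊥ → ((ct p : ℕ) : 𝓞 F) ∈ P → ∃ a0 a1 m m' : ℕ,
    vv P (C.ι p.n) = vv P ((ct p : ℕ) : 𝓞 F) + a0 ∧ vv P (C.ι (star p.n)) = vv P ((ct p : ℕ) : 𝓞 F) + a1 ∧ (a0 = 0 ∨ a1 = 0) ∧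
    (0 < a0 + a1 → m + m' = vv P ((ct p : ℕ) : 𝓞 F)) ∧
    (0 < a0 + a1 → a0 + m ≠ a1 + m' → vv P (C.ι (2 * p.X)) = vv P ((ct p : ℕ) : 𝓞 F) + min (a0 + m) (a1 + m') ∧
      vv P (C.ι (2 * star p.X)) = vv P ((ct p : ℕ) : 𝓞 F) + min (a0 + m) (a1 + m'))

/-- **TLA** (short; from TLR, TLM): `omega` after unfolding `AV`, `BV`. Cases: `a1 = 0`: `y1 = G`, `A, B ≥ - 2 G`. `a1 > 0` (so `a0 = 0`), `m = a1 + m'`: `a1 ≤ G`, `y1 ≤ 2 G`. `a1 > 0`, `m ≠ a1 + m'`: `vv(2X), vv(2X') ≤ 2 G`, so `min x0 x2 ≤ 2 G`, `min x1 x3 ≤ 2 G`, and `x0 + x2 = 3 G + a1`, `x1 + x3 = 3 G + 2 a1`, `y1 = G + a1 ≤ x2 + x3` and so on. -/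
def TLA_stmt : Prop := ∀ (D₀ : ℤ) (F : Type) [Field F] [NumberField F] (C : Ctx D₀ F) (p : Pt) (f : ℕ), IsPt p →
  p.D = D₀ * (f : ℤ) ^ 2 → ∀ P : Ideal (𝓞 F), P.IsPrime → P ≠ ⊥ → ((ct p : ℕ) : 𝓞 F) ∈ P →
  AV C f P p + BV C f P p = 5 * (vv P (C.ι p.n) : ℤ) ∧ -(4 * (vv P ((ct p : ℕ) : 𝓞 F) : ℤ)) ≤ AV C f P p ∧
  -(4 * (vv P ((ct p : ℕ) : 𝓞 F) : ℤ)) ≤ BV C f P p ∧ vv P ((ct p : ℕ) : 𝓞 F) ≤ vv P (C.ι p.n)

/-- **TL3** (medium; from TLM, VVM, TVA, TID): bounded valuations if `l` divides `f` to a high power. Let `e = vv P l ≥ 1`; `vv P g = c e` (`g = l^c g₂`, `l ∤ g₂`, so `g₂ ∉ P`). `vv P D ≥ 2 j e > 4 G` (`D = D₀ f²`, `l^(2j) ∣ f²`; `D ≠ 0`). `2 ∉ P`: `l ∣ n` and `n` is coprime to `2`. Let `a1 > G`, so `a0 = 0`, `m + m' = G`, `m ≤ G < a1 + m'`: `vv X = vv (2X) = G + m ≤ 2 G`, `vv X² ≤ 4 G`.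
`e1`: `X² = n² n' - w2 D K²` with `vv (n² n') = 3 G + a1 > 4 G` and `vv (w2 D K²) ≥ vv D > 4 G`: `vv X² > 4 G` (TVA (1) with `k = 4 G + 1`), a contradiction. `a0 > G`: the same with `vv X = G + m' ≤ 2 G` and `vv (n² n') = 3 G + 2 a0`. So `a0, a1 ≤ G`. -/
def TL3_stmt : Prop := ∀ (D₀ : ℤ) (F : Type) [Field F] [NumberField F] (C : Ctx D₀ F) (p : Pt) (f : ℕ), IsPt p →
  p.D = D₀ * (f : ℤ) ^ 2 → ∀ (l j : ℕ), l.Prime → l ∣ ct p → l ^ j ∣ f → 2 * (ct p).factorization l < j →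
  ∀ P : Ideal (𝓞 F), P.IsPrime → P ≠ ⊥ → (l : 𝓞 F) ∈ P →
    vv P ((ct p : ℕ) : 𝓞 F) = (ct p).factorization l * vv P (l : 𝓞 F) ∧ 1 ≤ vv P (l : 𝓞 F) ∧
    vv P (C.ι p.n) ≤ 2 * vv P ((ct p : ℕ) : 𝓞 F) ∧ vv P (C.ι (star p.n)) ≤ 2 * vv P ((ct p : ℕ) : 𝓞 F)

/-- **TRD** (short; from TID, LOC, VVM, VV5, TLA): as `RDA` (`Pool/Agent/helper60/RF/RDA.lean`, copy it) with `SameU`. For `P ∋ g`: `vv P β = 2 x0 + x1 + 3 y1 = B + 5 y1 = 5 y0 - A + 5 y1` (TLA (1)), so `vv β_p + 4 vv β_q ≡ - (A_p - A_q) - 5 A_q ≡ 0 mod 5`. -/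
def TRD_stmt : Prop := ∀ (D₀ : ℤ) (F : Type) [Field F] [NumberField F] (C : Ctx D₀ F) (p q : Pt) (f : ℕ), IsPt p → IsPt q →
  p.D = D₀ * (f : ℤ) ^ 2 → q.D = D₀ * (f : ℤ) ^ 2 → ct p = ct q → SameU C f (ct p) p q →
  Rad C.s (be C f p * be C f q ^ 4)

/-- **TDE** (short to medium; from TID, LOC, VVM, VV5, GDV, TLA): as `DEL` (`Pool/Agent/helper60/RF/DEL.lean`, copy it) with `SameU`. For `P ∋ g`: `vv(Θ² σΘ) - 2 vv(n_p' n_q') = A_p + B_q`, and this is at least `5 G`: if `A_p < 10 G` then `A_p = A_q` (`SameU`) and `A_q + B_q = 5 y0(q) ≥ 5 G`; if `A_p ≥ 10 G` it is at least `10 G - 4 G` (TLA). -/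
def TDE_stmt : Prop := ∀ (D₀ : ℤ) (F : Type) [Field F] [NumberField F] (C : Ctx D₀ F) (p q : Pt) (f : ℕ), Squarefree D₀ →
  IsPt p → IsPt q → p.D = D₀ * (f : ℤ) ^ 2 → q.D = D₀ * (f : ℤ) ^ 2 → ct p = ct q → SameU C f (ct p) p q → Eqv C f p q →
  ∃ z : 𝓞 F, Zr C f (ct p) p q z ∧ z * C.σ (C.σ z) * (ct p : 𝓞 F) ^ 2 = C.ι (p.n * q.n)

/-- **TPQ** (short to medium, PURE). The primes above `l`: `(l) = ∏ P^(vv P l)`, norms: `l^4 = ∏ N(P)^(vv P l)` (`Ideal.absNorm_span_natCast` or similar: the norm of `(l)` is `l^4`), `N(P) ≥ l` (a power of `l`, `≥ 2`; or use `Ideal.sum_ramification_inertia`), so `∑_P vv P l ≤ 4`: at most 4 primes, each with `vv P l ≤ 4`. -/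
def TPQ_stmt : Prop := ∀ (F : Type) [Field F] [NumberField F], Module.finrank ℚ F = 4 → ∀ l : ℕ, l.Prime →
  (QP F l).card ≤ 4 ∧ ∀ P ∈ QP F l, vv P (l : 𝓞 F) ≤ 4

/-- **TTP** (medium, PURE; from TPQ, VVM): the number of types. `QP F g = ⋃_(l ∣ g) QP F l` (disjoint union; `P ∈ QP F g ↔ P` prime, `≠ ⊥`, `g ∈ P`), for `P ∈ QP F l`: `vv P g = c_l vv P l ≤ 4 c_l`, `c_l = g.factorization l ≥ 1`, so the factor is at most `5 (56 c_l + 1) ≤ 285 c_l`; at most four factors for each `l`: the product is at most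
`∏_(l ∣ g) (285 c_l)^4 ≤ 285^(4 ω(g)) (∏ (c_l + 1))^4`, and `∏ (c_l + 1)` is the number of divisors (`Nat.card_divisors`). (Or: induction with `Nat.recOnPosPrimePosCoprime`.) -/
def TTP_stmt : Prop := ∀ (F : Type) [Field F] [NumberField F], Module.finrank ℚ F = 4 → ∀ g : ℕ, 0 < g →
  ∏ P ∈ QP F g, (5 * (14 * vv P (g : 𝓞 F) + 1)) ≤ 285 ^ (4 * g.primeFactors.card) * g.divisors.card ^ 4

/-- **TTY** (medium; from TLA): points and types. The type of `p` is the function on `QP F g` with the values `(A mod 5, min(A, 10 G) + 4 G)`, `0 ≤ min(A, 10 G) + 4 G ≤ 14 G` (TLA): at most `∏_P 5 (14 G + 1)` types (`Fintype.card_pi` or `Finset.pi`, `Fin 5 × Fin (14 G + 1)`); points of the same type satisfy `SameU` (every prime `P ∋ g` is in `QP F g`). See `TYP` in `Pool/Agent/helper85/RF/TYP.lean`. -/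
def TTY_stmt : Prop := ∀ (D₀ : ℤ) (F : Type) [Field F] [NumberField F] (C : Ctx D₀ F) (f g : ℕ), 0 < g →
  ∀ (B : ℝ), 0 ≤ B → ∀ S : Finset Pt, (∀ p ∈ S, IsPt p ∧ p.D = D₀ * (f : ℤ) ^ 2 ∧ ct p = g) →
  (∀ T ⊆ S, (∀ p ∈ T, ∀ q ∈ T, SameU C f g p q) → (T.card : ℝ) ≤ B) →
  (S.card : ℝ) ≤ ((∏ P ∈ QP F g, (5 * (14 * vv P (g : 𝓞 F) + 1)) : ℕ) : ℝ) * B

/-- **TCL** (short; from TRD, REFL; helper13): as `CLS` with `SameU`. -/
def TCL_stmt : Prop := ∀ (D₀ : ℤ) (F : Type) [Field F] [NumberField F] (C : Ctx D₀ F) (f g : ℕ), 1 < D₀ → Squarefree D₀ → D₀ ≠ 5 →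
  (∃ r w : F, Mir D₀ F C.s r w) → ∀ (K : Type) [Field K] [NumberField K], Module.finrank ℚ K = 2 → (∃ x : K, x ^ 2 = D₀) →
  ∀ B : ℝ, 0 ≤ B → ∀ S : Finset Pt, (∀ p ∈ S, IsPt p ∧ p.D = D₀ * (f : ℤ) ^ 2 ∧ ct p = g) →
  (∀ p ∈ S, ∀ q ∈ S, SameU C f g p q) → (∀ T ⊆ S, (∀ p ∈ T, ∀ q ∈ T, Eqv C f p q) → (T.card : ℝ) ≤ B) →
  (S.card : ℝ) ≤ (Nat.card {c : ClassGroup (𝓞 K) // c ^ 5 = 1} : ℝ) * B

end Pool.Agent.RF
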