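import Pool.Agent.helper6.RF.FIN3
import Pool.Agent.helper13.RF.SpecT
import Pool.Agent.helper33.RF.SpecL

/-!
# Project RF (MP_16912e_nt), stage 2 (exact order), block B' for the points `IsPt2` (helper95/RF/SpecC3.lean); target `BT_stmt` (helper6/RF/FIN3.lean)

The element `u = θ² σθ / n'²` of `𝓞 F` (`θ = th C f p`, `K = 25 k`, `' = star`, `τ = σσ`) satisfies `u τu = n⁵`, `θ⁵ = u² σ³u`, `β = be C f p = u n'⁵`; it replaces `θ` everywhere, no coprimality of `k` and `n` is needed.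
NOTATION at a prime `P ≠ ⊥` of `𝓞 F`: `c0 = vv P (τu)`, `c1 = vv P (σ³u)`, `c2 = vv P u`, `c3 = vv P (σu)`, `x_j = vv P (σ^j θ)`, `y0 = vv P (ι n)`, `y1 = vv P (ι n')`, `G = vv P f`. `φ⁻¹ = ph - 1`, `φ φ' = -1`, `ph² = ph + 1`, `w2 = 2 + ph`, `w2' φ = √5 = φ⁻¹ w2`, `w² = - ι(w2) D₀`, `σ w = ι(ph - 1) w`, `τ w = - w`, `τ ι = ι`, `σ ι x = ι x'`.

RULES. Row `XXX`: file `Pool/Agent/<seat>/RF/XXX.lean`, header `import Pool.Agent.helper13.RF.SpecU`, `set_option autoImplicit false`, `namespace Pool.Agent.RF`, `open NumberField`, theorem line of the lock note; auxiliary lemmas prefixed `XXX_`; no sorry, no straight double quotes, no `convert`, no `congr!`, no `native_decide`. Rows are independent (other rows only as hypotheses; unused ones may be dropped; any PROVED row of RF may be added as a hypothesis or its file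 imported).
Useful proved files: `helper33/RF/TRA.lean` (identities in `OO`: `TRA_ph`, `TRA_phs`, `TRA_w2`, `TRA_norm_ne`, `TRA_cancel`), `helper60/RF/DEL.lean` (`DEL_pow`, `DEL_prime`, `DEL_ct2`), `TRI.lean` (`TRI_pt`), `NZB.lean`, `RDA.lean` (`RDA_v`, `RDA_v5`, `RDA_g`), `TRV.lean`, `helper61/RF/YDV.lean` (`YDV_R`, `YDV_ww`, `YDV_ssw`), `helper53/RF/TVA.lean`, `helper34/RF/WEU.lean` (`OO` is a domain and a PID), `helper36/RF/YPL.lean`, `helper43/RF/YVM.lean`, `helper59/RF/YLP.lean`.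
-/

set_option autoImplicit false

namespace Pool.Agent.RF

open NumberField

variable {D : ℤ} {F : Type} [Field F] [NumberField F]

open Classical in
/-- `u = θ² σθ / n'²` -/
noncomputable def uu (C : Ctx D F) (f : ℕ) (p : Pt) : 𝓞 F :=
  if h : C.ι (star p.n) ^ 2 ∣ th C f p ^ 2 * C.σ (th C f p) then h.choose else 0

/-- the same type at the primes above `f` -/
def SameV (C : Ctx D F) (f : ℕ) (p q : Pt) : Prop :=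
  ∀ P : Ideal (𝓞 F), P.IsPrime → (f : 𝓞 F) ∈ P →
    (5 : ℤ) ∣ (vv P (C.σ (C.σ (uu C f p))) : ℤ) - (vv P (C.σ (C.σ (uu C f q))) : ℤ) ∧
    min (vv P (C.σ (C.σ (uu C f p)))) (14 * vv P (f : 𝓞 F)) = min (vv P (C.σ (C.σ (uu C f q)))) (14 * vv P (f : 𝓞 F))

/-- the bad part: `∏ l^⌈v_l f / 15⌉` over the primes `l ∣ f` with `l ∣ norm n` -/
def gUb (f : ℕ) (p : Pt) : ℕ :=
  ∏ l ∈ f.primeFactors.filter (fun l : ℕ => ((l : ℕ) : ℤ) ∣ p.n.norm), l ^ ((f.factorization l + 14) / 15)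

/-- the rest of `f` at the primes of `g` -/
def hU (f g : ℕ) : ℕ := ∏ l ∈ g.primeFactors, l ^ (f.factorization l - (f.factorization l + 14) / 15)

/-- the divisor of the coefficients -/
def fU (f g : ℕ) : ℕ :=
  ∏ l ∈ f.primeFactors, l ^ (if l ∣ g then (f.factorization l + 14) / 15 else f.factorization l)

/-! ## 1. One point, algebra -/

/-- **UTR** (short, PURE; from WEU). Identities in `OO`. (1), (2): exactly `helper33/RF/TRA.lean` (1), (2) (that proof uses only `e1`, `e2`, `n1` for them; copy it). (3) `25 k T = M² - n' K'²` by `e5`; `n² K T = (n M)² - n² n' K'² = (φ X' K - X K')² - (X² + w2 D K²) K'² = K (φ² X'² K - 2 φ X X' K' - w2 D K K'²)`; cancel `K = 25 k ≠ 0` (`OO` is a domain). -/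
def UTR_stmt : Prop := ∀ p : Pt, IsPt2 p →
  p.n * p.M + ph * star p.n * star p.M = -(2 * p.X * star (25 * p.k)) ∧
  p.M * star p.M = -(ph * star p.n * (25 * p.k) ^ 2 + star (ph * star p.n * (25 * p.k) ^ 2)) ∧
  ∃ T : OO, 25 * p.k * T = p.M ^ 2 - star p.n * star (25 * p.k) ^ 2 ∧
    p.n ^ 2 * T = (25 * p.k) * (ph ^ 2 * star p.X ^ 2 - w2 * (p.D : OO) * star (25 * p.k) ^ 2) - 2 * ph * p.X * star p.X * star (25 * p.k)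

/-- **UUV** (short to medium, PURE; from UTR, WEU). The coordinates of `u`. `V = ph T'`: the conjugate of UTR (3) times `φ` (`φ φ'² = - φ' = φ⁻¹`, `φ w2' = φ⁻¹ w2`) is the formula for `V n'²`. Let `A = (X² - w2 D K²) X' - 2 φ⁻¹ w2 D X K K'`, `B = V n'² = φ⁻¹ K' (X² - w2 D K²) + 2 X X' K`. Identity (`ring` after `φ² = φ + 1`; it is `norm (θ² σθ) = (norm θ)² norm σθ`): `A² + w2 D B² = (X² + w2 D K²)² (X'² + w2' D K'²) = (n² n')² (n'² n) = n⁵ n'⁴`.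
So `A² = (n'²)² (n⁵ - w2 D V²)`, `(n'²)² ∣ A²`, so `n'² ∣ A` (`OO` is a PID, so a UFD, `pow_dvd_pow_iff` in a normalized gcd monoid or `IsIntegrallyClosed`; `UniqueFactorizationMonoid.toGCDMonoid`..), `A = U n'²`; cancel `n'⁴ ≠ 0`: `U² + w2 D V² = n⁵`. -/
def UUV_stmt : Prop := ∀ p : Pt, IsPt2 p → ∃ U V : OO,
  U * star p.n ^ 2 = (p.X ^ 2 - w2 * (p.D : OO) * (25 * p.k) ^ 2) * star p.X -
    2 * (ph - 1) * w2 * (p.D : OO) * p.X * (25 * p.k) * star (25 * p.k) ∧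
  V * star p.n ^ 2 = (ph - 1) * star (25 * p.k) * (p.X ^ 2 - w2 * (p.D : OO) * (25 * p.k) ^ 2) + 2 * p.X * star p.X * (25 * p.k) ∧
  U ^ 2 + w2 * (p.D : OO) * V ^ 2 = p.n ^ 5

/-- **UUE** (medium; from UUV). The facts about `u` (everything later uses only these). `θ = X + K f w`, `θ² = (X² + K² f² w²) + 2 X K f w`, `σθ = X' + K' f φ⁻¹ w` (`σw = ι(ph - 1) w` from `C.σw`, `ph (ph - 1) = 1`), `f² w² = - w2 D` (in `ι`), so `θ² σθ = ι A + ι B f w = (ι U + ι V f w) ι(n')²` (UUV): so the `dif` in `uu` is the positive case and `uu * ι(n')² = θ² σθ`, cancel `ι(n')² ≠ 0` (`ι` is injective by `C.ind`, `n' ≠ 0` as `n ≡ 1 mod 25`): `u = ι U + ι V f w`, `τu = ι U - ι V f w` (`τw = -w`: `σσw = ι((ph-1) (ph-1)') w`..), `u τu = ι (U² + w2 D V²)`.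
`θ τθ = ι (X² + w2 D K²) = ι (n² n')`. `β = θ² σθ n'³ = u n'⁵`. `u² σ³u · n'⁴ n² = θ⁴ (σθ)² (σ³θ)² θ = θ⁵ (σ(θ τθ))² = θ⁵ (n'² n)²`, cancel. `θ ≠ 0` as `θ τθ ≠ 0`. `σ⁴ = 1`: on `ι OO` and on `w`, then `10 σ⁴x = 10 x` by `C.co`. (`TRI_pt` in `helper60/RF/TRI.lean` and `YDV_ssw`, `YDV_ww` have many of these facts.) -/
def UUE_stmt : Prop := ∀ (D₀ : ℤ) (F : Type) [Field F] [NumberField F] (C : Ctx D₀ F) (p : Pt) (f : ℕ), IsPt2 p →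
  p.D = D₀ * (f : ℤ) ^ 2 →
  uu C f p * C.ι (star p.n) ^ 2 = th C f p ^ 2 * C.σ (th C f p) ∧
  (∃ U V : OO, uu C f p = C.ι U + C.ι V * (f : 𝓞 F) * C.w ∧ C.σ (C.σ (uu C f p)) = C.ι U - C.ι V * (f : 𝓞 F) * C.w) ∧
  uu C f p * C.σ (C.σ (uu C f p)) = C.ι p.n ^ 5 ∧
  be C f p = uu C f p * C.ι (star p.n) ^ 5 ∧
  th C f p ^ 5 = uu C f p ^ 2 * C.σ (C.σ (C.σ (uu C f p))) ∧
  th C f p * C.σ (C.σ (th C f p)) = C.ι (p.n ^ 2 * star p.n) ∧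
  th C f p + C.σ (C.σ (th C f p)) = C.ι (2 * p.X) ∧
  th C f p - C.σ (C.σ (th C f p)) = C.ι (2 * (25 * p.k)) * (f : 𝓞 F) * C.w ∧
  C.σ (C.σ C.w) = -C.w ∧ C.σ C.w = C.ι (ph - 1) * C.w ∧ C.w ≠ 0 ∧ (f : 𝓞 F) ≠ 0 ∧
  th C f p ≠ 0 ∧ uu C f p ≠ 0 ∧ C.ι p.n ≠ 0 ∧ C.ι (star p.n) ≠ 0 ∧ C.ι (2 * (25 * p.k)) ≠ 0 ∧
  (∀ x : 𝓞 F, C.σ (C.σ (C.σ (C.σ x))) = x) ∧ (∀ x y : OO, C.ι x = C.ι y → x = y)

/-- **UPO** (short, PURE). `n` is totally positive: exactly `POS` (`helper60/RF/POSb.lean`), which uses only `e1`, `k ≠ 0`, `D > 0`. -/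
def UPO_stmt : Prop := ∀ p : Pt, IsPt2 p → 0 < va p.n ∧ 0 < vb p.n ∧ 0 < p.n.norm ∧ (p.n.norm : ℝ) = va p.n * vb p.n

/-- **UOC** (short to medium, PURE; from UTR, YPL). The bad primes: `l ∣ f`, `l ∣ norm n` gives `l ∣ n` or `l ∣ norm k`. Proof. `l ≠ 2, 5` (`D = D₀ f² ≡ 17 mod 20`), `(l² : OO) ∣ D`. Suppose `l ∤ n`. `l ∣ n n'`, a prime element `π ∣ l` divides `n n'`; replacing `π` by `π'` we may assume `π ∣ n`; `π ∤ n'` (otherwise `π ∣ n - n' = n.im √5`, `π ∤ √5`, so `l ∣ n.im` by YPL, `π ∣ n.re`, `l ∣ n.re`, `l ∣ n`).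
`e1`: `π ∣ X²`, `π ∣ X`. UTR (1): `π ∣ φ n' M'`, so `π ∣ M'`. UTR (2): `π ∣ φ n' K² + φ' n K'²`, so `π ∣ n' K²`, `π ∣ K = 25 k`, `π ∣ k`; so `π ∣ norm k` (an integer, `(norm k : OO) = k k'`), `l ∣ norm k`. (You may avoid prime elements: work with a prime ideal `𝔭` of `OO` containing `l` and `n`.) -/
def UOC_stmt : Prop := ∀ p : Pt, IsPt2 p → ∀ (D₀ : ℤ) (f l : ℕ), p.D = D₀ * (f : ℤ) ^ 2 → l.Prime → l ∣ f → (l : ℤ) ∣ p.n.norm →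
  (l : OO) ∣ p.n ∨ (l : ℤ) ∣ p.k.norm

/-! ## 2. Valuations -/

/-- **UPI** (short to medium, PURE; from WEU, VVM). The prime element of `OO` below `P`. `𝔭 = P.comap ι` is a prime ideal, not `⊥` (a nonzero `x ∈ P` has norm `0 ≠ N(x) ∈ ℤ ∩ P`, `Ideal.absNorm_mem` for instance), so `𝔭 = (π)` (PID), `π` prime. `x = π^m y`, `π ∤ y`, so `y ∉ 𝔭`, `ι y ∉ P`, `vv P (ι y) = 0`. `5 ∉ P` etc. are for the user. -/
def UPI_stmt : Prop := ∀ (D₀ : ℤ) (F : Type) [Field F] [NumberField F] (C : Ctx D₀ F) (P : Ideal (𝓞 F)), P.IsPrime → P ≠ ⊥ →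
  ∃ π : OO, Prime π ∧ 1 ≤ vv P (C.ι π) ∧ (∀ x : OO, C.ι x ∈ P ↔ π ∣ x) ∧
    ∀ (x : OO) (m : ℕ), π ^ m ∣ x → ¬ π ^ (m + 1) ∣ x → vv P (C.ι x) = m * vv P (C.ι π)

/-- **UVR** (short to medium; from UUE, VVM, TVA). The relations. `u τu = ι n⁵` and its image under `σ` (`= ι n'⁵`); `θ⁵ = u² σ³u` and its images under `σ, σ², σ³` (`σ⁴ = 1`); `θ + τθ = ι(2X)` and `θ - τθ = ι(2K) f w` and their images under `σ` (`σ(fw) = ι(ph - 1) f w`, `ι(ph - 1)` is a unit), TVA (2). -/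
def UVR_stmt : Prop := ∀ (D₀ : ℤ) (F : Type) [Field F] [NumberField F] (C : Ctx D₀ F) (p : Pt) (f : ℕ), IsPt2 p →
  p.D = D₀ * (f : ℤ) ^ 2 → ∀ P : Ideal (𝓞 F), P.IsPrime → P ≠ ⊥ → ∀ (c0 c1 c2 c3 x0 x1 x2 x3 y0 y1 : ℕ),
  c2 = vv P (uu C f p) → c3 = vv P (C.σ (uu C f p)) → c0 = vv P (C.σ (C.σ (uu C f p))) → c1 = vv P (C.σ (C.σ (C.σ (uu C f p)))) →
  x0 = vv P (th C f p) → x1 = vv P (C.σ (th C f p)) →
  x2 = vv P (C.σ (C.σ (th C f p))) → x3 = vv P (C.σ (C.σ (C.σ (th C f p)))) → y0 = vv P (C.ι p.n) → y1 = vv P (C.ι (star p.n)) →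
  c0 + c2 = 5 * y0 ∧ c1 + c3 = 5 * y1 ∧ 5 * x0 = 2 * c2 + c1 ∧ 5 * x1 = 2 * c3 + c2 ∧ 5 * x2 = 2 * c0 + c3 ∧ 5 * x3 = 2 * c1 + c0 ∧
  min x0 x2 ≤ vv P (C.ι (2 * (25 * p.k))) + vv P (f : 𝓞 F) + vv P C.w ∧
  min x1 x3 ≤ vv P (C.ι (2 * (25 * star p.k))) + vv P (f : 𝓞 F) + vv P C.w ∧
  (p.X ≠ 0 → min x0 x2 ≤ vv P (C.ι (2 * p.X)) ∧ min x1 x3 ≤ vv P (C.ι (2 * star p.X)))

/-- **UMF** (short to medium; from UVR, UUE, VVM). `P` over `l ∣ f`: `l ≠ 2, 5` (`D = D₀ f² ≡ 17 mod 20`), so `2, 25 ∉ P`; `k, k'` are coprime, so one of `ι k, ι k'` is not in `P`. `w² = - ι(w2) D₀`, `w2` divides `5` (`w2 w2' = 5`) so is not in `P`; `D₀` squarefree: `D₀ = l D₁` with `l ∤ D₁` or `l ∤ D₀`, so `vv P D₀ ≤ vv P l ≤ vv P f = G`, `2 vv P w ≤ G`. If `ι k ∉ P`: `min x0 x2 ≤ G + vv P w`, `2 c2 ≤ 5 x0`, `2 c0 ≤ 5 x2`: `4 min c0 c2 ≤ 15 G`.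 If `ι k' ∉ P`: `min x1 x3 ≤ G + vv P w`, `c2 ≤ 5 x1`, `c0 ≤ 5 x3`: `2 min c0 c2 ≤ 15 G`. -/
def UMF_stmt : Prop := ∀ (D₀ : ℤ) (F : Type) [Field F] [NumberField F] (C : Ctx D₀ F) (p : Pt) (f : ℕ), Squarefree D₀ → IsPt2 p →
  p.D = D₀ * (f : ℤ) ^ 2 → ∀ P : Ideal (𝓞 F), P.IsPrime → P ≠ ⊥ → (f : 𝓞 F) ∈ P → 1 ≤ vv P (f : 𝓞 F) ∧
  2 * min (vv P (C.σ (C.σ (uu C f p)))) (vv P (uu C f p)) ≤ 15 * vv P (f : 𝓞 F)

/-- **ULN** (medium; from UVR, UUE, UPI, VVM, YVM). `P ∌ f`. Let `π` be the prime of UPI. If `y0 = 0`: `c0 = c2 = 0`. Let `y0 > 0`, so `π ∣ n`; `2, 5 ∉ P` (`n2`, `n ≡ 1 mod 25`), and `2, 5 ∉ (π)`. `k, k'` coprime: `π ∤ k` or `π ∤ k'`.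
CASE 1: `π ∣ n'` (`y1 > 0`). Then `π ∤ D₀`, that is `π ∤ D`: otherwise `π ∣ D₀` (`π ∤ f`), `π² ∤ D` (`D₀` squarefree and `π` divides a prime number `l` exactly once, `l ≠ 5`: `π² ∣ l m`, `l ∤ m`; use `YPL` or norms), and if `π ∤ k`: `X² = n² n' - w2 D K²` is divisible by `π` and not by `π²`, impossible (`π ∣ X² ⇒ π² ∣ X²`); if `π ∤ k'`: the same with the conjugate equation `X'² = n'² n - w2' D K'²`.
If `π ∤ k`: `π ∤ w2 D K²` so `π ∤ X`, `vv P (ι(2X)) = 0`, so `x0 = 0` or `x2 = 0`: `c2 = 0` or `c0 = 0`. If `π ∤ k'`: `π ∤ X'`, `x1 = 0` or `x3 = 0`: `c2 = 0` or `c0 = 0`. So `min c0 c2 = 0` and `c2 = 0` or `c2 = 5 y0`.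
CASE 2: `π ∤ n'`, `y1 = 0`, `c1 = c3 = 0`: `5 x0 = 2 c2`, so `5 ∣ c2`; `5 x1 = c2`, `5 x2 = 2 c0`, `5 x3 = c0`. If `π ∤ k`: `2 min c0 c2 ≤ 5 vv P w`; if `π ∤ k'`: `min c0 c2 ≤ 5 vv P w`. If `C.w ∉ P`: `min c0 c2 = 0`. If `C.w ∈ P`: `τP = P` because `10 (x - τx) = 2 ι b w ∈ P` and `10 ∉ P`, so `vv P (τx) = vv P x` for all `x`
(`Ideal.comap`/`map` along `C.σ`, see `TYP_vv` in `helper85/RF/TYP.lean`), so `c0 = c2`, `2 c0 = 5 y0 ≤ 10 vv P w`, and `2 vv P w = vv P D₀` (`w² = - w2 D₀`, `w2 ∉ P`). -/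
def ULN_stmt : Prop := ∀ (D₀ : ℤ) (F : Type) [Field F] [NumberField F] (C : Ctx D₀ F) (p : Pt) (f : ℕ), Squarefree D₀ → IsPt2 p →
  p.D = D₀ * (f : ℤ) ^ 2 → ∀ P : Ideal (𝓞 F), P.IsPrime → P ≠ ⊥ → (f : 𝓞 F) ∉ P → 5 ∣ vv P (uu C f p) ∧
  (min (vv P (C.σ (C.σ (uu C f p)))) (vv P (uu C f p)) = 0 ∨
    ((5 : 𝓞 F) ∉ P ∧ vv P (C.σ (C.σ (uu C f p))) = vv P (uu C f p) ∧ vv P (C.ι p.n) ≤ vv P (D₀ : 𝓞 F)))

/-- **UYE** (short; from UVR, VVM). What the type says at `P ∋ f`: `c0(p) = A`, at `τP` (it contains `f`, and `vv (τP) x = vv P (τx)`, `vv (τP) f = vv P f`; see `TYP_vv`) the value is `c2`. (1) if both `A`'s are `< 14 G` they are equal (`SameV`), so `5 y0 = c0 + c2` is equal; otherwise both `5 y0 ≥ 14 G`. (2) `5 vv z = c0(p) + c2(q)`; if `A_p = A_q` then it is `5 y0(q)`, otherwise `A_p ≥ 14 G`. -/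
def UYE_stmt : Prop := ∀ (D₀ : ℤ) (F : Type) [Field F] [NumberField F] (C : Ctx D₀ F) (p q : Pt) (f : ℕ), IsPt2 p → IsPt2 q →
  p.D = D₀ * (f : ℤ) ^ 2 → q.D = D₀ * (f : ℤ) ^ 2 → SameV C f p q → ∀ P : Ideal (𝓞 F), P.IsPrime → P ≠ ⊥ → (f : 𝓞 F) ∈ P →
  (vv P (C.ι p.n) = vv P (C.ι q.n) ∨ (14 * vv P (f : 𝓞 F) ≤ 5 * vv P (C.ι p.n) ∧ 14 * vv P (f : 𝓞 F) ≤ 5 * vv P (C.ι q.n))) ∧
  ∀ z : 𝓞 F, z ^ 5 = C.σ (C.σ (uu C f p)) * uu C f q → vv P z = vv P (C.ι q.n) ∨ 14 * vv P (f : 𝓞 F) ≤ 5 * vv P z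

/-! ## 3. Radicals and types -/

/-- **URD** (short; from UUE, ULN, UVR, VVM, VV5). Two points of the same type give a radical. `b = β_p β_q⁴ ≠ 0`. `s b = b² γ⁵`: as `RDA_g` (`helper60/RF/RDA.lean`): `σβ = β² (ν / (θ ν'))⁵` follows from `θ τθ = ν² ν'`. Ideal: VV5 (2): `vv P β = c2 + 5 y1`; if `f ∉ P`: `5 ∣ c2` (ULN); if `f ∈ P`: `c2 = 5 y0 - c0` (UVR) and `5 ∣ c0(p) - c0(q)` (`SameV`), so `5 ∣ c2(p) + 4 c2(q)`. `b ≡ 1 mod 25`: `θ ≡ ι X ≡ 1`, `n' ≡ 1`. -/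
def URD_stmt : Prop := ∀ (D₀ : ℤ) (F : Type) [Field F] [NumberField F] (C : Ctx D₀ F) (p q : Pt) (f : ℕ), Squarefree D₀ →
  IsPt2 p → IsPt2 q → p.D = D₀ * (f : ℤ) ^ 2 → q.D = D₀ * (f : ℤ) ^ 2 → SameV C f p q → Rad C.s (be C f p * be C f q ^ 4)

/-- **URG** (short; from UUE, ULN, UVR, VVM, VV5; the prover of URD may take it). Good points (`l ∤ norm n` for all `l ∣ f`). As URD with `b = β_p`: if `f ∈ P` then a prime `l ∣ f` is in `P`, `l ∤ norm n`, so `norm n ∉ P`, `ι n ∉ P` (`(norm n : OO) = n n'`), `y0 = 0`, `c2 = 0`. Also: two good points have the same type (`c0 = 0`). -/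
def URG_stmt : Prop := ∀ (D₀ : ℤ) (F : Type) [Field F] [NumberField F] (C : Ctx D₀ F) (f : ℕ), Squarefree D₀ →
  ∀ p : Pt, IsPt2 p → p.D = D₀ * (f : ℤ) ^ 2 → (∀ l : ℕ, l.Prime → l ∣ f → ¬ (l : ℤ) ∣ p.n.norm) → Rad C.s (be C f p) ∧
  ∀ q : Pt, IsPt2 q → q.D = D₀ * (f : ℤ) ^ 2 → (∀ l : ℕ, l.Prime → l ∣ f → ¬ (l : ℤ) ∣ q.n.norm) → SameV C f p q

/-- **UTY** (short to medium, PURE). Number of types: as `TTY` (`helper29/RF/TTY.lean`): the type of `p` is the function on `QP F f` with the values `(A mod 5, min A (14 G))`, `A = vv P (τu)`, in `Fin 5 × Fin (14 G + 1)`. -/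
def UTY_stmt : Prop := ∀ (D₀ : ℤ) (F : Type) [Field F] [NumberField F] (C : Ctx D₀ F) (f : ℕ), 0 < f →
  ∀ (B : ℝ), 0 ≤ B → ∀ S : Finset Pt, (∀ T ⊆ S, (∀ p ∈ T, ∀ q ∈ T, SameV C f p q) → (T.card : ℝ) ≤ B) →
  (S.card : ℝ) ≤ ((∏ P ∈ QP F f, (5 * (14 * vv P (f : 𝓞 F) + 1)) : ℕ) : ℝ) * B

/-! ## 4. Two and three points -/

/-- **UDE** (short to medium; from UUE). The element `z`. `β_p = β_q γ⁵` and `β = u n'⁵`: `u_p = u_q γ₁⁵`, `γ₁ = γ n_q' / n_p' ∈ F`, `γ₁ ≠ 0`. `z = ν_p / γ₁`: `z⁵ = ν_p⁵ u_q / u_p = τu_p u_q` (`u_p τu_p = ν_p⁵`), integral, so `z ∈ 𝓞 F`. `(z τz)⁵ = (u_p τu_p)(u_q τu_q) = (ν_p ν_q)⁵`, `C.z5`. -/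
def UDE_stmt : Prop := ∀ (D₀ : ℤ) (F : Type) [Field F] [NumberField F] (C : Ctx D₀ F) (p q : Pt) (f : ℕ),
  IsPt2 p → IsPt2 q → p.D = D₀ * (f : ℤ) ^ 2 → q.D = D₀ * (f : ℤ) ^ 2 → Eqv C f p q →
  ∃ z : 𝓞 F, z ^ 5 = C.σ (C.σ (uu C f p)) * uu C f q ∧ z * C.σ (C.σ z) = C.ι (p.n * q.n)

/-- **UTI** (short; from UUE). Three points in coordinates. Fifth powers: `(τz₁ z₂)⁵ = u_o τu_p τu_o u_q = ν_o⁵ z⁵` (`σ⁴ = 1`), `C.z5`: `τz₁ z₂ = ι n_o z`. `10 τz₁ = ι a₁ - ι b₁ w`; the coefficient of `w` in `100 τz₁ z₂ = 10 ι n_o (10 z)` (`C.ind`). -/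
def UTI_stmt : Prop := ∀ (D₀ : ℤ) (F : Type) [Field F] [NumberField F] (C : Ctx D₀ F) (o p q : Pt) (f : ℕ),
  IsPt2 o → IsPt2 p → IsPt2 q → o.D = D₀ * (f : ℤ) ^ 2 → p.D = D₀ * (f : ℤ) ^ 2 → q.D = D₀ * (f : ℤ) ^ 2 →
  ∀ z₁ z₂ z : 𝓞 F, z₁ ^ 5 = C.σ (C.σ (uu C f o)) * uu C f p → z₂ ^ 5 = C.σ (C.σ (uu C f o)) * uu C f q →
  z ^ 5 = C.σ (C.σ (uu C f p)) * uu C f q → C.σ (C.σ z₁) * z₂ = C.ι o.n * z ∧
  ∀ a₁ b₁ a₂ b₂ a b : OO, 10 * z₁ = C.ι a₁ + C.ι b₁ * C.w → 10 * z₂ = C.ι a₂ + C.ι b₂ * C.w → 10 * z = C.ι a + C.ι b * C.w →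
  a₁ * b₂ - a₂ * b₁ = 10 * o.n * b

/-- **UCO** (short; from UUE). Coordinates. `(10 z)⁵ = ι(..) + ι(b HH) w`, `W = - w2 D₀`, and `10⁵ τu_p u_q = 10⁵ (U_p - V_p f w)(U_q + V_q f w)` has the coefficient `10⁵ f (U_p V_q - V_p U_q)` of `w` (`C.ind`): `f ∣ b HH`. `(10 z)(10 τz) = ι (a² - b² W) = 100 ι(n_p n_q)`. (The second claim for every `z` with `z⁵ = τu_p u_q`: `(z τz)⁵ = (ν_p ν_q)⁵`, `C.z5`.) -/
def UCO_stmt : Prop := ∀ (D₀ : ℤ) (F : Type) [Field F] [NumberField F] (C : Ctx D₀ F) (p q : Pt) (f : ℕ),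
  IsPt2 p → IsPt2 q → p.D = D₀ * (f : ℤ) ^ 2 → q.D = D₀ * (f : ℤ) ^ 2 →
  ∀ z : 𝓞 F, z ^ 5 = C.σ (C.σ (uu C f p)) * uu C f q → ∀ a b : OO, 10 * z = C.ι a + C.ι b * C.w →
  (f : OO) ∣ b * HH (-(w2 * (D₀ : OO))) a b ∧ a ^ 2 - b ^ 2 * (-(w2 * (D₀ : OO))) = 100 * (p.n * q.n)

/-- **UFX** (short to medium). The fixed ring. `10 x = ι a + ι b w` (`C.co`), `τx = x` gives `2 ι b w = 0`, `b = 0`, `10 x = ι a`; `x²`, `x³` are also fixed: `10 x³ = ι a₃`, so `a³ = 100 a₃` (`ι` injective). In `OO`: `100 ∣ a³` gives `2 ∣ a` (`4 ∣ a³`; `2` is prime: `OO/2` is a field) and `5 ∣ a` (`25 ∣ a³`: `625 ∣ norm(a)³`, so `25 ∣ norm a = x² + x y - y²`, `5 ∣ 2x + y`, `25 ∣ 5 y²`, `5 ∣ y`, `5 ∣ x`), so `10 ∣ a`, `a = 10 c`, `x = ι c`. (`τw = -w`: `C.σw` twice; `w ≠ 0`: `C.ind 0 1`.) -/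
def UFX_stmt : Prop := ∀ (D₀ : ℤ) (F : Type) [Field F] [NumberField F] (C : Ctx D₀ F), D₀ ≠ 0 → ∀ x : 𝓞 F,
  C.σ (C.σ x) = x → ∃ c : OO, x = C.ι c

/-- **UZA** (short to medium; from UUE, UFX). If `z` is in `ι OO`. `Z = τu_p u_q = z⁵ = τZ`. `Θ = τθ_p θ_q`: `Θ⁵ = (τu_p)² (σu_p) u_q² σ³u_q = Z² σ³Z` (`σ²σ³ = σ`), and `τ(Z² σ³Z) = Z² σ³Z`, so `Θ⁵ = (τΘ)⁵`, `Θ = τΘ` (`C.z5`). `Θ = (X_p - K_p f w)(X_q + K_q f w)`: the coefficient of `w` in `Θ - τΘ = 2 (X_p K_q - K_p X_q) f w` (`C.ind`): `X_p K_q = X_q K_p`, so `K_q θ_p = K_p θ_q`. `z = ι z₀` (UFX), `z τz = z² = ι(n_p n_q)`. -/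
def UZA_stmt : Prop := ∀ (D₀ : ℤ) (F : Type) [Field F] [NumberField F] (C : Ctx D₀ F) (p q : Pt) (f : ℕ),
  IsPt2 p → IsPt2 q → p.D = D₀ * (f : ℤ) ^ 2 → q.D = D₀ * (f : ℤ) ^ 2 →
  ∀ z : 𝓞 F, z ^ 5 = C.σ (C.σ (uu C f p)) * uu C f q → C.σ (C.σ z) = z →
  p.X * (25 * q.k) = q.X * (25 * p.k) ∧ C.ι (25 * q.k) * th C f p = C.ι (25 * p.k) * th C f q ∧ ∃ z₀ : OO, p.n * q.n = z₀ ^ 2

/-- **UZB** (medium; from UVR, UMF, ULN, UPI, UUE, VVM, YVM). Equal valuations. Write `Δ` for the difference (`p` minus `q`) in `ℤ`. Apply `σ^j` to `ι K_q θ_p = ι K_p θ_q`: `Δ x0 = Δ vv(ι k) = Δ x2`, `Δ x1 = Δ vv(ι k') = Δ x3` (all `≠ 0`). UVR: `2 Δc2 + Δc1 = 5 Δx0 = 2 Δc0 + Δc3`, `2 Δc3 + Δc2 = 5 Δx1 = 2 Δc1 + Δc0`, so `Δc0 = Δc2` and `Δc1 = Δc3` at every `P`.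
CLAIM `Δc2 = 0` at every `P`. (i) `f ∈ P`: if `c0(p) < 14 G` or `c0(q) < 14 G` then `c0(p) = c0(q)` (`SameV`); if `c2(p) < 14 G` or `c2(q) < 14 G` the same at `τP`; otherwise `min c0 c2 ≥ 14 G` for `p`, against UMF. (ii) `f ∉ P`: ULN for `p` and `q`. If `min c0 c2 = 0` for both: `Δc0 = Δc2` gives `Δ = 0`. If the second alternative holds for both: `c0 = c2`, `2 c0 = 5 y0`; with `π` of UPI, `e = vv P (ι π)`: `vv P D₀ ≤ e` (`D₀` squarefree, `5 ∉ P`: `π²` does not divide `D₀`), so `y0 ∈ {0, e}` for both, and `y0(p) + y0(q) = 2 vv P (ι z₀)` is an even multiple of `e`: `y0(p) = y0(q)`.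
Mixed case: `min c0 c2 = 0` for `p`, and `c0 = c2` for `q`: `Δc0 = Δc2` gives `c0(p) = c2(p) = 0`, `y0(p) = 0`, and again the parity gives `y0(q) = 0`.
Then `vv P (σu) = vv (σ⁻¹P) u` (see `TYP_vv`; or apply the claim to the prime `P.comap C.σ`) so `Δc3 = Δc1 = 0`, `Δx0 = 0`, `vv P (ι k_p) = vv P (ι k_q)`. -/
def UZB_stmt : Prop := ∀ (D₀ : ℤ) (F : Type) [Field F] [NumberField F] (C : Ctx D₀ F) (p q : Pt) (f : ℕ), Squarefree D₀ →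
  IsPt2 p → IsPt2 q → p.D = D₀ * (f : ℤ) ^ 2 → q.D = D₀ * (f : ℤ) ^ 2 → SameV C f p q →
  C.ι (25 * q.k) * th C f p = C.ι (25 * p.k) * th C f q → (∃ z₀ : OO, p.n * q.n = z₀ ^ 2) →
  ∀ P : Ideal (𝓞 F), P.IsPrime → P ≠ ⊥ → vv P (C.ι p.k) = vv P (C.ι q.k)

/-- **UZC** (short to medium; from UZA, UZB, UFX, VV5, UUE). `z` is not in `ι OO` for different points of the same type. Suppose `τz = z`. UZA, UZB; VV5 (1): `ι k_p ∣ ι k_q` and conversely in `𝓞 F`; the quotient `y` (`ι k_q = ι k_p y`) is fixed by `τ` (`ι k_p ≠ 0`), so `y = ι c` (UFX), `k_p ∣ k_q` in `OO`, and the same for `q, p`. So `k_p = k_q ≠ 0`, `X_p = X_q` (cancel; `OO` is a domain or use `TRA_cancel`), `n_p² n_p' = n_q² n_q'` (`e1`), so `n_p = n_q` and `M_p = M_q` (`e2`), as in `helper60/RF/NZB.lean`; `D` equal. So `p = q`. -/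
def UZC_stmt : Prop := ∀ (D₀ : ℤ) (F : Type) [Field F] [NumberField F] (C : Ctx D₀ F) (p q : Pt) (f : ℕ), Squarefree D₀ →
  IsPt2 p → IsPt2 q → p.D = D₀ * (f : ℤ) ^ 2 → q.D = D₀ * (f : ℤ) ^ 2 → SameV C f p q →
  (p.k ∣ q.k → q.k ∣ p.k → p.k = q.k) → p ≠ q →
  ∀ z : 𝓞 F, z ^ 5 = C.σ (C.σ (uu C f p)) * uu C f q → C.σ (C.σ z) ≠ z

/-- **UTV** (medium; from UUE, UPO). As `TRV` (`helper60/RF/TRV.lean`). `β = γ⁵`, `β = u n'⁵`: `u = γ₁⁵`, `z = ν / γ₁`, `z⁵ = ν⁵ / u = τu` integral, `z ∈ 𝓞 F`, `(z τz)⁵ = ν⁵`, `z τz = ι n` (`C.z5`). `τz ≠ z`: otherwise `τu = u`, so `θ⁵ = u² σ³u` is equal to `(τθ)⁵`, `θ = τθ`, `ι(2K) f w = 0`, impossible (UUE). `10 z = ι a + ι b w` (`C.co`), `b ≠ 0`, `a² + b² w2 D₀ = 100 n`. `va, vb`: `100 va n ≥ va(b)² va(w2) D₀`, the same for `vb`; product: `10⁴ norm n ≥ norm(b)² 5 D₀² ≥ 5 D₀²`, and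 `norm n ≤ D = D₀ f²`. -/
def UTV_stmt : Prop := ∀ (D₀ : ℤ) (F : Type) [Field F] [NumberField F] (C : Ctx D₀ F) (p : Pt) (f : ℕ), 0 < D₀ → IsPt2 p →
  p.D = D₀ * (f : ℤ) ^ 2 → |p.n.norm| ≤ p.D → (∃ γ : F, (be C f p : F) = γ ^ 5) → D₀ ≤ 2000 * (f : ℤ) ^ 2

/-! ## 5. Labels -/

/-- **YL0** (medium, PURE). The case `c = 0` of `YLP` (`helper59/RF/YLP.lean`). If `J = 0` trivial. Let `J ≥ 1`, `x = (a, b)` with the two conditions; `r5, 2, 5` are units at `π`. `HH = H₁ H₂`, `H₁ = r5 a² + (r5 - 2) b² W`, `H₂ = r5 a² + (r5 + 2) b² W`, `H₂ - H₁ = 4 b² W`, `(r5 - 2)(r5 + 2) = 1`.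
CASE A: `π ∣ b`: then `π ∤ a` (otherwise `π ∣ a² - b² W`), `π ∤ HH`, so `π^J ∣ b` (prime: `Prime.pow_dvd_of_dvd_mul_right`). CASE B: `π ∤ b`, `π^J ∣ H₁ H₂`. If `π ∣ W`: `π ∤ a`, `H₁, H₂ ≡ r5 a²`, contradiction. So `π ∤ W`, `π` does not divide both, `π^J ∣ H₁` (B1) or `π^J ∣ H₂` (B2); `π ∤ a` (otherwise `π ∤ H₁, H₂`).
Two elements `(a, b)`, `(a₁, b₁)` of B1: `r5 (a b₁ - a₁ b)(a b₁ + a₁ b) = b₁² H₁(a, b) - b² H₁(a₁, b₁)` is divisible by `π^J`, and `π` does not divide both factors (their sum is `2 a b₁`), so `π^J` divides one of them. REFERENCE `(a₀, b₀)` in B1 (if nonempty): sign `+` if `π ∣ a b₀ - a₀ b`, then `π^J ∣ a b₀ - a₀ b`, otherwise `π^J ∣ a b₀ + a₀ b`. Two elements of the same sign: `b₀ (a b₁ - a₁ b) = b₁ (a b₀ ∓ a₀ b) - b (a₁ b₀ ∓ a₀ b₁)` is divisible by `π^J`, `π ∤ b₀`. The same for B2. Labels A, B1+,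 B1-, B2+, B2-. -/
def YL0_stmt : Prop := ∀ (π W : OO) (J : ℕ), Prime π → ¬ π ∣ 2 → ¬ π ∣ r5 → ∃ lab : OO × OO → Fin 6, ∀ x y : OO × OO,
  π ^ J ∣ x.2 * HH W x.1 x.2 → ¬ π ∣ x.1 ^ 2 - x.2 ^ 2 * W →
  π ^ J ∣ y.2 * HH W y.1 y.2 → ¬ π ∣ y.1 ^ 2 - y.2 ^ 2 * W →
  lab x = lab y → π ^ J ∣ x.1 * y.2 - y.1 * x.2

/-- **ULQ** (medium; from UYE, UPI, UUE, VVM, VV5). The case of many factors `π ∣ n`: `π^t ∣ b`, `t = ⌈J/15⌉`. `π ∣ l`, `J = v_l f ≥ 1`. Suppose `π^t ∣ n_q`, `t = (J + 14) / 15`. CLAIM `ι π^t ∣ z`: VV5 (1): for `P ∌ ι π` nothing to show. For `P ∋ ι π`: the prime of UPI is associated to `π` (it divides `π`), `e = vv P (ι π) ≥ 1`, `vv P f = e J` (`f = l^J f₁`, `l ∤ f₁` so `f₁ ∉ P`, `l = π m`, `π ∤ m`: hypothesis `π² ∤ l`), `vv P (ι n_q) ≥ e t`, so by UYE `vv P z ≥ e t` or `5 vv P z ≥ 14 e J ≥ 5 e t` (`t ≤ J`).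 So `z = ι π^t z'`, `10 z' = ι a' + ι b' w` (`C.co`), `b = π^t b'` (`C.ind`). -/
def ULQ_stmt : Prop := ∀ (D₀ : ℤ) (F : Type) [Field F] [NumberField F] (C : Ctx D₀ F) (p q : Pt) (f : ℕ), IsPt2 p → IsPt2 q →
  p.D = D₀ * (f : ℤ) ^ 2 → q.D = D₀ * (f : ℤ) ^ 2 → SameV C f p q → ∀ (l : ℕ) (π : OO), l.Prime → l ∣ f → Prime π →
  π ∣ (l : OO) → ¬ π ^ 2 ∣ (l : OO) → (∀ m : ℤ, π ∣ (m : OO) → (l : ℤ) ∣ m) → π ^ ((f.factorization l + 14) / 15) ∣ q.n →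
  ∀ z : 𝓞 F, z ^ 5 = C.σ (C.σ (uu C f p)) * uu C f q → ∀ a b : OO, 10 * z = C.ι a + C.ι b * C.w →
  π ^ ((f.factorization l + 14) / 15) ∣ b

/-- **UNU** (short to medium; from UYE, UPI, VVM). The type determines small valuations of `n` at `π ∣ l ∣ f`. Let `c < t = (J + 14) / 15`, `π^c ∣ n_p`, `π^(c+1) ∤ n_p`. There is a prime `P ≠ ⊥` of `𝓞 F` with `ι π ∈ P` (`ι π` is not a unit: a maximal ideal containing it; if `ι π y = 1` then `τy = y`.. or: norms; or the nonzero prime `(π)` of `OO` and integrality `Ideal.exists_ideal_over_prime..`; simplest: `ι π ∣ ι l`, and if `ι π` is a unit then `ι π'` is a unit (apply `σ`), so `ι (π π')`, an integer `≠ ±1`, would be a unit of `𝓞 F`). UPI: `e = vv P (ι π)`, `vv P f = e J`, `vv P (ι n_p) = e c < e t`, `5 e c < 14 e J`, so UYE gives `vv P (ι n_q) = e c`, so `π^c ∣ n_q`,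 `π^(c+1) ∤ n_q` (let `m` be the exact exponent of `π` in `n_q ≠ 0`: `e m = e c`). -/
def UNU_stmt : Prop := ∀ (D₀ : ℤ) (F : Type) [Field F] [NumberField F] (C : Ctx D₀ F) (p q : Pt) (f : ℕ), IsPt2 p → IsPt2 q →
  p.D = D₀ * (f : ℤ) ^ 2 → q.D = D₀ * (f : ℤ) ^ 2 → SameV C f p q → ∀ (l : ℕ) (π : OO), l.Prime → l ∣ f → Prime π →
  π ∣ (l : OO) → ¬ π ^ 2 ∣ (l : OO) → (∀ m : ℤ, π ∣ (m : OO) → (l : ℤ) ∣ m) → ∀ c : ℕ, c < (f.factorization l + 14) / 15 →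
  π ^ c ∣ p.n → ¬ π ^ (c + 1) ∣ p.n → π ^ c ∣ q.n ∧ ¬ π ^ (c + 1) ∣ q.n

/-- **ULP** (medium; from ULQ, UNU, UTI, UCO, YL0, YLP, YVM, UDE-free). The label at one prime element `π ∣ l`, `l ∣ f`, `l ≠ 2, 5` (`D ≡ 17 mod 20`), so `π ∤ 2`, `π ∤ r5`. `J = f.factorization l`, `t = (J + 14)/15`, `c` = the exact exponent of `π` in `n_o ≠ 0`.
If `c ≥ t`: `π^t ∣ n_q` for all `q ∈ S` (otherwise its exponent is `c' < t` and UNU gives `c = c'`): ULQ, every labelling works. If `c < t`: the exponent is `c` for all `p ∈ S` (UNU). `(a_p, b_p)` = the coordinates of `z p` (`C.co`, choice); UCO for `(o, p)`: `π^J ∣ l^J ∣ f ∣ b HH` and `a² - b² W = 100 n_o n_p` has exponent exactly `2 c` (YVM (2)); `W = -(w2 D₀)`, `π² ∤ W` (`D₀` squarefree, `w2 ∣ 5`).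
`c = 0`: labels of YL0; equal labels: `π^J ∣ a_p b_q - a_q b_p = 10 n_o b` (UTI), so `π^J ∣ b`. `c ≥ 1`: labels of YLP: `π^(J - 13c) ∣ 10 n_o b`, so `π^(J - 14c) ∣ b` (YVM (1)), and `J - 14 c ≥ t` (`c < t` means `15 c < J`; `omega`). If `π ∤ n_o` then `c = 0`, the exponent is `J`. -/
def ULP_stmt : Prop := ∀ (D₀ : ℤ) (F : Type) [Field F] [NumberField F] (C : Ctx D₀ F) (f : ℕ), Squarefree D₀ → 0 < D₀ →
  ∀ S : Finset Pt, (∀ p ∈ S, IsPt2 p ∧ p.D = D₀ * (f : ℤ) ^ 2) → (∀ p ∈ S, ∀ q ∈ S, SameV C f p q) → ∀ o ∈ S, ∀ z : Pt → 𝓞 F,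
  (∀ p ∈ S, z p ^ 5 = C.σ (C.σ (uu C f o)) * uu C f p) →
  ∀ (l : ℕ) (π : OO), l.Prime → l ∣ f → Prime π → π ∣ (l : OO) → ¬ π ^ 2 ∣ (l : OO) → (∀ m : ℤ, π ∣ (m : OO) → (l : ℤ) ∣ m) →
  ∃ lab : Pt → Fin 6, ∀ p ∈ S, ∀ q ∈ S, lab p = lab q → ∀ y : 𝓞 F, y ^ 5 = C.σ (C.σ (uu C f p)) * uu C f q →
    ∀ a b : OO, 10 * y = C.ι a + C.ι b * C.w →
      π ^ ((f.factorization l + 14) / 15) ∣ b ∧ (¬ π ∣ o.n → π ^ (f.factorization l) ∣ b)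

/-- **ULO** (short to medium; from ULP, YPL): OUTPUT OF THE LABELS, for all primes `l ∣ f`. `S` of YPL has at most two elements; the label is the pair of the labels of ULP (`Fin 6 × Fin 6 ≃ Fin 36`, `finProdFinEquiv`; see `helper48/RF/YLG.lean`). Last claim of YPL with `m` the exponent. If `l ∤ norm n_o`: no `π` divides `n_o` (`π ∣ n_o` gives `π ∣ norm n_o`, an integer, so `l ∣ norm n_o`). -/
def ULO_stmt : Prop := ∀ (D₀ : ℤ) (F : Type) [Field F] [NumberField F] (C : Ctx D₀ F) (f : ℕ), Squarefree D₀ → 0 < D₀ →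
  ∀ S : Finset Pt, (∀ p ∈ S, IsPt2 p ∧ p.D = D₀ * (f : ℤ) ^ 2) → (∀ p ∈ S, ∀ q ∈ S, SameV C f p q) → ∀ o ∈ S, ∀ z : Pt → 𝓞 F,
  (∀ p ∈ S, z p ^ 5 = C.σ (C.σ (uu C f o)) * uu C f p) →
  ∀ l : ℕ, l.Prime → l ∣ f → ∃ lab : Pt → Fin 36, ∀ p ∈ S, ∀ q ∈ S, lab p = lab q →
    ∀ y : 𝓞 F, y ^ 5 = C.σ (C.σ (uu C f p)) * uu C f q → ∀ a b : OO, 10 * y = C.ι a + C.ι b * C.w →
      (l : OO) ^ (if (l : ℤ) ∣ o.n.norm then (f.factorization l + 14) / 15 else f.factorization l) ∣ b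

/-! ## 6. Counting -/

/-- **HA3** (short to medium, PURE). Elementary facts on `gUb`, `hU`, `fU`. The factorization of `gUb f p` at a prime `l`: `(v_l f + 14)/15` if `l ∣ f` and `l ∣ norm n`, otherwise `0` (`Nat.prod_pow_factorization_eq_self` or `Nat.factorization_prod_pow_eq_self`); it is `≥ 1` in the first case. So `l ∣ gUb f p ↔ l ∣ f ∧ l ∣ norm n`. With `g = gUb f p`, `v = v_l f ≥ 1`, `t = (v + 14)/15`: `t ≤ v`, `v - t ≤ 14 t`: compare the exponents (`Nat.factorization_le_iff_dvd`, `Nat.eq_of_factorization_eq`). -/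
def HA3_stmt : Prop := ∀ (f : ℕ) (p : Pt), 0 < f →
  gUb f p * hU f (gUb f p) ∣ f ∧ hU f (gUb f p) ∣ (gUb f p) ^ 14 ∧ fU f (gUb f p) * hU f (gUb f p) = f ∧ 0 < gUb f p ∧
  0 < hU f (gUb f p) ∧ hU f 1 = 1 ∧ fU f 1 = f ∧ (∀ l : ℕ, l.Prime → (l ∣ gUb f p ↔ l ∣ f ∧ (l : ℤ) ∣ p.n.norm))

/-- **MU3** (medium; from UPO, UDE, UTI, UCO, UZC, ULO, SPC, HA3, UUE; helper13). As `MU2` (`helper13/RF/MU2.lean`), without the division by `g`. -/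
def MU3_stmt : Prop := ∀ (D₀ : ℤ) (F : Type) [Field F] [NumberField F] (C : Ctx D₀ F) (f g : ℕ), Squarefree D₀ → 0 < D₀ →
  ∀ S : Finset Pt, (∀ p ∈ S, IsPt2 p ∧ p.D = D₀ * (f : ℤ) ^ 2 ∧ gUb f p = g ∧ |p.n.norm| ≤ p.D) →
  (∀ p ∈ S, ∀ q ∈ S, p.k ∣ q.k → q.k ∣ p.k → p.k = q.k) → (∀ p ∈ S, ∀ q ∈ S, SameV C f p q ∧ Eqv C f p q) →
  (S.card : ℝ) ≤ 1 + 36 ^ f.primeFactors.card * (1 + 180 * (hU f g : ℝ) ^ 2)

/-- **UCL** (short; from URD, UUE, REFL; helper13): as `TCL` (`helper13/RF/TCL.lean`) with `SameV`. -/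
def UCL_stmt : Prop := ∀ (D₀ : ℤ) (F : Type) [Field F] [NumberField F] (C : Ctx D₀ F) (f : ℕ), 1 < D₀ → Squarefree D₀ → D₀ ≠ 5 →
  (∃ r w : F, Mir D₀ F C.s r w) → ∀ (K : Type) [Field K] [NumberField K], Module.finrank ℚ K = 2 → (∃ x : K, x ^ 2 = D₀) →
  ∀ B : ℝ, 0 ≤ B → ∀ S : Finset Pt, (∀ p ∈ S, IsPt2 p ∧ p.D = D₀ * (f : ℤ) ^ 2) →
  (∀ p ∈ S, ∀ q ∈ S, SameV C f p q) → (∀ T ⊆ S, (∀ p ∈ T, ∀ q ∈ T, Eqv C f p q) → (T.card : ℝ) ≤ B) →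
  (S.card : ℝ) ≤ (Nat.card {c : ClassGroup (𝓞 K) // c ^ 5 = 1} : ℝ) * B

/-- **UCG** (short; from URG, REFL; helper13): as `CLG` (`helper13/RF/CLG.lean`) for good points. -/
def UCG_stmt : Prop := ∀ (D₀ : ℤ) (F : Type) [Field F] [NumberField F] (C : Ctx D₀ F) (f : ℕ), 1 < D₀ → Squarefree D₀ → D₀ ≠ 5 →
  (∃ r w : F, Mir D₀ F C.s r w) → ∀ (K : Type) [Field K] [NumberField K], Module.finrank ℚ K = 2 → (∃ x : K, x ^ 2 = D₀) →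
  ∀ B : ℝ, 0 ≤ B → ∀ S : Finset Pt, (∀ p ∈ S, IsPt2 p ∧ p.D = D₀ * (f : ℤ) ^ 2 ∧ (∀ l : ℕ, l.Prime → l ∣ f → ¬ (l : ℤ) ∣ p.n.norm) ∧
    ¬ ∃ γ : F, (be C f p : F) = γ ^ 5) →
  (∀ T ⊆ S, (∀ p ∈ T, ∀ q ∈ T, Eqv C f p q) → (T.card : ℝ) ≤ B) →
  (S.card : ℝ) ≤ ((Nat.card {c : ClassGroup (𝓞 K) // c ^ 5 = 1} : ℝ) - 1) * B

/-- **CN3** (medium; from MEX, CTX, UTY, TTP, UCL, MU3). The middle part of `BT_stmt`. `F` from MEX, `C` from CTX (as `helper39/RF/CNT.lean`; `D₀ ≠ 5` as `5 ∤ D₀`). If `S` is empty clear; otherwise `f > 0` (`D > 0`). UTY with the bound of UCL with `B = 1 + 36^ω(f) (1 + 180 h²)` of MU3, TTP with `g := f` (`Mir.fin`): `S.card ≤ 285^(4 ω(f)) τ(f)^4 h₅ (1 + 36^ω(f) (1 + 180 h²)) ≤ [182 · 36^ω(f) · 285^(4 ω(f)) τ(f)^4] h₅ (1 + h²)`, and the bracket is `≤ 182 τ(f)^(46)` (`36 ≤ 2^6`, `285 ≤ 2^9`, `2^ω(f)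 ≤ τ(f)`), which is `≤ C f^e` by the divisor bound (see `HWB` for the same estimate: search `theorem HWB` in Pool/Agent/*/RF/HWB.lean). -/
def CN3_stmt : Prop := ∀ e : ℝ, 0 < e → ∃ C : ℝ, ∀ (D₀ : ℤ) (f g : ℕ), 1 < D₀ → Squarefree D₀ → ¬ (5 : ℤ) ∣ D₀ →
    ∀ (K : Type) [Field K] [NumberField K], Module.finrank ℚ K = 2 → (∃ x : K, x ^ 2 = D₀) → ∀ S : Finset Pt,
    (∀ p ∈ S, IsPt2 p ∧ p.D = D₀ * (f : ℤ) ^ 2 ∧ gUb f p = g ∧ |p.n.norm| ≤ p.D) →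
    (∀ p ∈ S, ∀ q ∈ S, p.k ∣ q.k → q.k ∣ p.k → p.k = q.k) →
    (S.card : ℝ) ≤ C * (f : ℝ) ^ e *
      ((Nat.card {c : ClassGroup (𝓞 K) // c ^ 5 = 1} : ℝ) * (1 + (hU f g : ℝ) ^ 2))

/-- **CG3** (short to medium; from MEX, CTX, UTV, UCG, MU3, URG, HA3). The last part of `BT_stmt`; as `CNG` (`helper66/RF/CNG.lean`). `gUb f p = 1` gives `l ∤ norm n` for all primes `l ∣ f` (HA3), so all points have the same type (URG), `hU f 1 = 1`: MU3 bounds every set of equivalent points by `1 + 36^ω(f) · 181`; no class is trivial (UTV); UCG. (`|h₅ - 1| ≥ 0`, `S` empty: clear.) -/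
def CG3_stmt : Prop := ∀ (D₀ : ℤ) (f : ℕ), 1 < D₀ → Squarefree D₀ → ¬ (5 : ℤ) ∣ D₀ → 2000 * (f : ℤ) ^ 2 < D₀ →
    ∀ (K : Type) [Field K] [NumberField K], Module.finrank ℚ K = 2 → (∃ x : K, x ^ 2 = D₀) → ∀ S : Finset Pt,
    (∀ p ∈ S, IsPt2 p ∧ p.D = D₀ * (f : ℤ) ^ 2 ∧ gUb f p = 1 ∧ |p.n.norm| ≤ p.D) →
    (∀ p ∈ S, ∀ q ∈ S, p.k ∣ q.k → q.k ∣ p.k → p.k = q.k) →
    (S.card : ℝ) ≤ ((Nat.card {c : ClassGroup (𝓞 K) // c ^ 5 = 1} : ℝ) - 1) * (1 + 181 * 36 ^ f.primeFactors.card)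

/-- **BTA** (short; from HA3, UOC, CN3, CG3): the target. `gg = gUb`, `hh = hU` (`f > 0` as `D > 0`); `gUb f p ≠ 1`: a prime `l ∣ gUb f p` (`Nat.exists_prime_and_dvd`), HA3, UOC. -/
def BTA_doc : Prop := BT_stmt

end Pool.Agent.RF
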