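import Pool.Agent.helper60.RF.SpecB

/-!
# Project RF (MP_16912e_nt), row CLS: the number of classes of points
-/

set_option autoImplicit false

namespace Pool.Agent.RF

open NumberField

theorem CLS_rep {α : Type} (S : Finset α) (E : α → α → Prop) :
    ∃ R ⊆ S, (∀ p ∈ R, ∀ q ∈ R, p ≠ q → ¬ E p q ∨ ¬ E q p) ∧ (∀ p ∈ S, p ∈ R ∨ ∃ q ∈ R, E p q ∧ E q p) := by
  classical
  induction S using Finset.induction_on with
  | empty => exact ⟨∅, le_rfl, by simp, by simp⟩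
  | insert a s ha ih =>
    obtain ⟨R, hR, h1, h2⟩ := ih
    by_cases h : ∃ q ∈ R, E a q ∧ E q a
    · refine ⟨R, hR.trans (Finset.subset_insert _ _), h1, fun p hp => ?_⟩
      rcases Finset.mem_insert.mp hp with rfl | hp
      · exact Or.inr h
      · exact h2 p hp
    · push Not at h
      refine ⟨insert a R, Finset.insert_subset_insert _ hR, fun p hp q hq hpq => ?_, fun p hp => ?_⟩
      · rcases Finset.mem_insert.mp hp with hp' | hp'
        · rcases Finset.mem_insert.mp hq with hq' | hq'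
          · exact absurd (hp'.trans hq'.symm) hpq
          · rw [hp']
            by_cases h3 : E a q
            · exact Or.inr (h q hq' h3)
            · exact Or.inl h3
        · rcases Finset.mem_insert.mp hq with hq' | hq'
          · rw [hq']
            by_cases h3 : E a p
            · exact Or.inl (h p hp' h3)
            · exact Or.inr h3
          · exact h1 p hp' q hq' hpq
      · rcases Finset.mem_insert.mp hp with rfl | hp
        · exact Or.inl (Finset.mem_insert_self _ _)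
        · rcases h2 p hp with h3 | ⟨q, hq, h3⟩
          · exact Or.inl (Finset.mem_insert_of_mem h3)
          · exact Or.inr ⟨q, Finset.mem_insert_of_mem hq, h3⟩

theorem CLS_count {α : Type} (S : Finset α) (E : α → α → Prop) (B h : ℝ) (hB : 0 ≤ B)
    (hr : ∀ p ∈ S, E p p) (hs : ∀ p ∈ S, ∀ q ∈ S, E p q → E q p)
    (ht : ∀ p ∈ S, ∀ q ∈ S, ∀ r ∈ S, E p q → E q r → E p r)
    (hT : ∀ T ⊆ S, (∀ p ∈ T, ∀ q ∈ T, E p q) → (T.card : ℝ) ≤ B)
    (hR : ∀ R ⊆ S, (∀ p ∈ R, ∀ q ∈ R, E p q → p = q) → (R.card : ℝ) ≤ h) : (S.card : ℝ) ≤ h * B := by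
  classical
  obtain ⟨R, hRS, h1, h2⟩ := CLS_rep S E
  have h3 : (R.card : ℝ) ≤ h := hR R hRS (fun p hp q hq he => by
    by_contra hne
    rcases h1 p hp q hq hne with h4 | h4
    · exact h4 he
    · exact h4 (hs p (hRS hp) q (hRS hq) he))
  have h4 : S ⊆ R.biUnion (fun q => S.filter (fun p => E p q)) := by
    intro p hp
    rw [Finset.mem_biUnion]
    rcases h2 p hp with h5 | ⟨q, hq, h5, -⟩
    · exact ⟨p, h5, Finset.mem_filter.mpr ⟨hp, hr p hp⟩⟩
    · exact ⟨q, hq, Finset.mem_filter.mpr ⟨hp, h5⟩⟩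
  have h5 : ∀ q ∈ R, ((S.filter (fun p => E p q)).card : ℝ) ≤ B := by
    intro q hq
    refine hT _ (Finset.filter_subset _ _) (fun p hp p' hp' => ?_)
    obtain ⟨hp1, hp2⟩ := Finset.mem_filter.mp hp
    obtain ⟨hp1', hp2'⟩ := Finset.mem_filter.mp hp'
    exact ht p hp1 q (hRS hq) p' hp1' hp2 (hs p' hp1' q (hRS hq) hp2')
  calc (S.card : ℝ) ≤ ((R.biUnion (fun q => S.filter (fun p => E p q))).card : ℝ) := by
        exact_mod_cast Finset.card_le_card h4
    _ ≤ ((∑ q ∈ R, (S.filter (fun p => E p q)).card : ℕ) : ℝ) := by exact_mod_cast Finset.card_biUnion_le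
    _ = ∑ q ∈ R, ((S.filter (fun p => E p q)).card : ℝ) := by push_cast; rfl
    _ ≤ ∑ q ∈ R, B := Finset.sum_le_sum h5
    _ = (R.card : ℝ) * B := by rw [Finset.sum_const, nsmul_eq_mul]
    _ ≤ h * B := mul_le_mul_of_nonneg_right h3 hB

section eqv

variable {D : ℤ} {F : Type} [Field F] [NumberField F]

theorem CLS_ne {b : 𝓞 F} (h : b ≠ 0) : (b : F) ≠ 0 := fun h0 => h (by
  apply RingOfIntegers.ext
  rw [h0]
  rfl)

theorem CLS_refl (C : Ctx D F) (f : ℕ) (p : Pt) : Eqv C f p p := ⟨1, by ring⟩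

theorem CLS_symm (C : Ctx D F) (f : ℕ) (p q : Pt) (hp : be C f p ≠ 0) (h : Eqv C f p q) : Eqv C f q p := by
  obtain ⟨γ, hγ⟩ := h
  have hγ0 : γ ≠ 0 := by
    rintro rfl
    apply CLS_ne hp
    rw [hγ]
    ring
  refine ⟨γ⁻¹, ?_⟩
  rw [hγ, mul_assoc, ← mul_pow, mul_inv_cancel₀ hγ0, one_pow, mul_one]

theorem CLS_trans (C : Ctx D F) (f : ℕ) (p q r : Pt) (h1 : Eqv C f p q) (h2 : Eqv C f q r) : Eqv C f p r := by
  obtain ⟨γ, hγ⟩ := h1
  obtain ⟨γ', hγ'⟩ := h2
  exact ⟨γ' * γ, by rw [hγ, hγ', mul_pow, mul_assoc]⟩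

end eqv

theorem CLS (h1 : RDA_stmt) (h2 : REFL_stmt) : CLS_stmt := by
  classical
  intro D₀ F _ _ C f g hD1 hDs hD5 hM K _ _ hK2 hx B hB S hS hT hE
  obtain ⟨r, w, hm⟩ := hM
  have hrad : ∀ p ∈ S, ∀ q ∈ S, Rad C.s (be C f p * be C f q ^ 4) := fun p hp q hq =>
    h1 D₀ F C p q f (hS p hp).1 (hS q hq).1 (hS p hp).2.1 (hS q hq).2.1 ((hS p hp).2.2.trans (hS q hq).2.2.symm)
      (by rw [(hS p hp).2.2]; exact hT p hp q hq)
  have hne : ∀ p ∈ S, be C f p ≠ 0 := fun p hp h0 => (hrad p hp p hp).1 (by rw [h0, zero_mul])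
  refine CLS_count S (Eqv C f) B _ hB (fun p _ => CLS_refl C f p) (fun p hp q _ h => CLS_symm C f p q (hne p hp) h)
    (fun p _ q _ r _ h h' => CLS_trans C f p q r h h') hE ?_
  intro R hRS hR
  rcases S.eq_empty_or_nonempty with rfl | ⟨q, hq⟩
  · rw [Finset.subset_empty.mp hRS]
    simp
  have hq4 : (be C f q : F) ^ 4 ≠ 0 := pow_ne_zero _ (CLS_ne (hne q hq))
  have hcoe : ∀ p : Pt, ((be C f p * be C f q ^ 4 : 𝓞 F) : F) = (be C f p : F) * (be C f q : F) ^ 4 := fun p => by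
    push_cast
    rfl
  have hcan : ∀ p p' : Pt, ∀ γ : F, ((be C f p * be C f q ^ 4 : 𝓞 F) : F) = ((be C f p' * be C f q ^ 4 : 𝓞 F) : F) * γ ^ 5 →
      Eqv C f p p' := by
    intro p p' γ h
    rw [hcoe, hcoe] at h
    refine ⟨γ, mul_right_cancel₀ hq4 ?_⟩
    rw [h]
    ring
  set R1 := R.filter (fun p => ¬ ∃ γ : F, ((be C f p * be C f q ^ 4 : 𝓞 F) : F) = γ ^ 5) with hR1
  set R2 := R.filter (fun p => ∃ γ : F, ((be C f p * be C f q ^ 4 : 𝓞 F) : F) = γ ^ 5) with hR2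
  have hcard : R2.card + R1.card = R.card := by
    rw [hR1, hR2]
    exact Finset.card_filter_add_card_filter_not _
  have hR2c : R2.card ≤ 1 := by
    rw [Finset.card_le_one]
    intro p hp p' hp'
    obtain ⟨hp1, γ, hγ⟩ := Finset.mem_filter.mp hp
    obtain ⟨hp1', γ', hγ'⟩ := Finset.mem_filter.mp hp'
    apply hR p hp1 p' hp1'
    have hγ0 : γ' ≠ 0 := by
      rintro rfl
      apply CLS_ne (hrad p' (hRS hp1') q hq).1
      rw [hγ']
      ring
    refine hcan p p' (γ * γ'⁻¹) ?_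
    rw [hγ, hγ', ← mul_pow]
    congr 1
    field_simp
  have hinj : Set.InjOn (fun p => be C f p * be C f q ^ 4) (R1 : Set Pt) := by
    intro p hp p' hp' h
    apply hR p (Finset.mem_filter.mp hp).1 p' (Finset.mem_filter.mp hp').1
    refine hcan p p' 1 ?_
    have h3 : be C f p * be C f q ^ 4 = be C f p' * be C f q ^ 4 := h
    rw [h3]
    ring
  have hfin := h2 D₀ hD1 hDs hD5 F C.s r w hm K hK2 hx (R1.image (fun p => be C f p * be C f q ^ 4)) (by
    intro b hb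
    obtain ⟨p, hp, rfl⟩ := Finset.mem_image.mp hb
    obtain ⟨hp1, hp2⟩ := Finset.mem_filter.mp hp
    exact ⟨hrad p (hRS hp1) q hq, hp2⟩) (by
    intro b hb b' hb' hbb
    obtain ⟨p, hp, rfl⟩ := Finset.mem_image.mp hb
    obtain ⟨p', hp', rfl⟩ := Finset.mem_image.mp hb'
    rintro ⟨γ, hγ⟩
    apply hbb
    rw [hR p (Finset.mem_filter.mp hp).1 p' (Finset.mem_filter.mp hp').1 (hcan p p' γ hγ)])
  rw [Finset.card_image_of_injOn hinj] at hfin
  have h5 : R.card ≤ Nat.card {c : ClassGroup (𝓞 K) // c ^ 5 = 1} := by omega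
  exact_mod_cast h5

end Pool.Agent.RF
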