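import Pool.Agent.helper13.RF.SpecU
import Pool.Agent.helper13.RF.CLS

/-!
# Project RF (MP_16912e_nt), stage 2, row UCG: the number of classes of good points
-/

set_option autoImplicit false

namespace Pool.Agent.RF

open NumberField

theorem UCG (h1 : URG_stmt) (h2 : REFL_stmt) : UCG_stmt := by
  classical
  intro D₀ F _ _ C f hD1 hDs hD5 hM K _ _ hK2 hx B hB S hS hE
  obtain ⟨r, w, hm⟩ := hM
  have hrad : ∀ p ∈ S, Rad C.s (be C f p) := fun p hp =>
    (h1 D₀ F C f hDs p (hS p hp).1 (hS p hp).2.1 (hS p hp).2.2.1).1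
  have hne : ∀ p ∈ S, be C f p ≠ 0 := fun p hp => (hrad p hp).1
  refine CLS_count S (Eqv C f) B _ hB (fun p _ => CLS_refl C f p) (fun p hp q _ h => CLS_symm C f p q (hne p hp) h)
    (fun p _ q _ r _ h h' => CLS_trans C f p q r h h') hE ?_
  intro R hRS hR
  have hinj : Set.InjOn (fun p => be C f p) (R : Set Pt) := by
    intro p hp p' hp' h
    apply hR p hp p' hp'
    refine ⟨1, ?_⟩
    have h3 : be C f p = be C f p' := h
    rw [h3]
    ring
  have hfin := h2 D₀ hD1 hDs hD5 F C.s r w hm K hK2 hx (R.image (fun p => be C f p)) (by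
    intro b hb
    obtain ⟨p, hp, rfl⟩ := Finset.mem_image.mp hb
    exact ⟨hrad p (hRS hp), (hS p (hRS hp)).2.2.2⟩) (by
    intro b hb b' hb' hbb
    obtain ⟨p, hp, rfl⟩ := Finset.mem_image.mp hb
    obtain ⟨p', hp', rfl⟩ := Finset.mem_image.mp hb'
    rintro ⟨γ, hγ⟩
    apply hbb
    rw [hR p hp p' hp' ⟨γ, hγ⟩])
  rw [Finset.card_image_of_injOn hinj] at hfin
  have h5 : (R.card : ℝ) + 1 ≤ (Nat.card {c : ClassGroup (𝓞 K) // c ^ 5 = 1} : ℝ) := by exact_mod_cast hfin
  linarith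

end Pool.Agent.RF
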