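import Pool.Agent.helper13.RF.SpecU
import Pool.Agent.helper13.RF.CLS

/-!
# Project RF (MP_16912e_nt), stage 2, row UCL: the number of classes of points of the same type (`SameV`)
-/

set_option autoImplicit false

namespace Pool.Agent.RF

open NumberField

theorem UCL (h1 : URD_stmt) (h2 : REFL_stmt) : UCL_stmt := by
  classical
  intro D₀ F _ _ C f hD1 hDs hD5 hM K _ _ hK2 hx B hB S hS hT hE
  obtain ⟨r, w, hm⟩ := hM
  have hrad : ∀ p ∈ S, ∀ q ∈ S, Rad C.s (be C f p * be C f q ^ 4) := fun p hp q hq =>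
    h1 D₀ F C p q f hDs (hS p hp).1 (hS q hq).1 (hS p hp).2 (hS q hq).2 (hT p hp q hq)
  have hne : ∀ p ∈ S, be C f p ≠ 0 := fun p hp h0 => (hrad p hp p hp).1 (by rw [h0, zero_mul])
  refine CLS_count S (Eqv C f) B _ hB (fun p _ => CLS_refl C f p) (fun p hp q _ h => CLS_symm C f p q (hne p hp) h)
    (fun p _ q _ r _ h h' => CLS_trans C f p q r h h') hE ?_
  intro R hRS hR
  rcases S.eq_empty_or_nonempty with rfl | ⟨q, hq⟩
  · rw [Finset.subset_empty.mp hRS]
    simp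
  have hq4 : (be C f q : F) ^ 4 ≠ 0 := pow_ne_zero _ (CLS_ne (hne q hq))
  have hcoe : ∀ p : Pt, ((be C f p * be C f q ^ 4 : 𝓞 F) : F) = (be C f p : F) * (be C f q : F) ^ 4 := fun p => by
    push_cast
    rfl
  have hcan : ∀ p p' : Pt, ∀ γ : F, ((be C f p * be C f q ^ 4 : 𝓞 F) : F) = ((be C f p' * be C f q ^ 4 : 𝓞 F) : F) * γ ^ 5 →
      Eqv C f p p' := by
    intro p p' γ h
    rw [hcoe, hcoe] at h
    refine ⟨γ, mul_right_cancel₀ hq4 ?_⟩
    rw [h]
    ring
  set R1 := R.filter (fun p => ¬ ∃ γ : F, ((be C f p * be C f q ^ 4 : 𝓞 F) : F) = γ ^ 5) with hR1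
  set R2 := R.filter (fun p => ∃ γ : F, ((be C f p * be C f q ^ 4 : 𝓞 F) : F) = γ ^ 5) with hR2
  have hcard : R2.card + R1.card = R.card := by
    rw [hR1, hR2]
    exact Finset.card_filter_add_card_filter_not _
  have hR2c : R2.card ≤ 1 := by
    rw [Finset.card_le_one]
    intro p hp p' hp'
    obtain ⟨hp1, γ, hγ⟩ := Finset.mem_filter.mp hp
    obtain ⟨hp1', γ', hγ'⟩ := Finset.mem_filter.mp hp'
    apply hR p hp1 p' hp1'
    have hγ0 : γ' ≠ 0 := by
      rintro rfl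
      apply CLS_ne (hrad p' (hRS hp1') q hq).1
      rw [hγ']
      ring
    refine hcan p p' (γ * γ'⁻¹) ?_
    rw [hγ, hγ', ← mul_pow]
    congr 1
    field_simp
  have hinj : Set.InjOn (fun p => be C f p * be C f q ^ 4) (R1 : Set Pt) := by
    intro p hp p' hp' h
    apply hR p (Finset.mem_filter.mp hp).1 p' (Finset.mem_filter.mp hp').1
    refine hcan p p' 1 ?_
    have h3 : be C f p * be C f q ^ 4 = be C f p' * be C f q ^ 4 := h
    rw [h3]
    ring
  have hfin := h2 D₀ hD1 hDs hD5 F C.s r w hm K hK2 hx (R1.image (fun p => be C f p * be C f q ^ 4)) (by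
    intro b hb
    obtain ⟨p, hp, rfl⟩ := Finset.mem_image.mp hb
    obtain ⟨hp1, hp2⟩ := Finset.mem_filter.mp hp
    exact ⟨hrad p (hRS hp1) q hq, hp2⟩) (by
    intro b hb b' hb' hbb
    obtain ⟨p, hp, rfl⟩ := Finset.mem_image.mp hb
    obtain ⟨p', hp', rfl⟩ := Finset.mem_image.mp hb'
    rintro ⟨γ, hγ⟩
    apply hbb
    rw [hR p (Finset.mem_filter.mp hp).1 p' (Finset.mem_filter.mp hp').1 (hcan p p' γ hγ)])
  rw [Finset.card_image_of_injOn hinj] at hfin
  have h5 : R.card ≤ Nat.card {c : ClassGroup (𝓞 K) // c ^ 5 = 1} := by omega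
  exact_mod_cast h5

end Pool.Agent.RF
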