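import Pool.Agent.helper13.RF.AllA
import Pool.Agent.helper60.RF.AllB
import Pool.Agent.helper13.RF.SpecU
import Pool.Agent.helper34.RF.WEU
import Pool.Agent.helper66.RF.TPQ
import Pool.Agent.helper31.RF.TTP
import Pool.Agent.helper53.RF.TVA
import Pool.Agent.helper43.RF.YVM
import Pool.Agent.helper36.RF.YPL
import Pool.Agent.helper59.RF.YLP
import Pool.Agent.helper99.RF.UTR
import Pool.Agent.helper33.RF.UUV
import Pool.Agent.helper71.RF.UPO
import Pool.Agent.helper53.RF.UOC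
import Pool.Agent.helper92.RF.UVR
import Pool.Agent.helper75.RF.UYE
import Pool.Agent.helper66.RF.URD
import Pool.Agent.helper65.RF.URG
import Pool.Agent.helper23.RF.UTY
import Pool.Agent.helper90.RF.UDE
import Pool.Agent.helper18.RF.UCO
import Pool.Agent.helper72.RF.UFX
import Pool.Agent.helper73.RF.UZA
import Pool.Agent.helper85.RF.UZC
import Pool.Agent.helper30.RF.YL0
import Pool.Agent.helper78.RF.ULQ
import Pool.Agent.helper87.RF.UNU
import Pool.Agent.helper6.RF.ULP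
import Pool.Agent.helper54.RF.ULO
import Pool.Agent.helper5.RF.HA3
import Pool.Agent.helper13.RF.MU3
import Pool.Agent.helper13.RF.UCL
import Pool.Agent.helper13.RF.UCG
import Pool.Agent.helper89.RF.CN3
import Pool.Agent.helper98.RF.CG3
import Pool.Agent.helper23.RF.BTA
import Pool.Agent.helper60.RF.UUE
import Pool.Agent.helper32.RF.UPI
import Pool.Agent.helper39.RF.ULN
import Pool.Agent.helper63.RF.UTI
import Pool.Agent.helper13.RF.UMF
import Pool.Agent.helper13.RF.UTV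
import Pool.Agent.helper67.RF.UZB

/-!
# Project RF (MP_16912e_nt), stage 2, block B': assembly
-/

set_option autoImplicit false

namespace Pool.Agent.RF

theorem u_WEU : WEU_stmt := WEU_proof
theorem u_YVM : YVM_stmt := YVM u_WEU
theorem u_YPL : YPL_stmt := YPL_proof u_WEU
theorem u_YLP : YLP_stmt := YLP u_YVM
theorem u_TTP : TTP_stmt := TTP TPQ VVM
theorem u_UTR : UTR_stmt := UTR u_WEU
theorem u_UUV : UUV_stmt := UUV u_WEU u_UTR
theorem u_UOC : UOC_stmt := UOC u_UTR u_YPL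
theorem u_YL0 : YL0_stmt := YL0 u_WEU

theorem u_UUE : UUE_stmt := UUE u_UUV
theorem u_UPI : UPI_stmt := UPI u_WEU VVM
theorem u_UVR : UVR_stmt := UVR u_UUE VVM TVA
theorem u_ULN : ULN_stmt := ULN u_WEU u_UVR u_UUE u_UPI VVM u_YVM u_YPL TVA
theorem u_UTI : UTI_stmt := UTI u_UUE
theorem u_UYE : UYE_stmt := UYE u_UUE VVM
theorem u_URD : URD_stmt := URD u_UUE u_ULN u_UVR VVM VV5
theorem u_URG : URG_stmt := URG u_UUE u_ULN VVM VV5
theorem u_UDE : UDE_stmt := UDE u_UUE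
theorem u_UCO : UCO_stmt := UCO u_UUE
theorem u_UZA : UZA_stmt := UZA u_UUE UFX
theorem u_ULQ : ULQ_stmt := ULQ u_UYE u_UPI u_UUE VVM VV5
theorem u_UNU : UNU_stmt := UNU u_WEU u_UYE u_UPI
theorem u_ULP : ULP_stmt := ULP u_WEU u_ULQ u_UNU u_UTI u_UCO u_YL0 u_YLP u_YVM
theorem u_ULO : ULO_stmt := ULO u_ULP u_YPL
theorem u_UCL : UCL_stmt := UCL u_URD a_REFL
theorem u_UCG : UCG_stmt := UCG u_URG a_REFL

theorem u_UMF : UMF_stmt := UMF u_UVR u_UUE VVM
theorem u_UZB : UZB_stmt := UZB u_WEU u_UVR u_UMF u_ULN u_UPI u_UUE VVM u_YPL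
theorem u_UTV : UTV_stmt := UTV u_UUE UPO
theorem u_UZC : UZC_stmt := UZC u_WEU u_UZA u_UZB UFX VV5
theorem u_MU3 : MU3_stmt := MU3 UPO u_UDE u_UTI u_UZC u_ULO SPC HA3
theorem u_CN3 : CN3_stmt := CN3 a_MEX b_CTX UTY u_TTP u_UCL u_MU3
theorem u_CG3 : CG3_stmt := CG3 a_MEX b_CTX u_UTV u_UCG u_MU3 u_URG HA3

/-- OUTPUT OF BLOCK B', without hypotheses -/
theorem BT_all : BT_stmt := BTA HA3 u_UOC u_CN3 u_CG3

end Pool.Agent.RF
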