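import Pool.Agent.helper13.RF.SpecM
import Pool.Agent.helper41.RF.MUL

/-!
# Project RF (MP_16912e_nt), stage 2, row MU2: points in one class, one type (new types and labels)
-/

set_option autoImplicit false

namespace Pool.Agent.RF

open NumberField

theorem MU2_dvd (f g : ℕ) (b : OO) (h : ∀ l ∈ f.primeFactors, (l : OO) ^ (f.factorization l - 28 * g.factorization l) ∣ b) :
    ((F2 f g : ℕ) : OO) ∣ b := by
  unfold F2
  rw [Nat.cast_prod]
  apply Finset.prod_dvd_of_coprime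
  · intro l hl l' hl' hne
    have h1 := Nat.prime_of_mem_primeFactors (Finset.mem_coe.1 hl)
    have h2 := Nat.prime_of_mem_primeFactors (Finset.mem_coe.1 hl')
    have h3 : Nat.Coprime (l ^ (f.factorization l - 28 * g.factorization l)) (l' ^ (f.factorization l' - 28 * g.factorization l')) :=
      Nat.Coprime.pow _ _ ((Nat.coprime_primes h1 h2).2 hne)
    exact h3.cast
  · intro l hl
    rw [Nat.cast_pow]
    exact h l hl

theorem MU2_pos (f g : ℕ) : 0 < F2 f g := by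
  unfold F2
  apply Finset.prod_pos
  intro l hl
  exact pow_pos (Nat.prime_of_mem_primeFactors hl).pos _

theorem MU2 (h1 : POS_stmt) (h2 : GDV_stmt) (h3 : TDE_stmt) (h4 : TRI_stmt) (h5 : NZ2_stmt) (h6 : LAO_stmt) (h8 : SPC_stmt)
    (_h9 : TID_stmt) : MU2_stmt := by
  classical
  intro D₀ F _ _ C f g hsq hD₀ S hS hk hE
  rcases S.eq_empty_or_nonempty with rfl | ⟨o, ho⟩
  · rw [Finset.card_empty, Nat.cast_zero]
    positivity
  obtain ⟨hoP, hoD, hog, hon⟩ := hS o ho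
  obtain ⟨hgf, -, -, hg0'⟩ := h2 o hoP D₀ f hsq hoD
  rw [hog] at hgf hg0'
  have hg0 : 0 < g := hg0'
  have hf0 : 0 < f := by
    rcases Nat.eq_zero_or_pos f with rfl | h
    · exfalso
      have := hoP.D0
      rw [hoD] at this
      simp at this
    · exact h
  -- the elements `z`
  have hz : ∀ p q : Pt, ∃ (z : 𝓞 F) (a b : OO), p ∈ S → q ∈ S → Zr C f g p q z ∧ z * C.σ (C.σ z) * (g : 𝓞 F) ^ 2 = C.ι (p.n * q.n) ∧
      10 * z = C.ι a + C.ι b * C.w := by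
    intro p q
    by_cases hpq : p ∈ S ∧ q ∈ S
    · obtain ⟨hp, hq⟩ := hpq
      obtain ⟨hpP, hpD, hpg, -⟩ := hS p hp
      obtain ⟨hqP, hqD, hqg, -⟩ := hS q hq
      obtain ⟨hT, hEq⟩ := hE p hp q hq
      obtain ⟨z, hz1, hz2⟩ := h3 D₀ F C p q f hsq hpP hqP hpD hqD (by rw [hpg, hqg]) (by rw [hpg]; exact hT) hEq
      rw [hpg] at hz1 hz2
      obtain ⟨a, b, hab⟩ := C.co z
      exact ⟨z, a, b, fun _ _ => ⟨hz1, hz2, hab⟩⟩
    · exact ⟨0, 0, 0, fun hp hq => absurd ⟨hp, hq⟩ hpq⟩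
  choose z a b hz using hz
  -- the labels
  have hL : ∀ l : ℕ, ∃ lab : Pt → Fin 36, l ∈ f.primeFactors → ∀ p ∈ S, ∀ q ∈ S, lab p = lab q → ∀ y : 𝓞 F, Zr C f g p q y →
      y * C.σ (C.σ y) * (g : 𝓞 F) ^ 2 = C.ι (p.n * q.n) → ∀ a b : OO, 10 * y = C.ι a + C.ι b * C.w →
        (l : OO) ^ (f.factorization l - 28 * g.factorization l) ∣ b := by
    intro l
    by_cases h : l ∈ f.primeFactors
    · obtain ⟨lab, hl⟩ := h6 D₀ F C f g hsq hD₀ S (fun p hp => ⟨(hS p hp).1, (hS p hp).2.1, (hS p hp).2.2.1⟩) o ho (fun p => z o p)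
        (fun p hp => ⟨(hz o p ho hp).1, (hz o p ho hp).2.1⟩) l (Nat.prime_of_mem_primeFactors h) (Nat.dvd_of_mem_primeFactors h)
      exact ⟨lab, fun _ => hl⟩
    · exact ⟨fun _ => 0, fun h' => absurd h' h⟩
  choose lab hlab using hL
  let Λ : Pt → ({l // l ∈ f.primeFactors} → Fin 36) := fun i l => lab l.1 i
  obtain ⟨B, hB⟩ : ∃ B : ℝ, B = 1 + 180 * ((f : ℝ) / (g * F2 f g)) ^ 2 := ⟨_, rfl⟩
  have hB0 : 0 ≤ B := by
    rw [hB]
    positivity
  -- the main step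
  have hT : ∀ T : Finset Pt, T ⊆ S.erase o → (∀ i ∈ T, ∀ j ∈ T, Λ i = Λ j) → (T.card : ℝ) ≤ B := by
    intro T hTS hTΛ
    have hmem : ∀ i ∈ T, i ∈ S := fun i hi => Finset.mem_of_mem_erase (hTS hi)
    obtain ⟨hva, hvb, hN0, hNr⟩ := h1 o hoP
    have hN : (0 : ℝ) < (o.n.norm : ℝ) := by exact_mod_cast hN0
    have hg' : (0 : ℝ) < g := by exact_mod_cast hg0
    have hf' : (0 : ℝ) < f := by exact_mod_cast hf0
    have hD' : (0 : ℝ) < D₀ := by exact_mod_cast hD₀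
    have ht' : (0 : ℝ) < (F2 f g : ℝ) := by exact_mod_cast MU2_pos f g
    have h5' : (0 : ℝ) < √5 := Real.sqrt_pos.2 (by norm_num)
    have hSPC := h8 Pt T (fun i => C.E1 (z o i)) (fun i => C.E2 (z o i)) ((o.n.norm : ℝ) * (D₀ * (f : ℝ) ^ 2) / (g : ℝ) ^ 4)
      ((o.n.norm : ℝ) / (g : ℝ) ^ 2 * (F2 f g : ℝ) ^ 2 * (√5 * D₀ / 100)) (by positivity) (by positivity) ?_ ?_
    · rw [hB]
      exact hSPC.trans (add_le_add le_rfl (MUL_num _ _ _ _ _ hN hD' hg' ht'))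
    · intro i hi
      have hiS := hmem i hi
      obtain ⟨hiP, hiD, hig, hin⟩ := hS i hiS
      obtain ⟨-, hz2, -⟩ := hz o i ho hiS
      obtain ⟨e1, e2⟩ := MUL_nrm C (z o i) (o.n * i.n) g hz2
      rw [le_div_iff₀ (by positivity)]
      have e3 : ‖C.E1 (z o i)‖ ^ 2 * ‖C.E2 (z o i)‖ ^ 2 * (g : ℝ) ^ 4 = (o.n.norm : ℝ) * (i.n.norm : ℝ) := by
        have e4 : va (o.n * i.n) * vb (o.n * i.n) = (o.n.norm : ℝ) * (i.n.norm : ℝ) := by
          rw [← MUL_norm, map_mul]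
          push_cast
          rfl
        rw [← e4, ← e1, ← e2]
        ring
      change ‖C.E1 (z o i)‖ ^ 2 * ‖C.E2 (z o i)‖ ^ 2 * (g : ℝ) ^ 4 ≤ _
      rw [e3]
      apply mul_le_mul_of_nonneg_left _ hN.le
      have e5 : (i.n.norm : ℝ) ≤ ((i.D : ℤ) : ℝ) := by exact_mod_cast (le_abs_self _).trans hin
      rw [hiD] at e5
      push_cast at e5
      exact e5
    · intro i hi j hj hij
      have hiS := hmem i hi
      have hjS := hmem j hj
      obtain ⟨hiP, hiD, hig, hin⟩ := hS i hiS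
      obtain ⟨hjP, hjD, hjg, hjn⟩ := hS j hjS
      obtain ⟨zi1, zi2, zi3⟩ := hz o i ho hiS
      obtain ⟨zj1, zj2, zj3⟩ := hz o j ho hjS
      obtain ⟨zz1, zz2, zz3⟩ := hz i j hiS hjS
      have hTRI := h4 D₀ F C o i j f g hg0 hoP hiP hjP hoD hiD hjD _ _ _ zi1 zj1 zz1
      have hco := MUL_coe C _ _ _ _ g hTRI _ _ _ _ _ _ zi3 zj3 zz3
      -- `b ≠ 0`
      have hb0 : b i j ≠ 0 := by
        intro h0
        rw [h0, map_zero, zero_mul, add_zero] at zz3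
        apply h5 D₀ F C i j f g hg0 hiP hjP hiD hjD (hk i hiS j hjS) hij (z i j) zz1
        have e1 := congrArg C.σ (congrArg C.σ zz3)
        rw [MUL_ssι, map_mul, map_mul, map_ofNat, map_ofNat, ← zz3] at e1
        exact mul_left_cancel₀ (by norm_num) e1
      -- `f₁ ∣ b`
      have hdvd : ((F2 f g : ℕ) : OO) ∣ b i j := by
        apply MU2_dvd
        intro l hl
        exact hlab l hl i hiS j hjS (congrFun (hTΛ i hi j hj) ⟨l, hl⟩) (z i j) zz1 zz2 _ _ zz3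
      obtain ⟨c, hc⟩ := hdvd
      have hge := MUL_norm_ge (F2 f g) hb0 hc
      obtain ⟨m1, m2⟩ := MUL_pr C _ _ _ _ g hTRI
      obtain ⟨i1, i2⟩ := MUL_im C (z i j) _ _ zz3
      have hw := MUL_w12 C hD₀
      obtain ⟨Y1, hY1⟩ : ∃ Y : ℝ, Y = |((starRingEnd ℂ) (C.E1 (z o i)) * C.E1 (z o j)).im| := ⟨_, rfl⟩
      obtain ⟨Y2, hY2⟩ : ∃ Y : ℝ, Y = |((starRingEnd ℂ) (C.E2 (z o i)) * C.E2 (z o j)).im| := ⟨_, rfl⟩
      change _ ≤ |((starRingEnd ℂ) (C.E1 (z o i)) * C.E1 (z o j)).im| * |((starRingEnd ℂ) (C.E2 (z o i)) * C.E2 (z o j)).im|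
      rw [← hY1] at m1 ⊢
      rw [← hY2] at m2 ⊢
      rw [abs_of_pos hva] at m1
      rw [abs_of_pos hvb] at m2
      have e1 : 100 * ((g : ℝ) ^ 2 * (Y1 * Y2)) = (o.n.norm : ℝ) * (|va (b i j)| * |vb (b i j)|) * (√5 * D₀) := by
        calc 100 * ((g : ℝ) ^ 2 * (Y1 * Y2)) = (10 * ((g : ℝ) * Y1)) * (10 * ((g : ℝ) * Y2)) := by ring
          _ = (va o.n * (10 * |(C.E1 (z i j)).im|)) * (vb o.n * (10 * |(C.E2 (z i j)).im|)) := by rw [m1, m2]; ring
          _ = (va o.n * vb o.n) * (|va (b i j)| * |vb (b i j)|) * (|(C.E1 C.w).im| * |(C.E2 C.w).im|) := by rw [i1, i2]; ring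
          _ = (o.n.norm : ℝ) * (|va (b i j)| * |vb (b i j)|) * (√5 * D₀) := by rw [hw, hNr]
      have e2 : (o.n.norm : ℝ) * (F2 f g : ℝ) ^ 2 * (√5 * D₀) ≤ 100 * ((g : ℝ) ^ 2 * (Y1 * Y2)) := by
        rw [e1]
        apply mul_le_mul_of_nonneg_right _ (by positivity)
        exact mul_le_mul_of_nonneg_left hge hN.le
      have e3 : (o.n.norm : ℝ) / (g : ℝ) ^ 2 * (F2 f g : ℝ) ^ 2 * (√5 * D₀ / 100) = (o.n.norm : ℝ) * (F2 f g : ℝ) ^ 2 * (√5 * D₀) / (100 * (g : ℝ) ^ 2) := by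
        field_simp
      rw [e3, div_le_iff₀ (by positivity)]
      linarith
  -- counting
  have hc1 : (S.erase o).card = ∑ y : ({l // l ∈ f.primeFactors} → Fin 36), ((S.erase o).filter fun i => Λ i = y).card :=
    Finset.card_eq_sum_card_fiberwise fun i _ => Finset.mem_coe.2 (Finset.mem_univ _)
  have hc2 : ((S.erase o).card : ℝ) ≤ (36 : ℝ) ^ f.primeFactors.card * B := by
    rw [hc1]
    push_cast
    calc ∑ y : ({l // l ∈ f.primeFactors} → Fin 36), (((S.erase o).filter fun i => Λ i = y).card : ℝ) ≤ ∑ _y : ({l // l ∈ f.primeFactors} → Fin 36), B := by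
          apply Finset.sum_le_sum
          intro y _
          apply hT _ (Finset.filter_subset _ _)
          intro i hi j hj
          rw [(Finset.mem_filter.1 hi).2, (Finset.mem_filter.1 hj).2]
      _ = (36 : ℝ) ^ f.primeFactors.card * B := by
          rw [Finset.sum_const, Finset.card_univ, Fintype.card_fun, Fintype.card_fin, Fintype.card_coe, nsmul_eq_mul]
          push_cast
          rfl
  have hc3 : S.card = (S.erase o).card + 1 := (Finset.card_erase_add_one ho).symm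
  rw [hc3, ← hB]
  push_cast
  linarith

end Pool.Agent.RF
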