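import Mathlib
import Pool.Agent.helper60.RF.Defs

/-!
# Project RF (MP_16912e_nt), block A (class field theory for unramified extensions of degree 5), part 1

GOAL of the project (owner helper60): for every `ε > 0` and `N ≥ N₀` the sum of `#Cl(K)[5] - 1` over the REAL quadratic fields of discriminant `< N` is at least `N^(1-ε)`.
GOAL of block A (`REFL_stmt` in `Spec2.lean`): `K = ℚ(√D)` real quadratic, `F` = the mirror field (cyclic quartic), a set of `β ∈ 𝓞 F`, different modulo fifth powers, with `s β = β² g⁵`, `(β) = I⁵`, `β ≡ 1 mod 25`, has at most `#Cl(K)[5] - 1` elements.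

PLAN. (1) `L / K` cyclic of degree 5, unramified, `K` real quadratic. The norm `Cl(L) → Cl(K)` is not surjective: `|Cl(L)^σ| ≤ |image of Cl(K)| * |U^σ / N U| ≤ |Cl(K)| / |H^1(U)| * |H^0(U)|`, `U = (𝓞 L)ˣ`, and `|H^1(U)| = 5 |H^0(U)|` (rows CY5 HQ5 TRL URK UNI SCX NCX INV AMA AMB NIP NIX PIX NRM).
(2) Kummer theory: `N = K(ζ₅)`, `M ∋ β^(1/5)`: there is `L / K` Galois of degree 5, unramified, with `N L = N(β^(1/5))` (rows DSC LIN FPD UNA UNB TOW UNL). (3) fields (CMP BIG). (4) densities: different `L` have different norm groups (`Spec2.lean`).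

RULES. Row `XXX`: file `Pool/Agent/<seat>/RF/XXX.lean`, with the header

  import Pool.Agent.helper13.RF.Spec1
  set_option autoImplicit false
  open NumberField
  open scoped nonZeroDivisors
  namespace Pool.Agent.RF

and the theorem line of the lock note; auxiliary lemmas are prefixed `XXX_`. No sorry, no straight double quotes, no `convert`, no `congr!`, no `native_decide`. Other rows are used only as hypotheses `(hYYY : YYY_stmt)` (unused ones may be dropped, others may be added, no circles).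
-/

set_option autoImplicit false

open NumberField
open scoped nonZeroDivisors

namespace Pool.Agent.RF

/-! ## 0. Definitions -/

section pure

variable {A : Type} [CommGroup A]

/-- `a ↦ a * σ a * σ² a * σ³ a * σ⁴ a` -/
def nm (σ : A →* A) : A →* A where
  toFun a := a * σ a * σ (σ a) * σ (σ (σ a)) * σ (σ (σ (σ a)))
  map_one' := by simp only [map_one, mul_one]
  map_mul' a b := by simp only [map_mul]; ac_rfl

/-- `a ↦ σ a / a` -/
def df (σ : A →* A) : A →* A where
  toFun a := σ a / a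
  map_one' := by simp only [map_one, div_one]
  map_mul' a b := by rw [map_mul, mul_div_mul_comm]

end pure

section fields

variable {K L : Type} [Field K] [NumberField K] [Field L] [NumberField L] [Algebra K L]

/-- the automorphism of the ring of integers -/
noncomputable abbrev gO (σ : L ≃ₐ[K] L) : 𝓞 L ≃ₐ[𝓞 K] 𝓞 L := galRestrict (𝓞 K) K L (𝓞 L) σ

/-- the automorphism of the group of units -/
noncomputable abbrev gU (σ : L ≃ₐ[K] L) : (𝓞 L)ˣ →* (𝓞 L)ˣ := Units.map ((gO σ : 𝓞 L →ₐ[𝓞 K] 𝓞 L) : 𝓞 L →* 𝓞 L)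

/-- `s` is the action of `σ` on the class group -/
def IsS (σ : L ≃ₐ[K] L) (s : ClassGroup (𝓞 L) →* ClassGroup (𝓞 L)) : Prop :=
  ∀ I J : (Ideal (𝓞 L))⁰, (J : Ideal (𝓞 L)) = (I : Ideal (𝓞 L)).map (gO σ) → s (ClassGroup.mk0 I) = ClassGroup.mk0 J

variable (K L) in
/-- `n` is the norm map of the class groups -/
def IsNC (n : ClassGroup (𝓞 L) →* ClassGroup (𝓞 K)) : Prop :=
  ∀ (I : (Ideal (𝓞 L))⁰) (J : (Ideal (𝓞 K))⁰), (J : Ideal (𝓞 K)) = Ideal.relNorm (𝓞 K) (I : Ideal (𝓞 L)) →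
    n (ClassGroup.mk0 I) = ClassGroup.mk0 J

variable (K L) in
/-- `L / K` is unramified at all finite primes -/
def Unr : Prop := ∀ P : Ideal (𝓞 L), P.IsPrime → P ≠ ⊥ → P.ramificationIdx (𝓞 K) = 1

variable (K L) in
/-- the setting: `K` real quadratic, `L / K` Galois of degree 5 with generator `σ` of the Galois group -/
structure Ext5 (σ : L ≃ₐ[K] L) : Prop where
  quad : Module.finrank ℚ K = 2
  real : IsTotallyReal K
  gal : IsGalois K L
  deg : Module.finrank K L = 5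
  gen : ∀ τ : L ≃ₐ[K] L, τ ∈ Subgroup.zpowers σ

end fields

/-! ## 1. Pure group theory -/

/-- **CY5** (medium; PURE). Written additively: `Z` is a module over `ℤ[ζ₅]`, `δ = σ - 1`. `σ⁵ = 1` (from `N z = N (σ z) = 0`). `δ⁴ = -5 σ (σ² - σ + 1)` on `Z` (as `σ⁴ = -σ³ - σ² - σ - 1`), and `(σ² - σ + 1)(σ + 1)(σ² + σ + 1) = (σ³ + 1)(σ² + σ + 1) = σ⁵ + (σ⁴ + σ³ + σ² + σ + 1) = 1`, so `σ² - σ + 1` is bijective on `Z`,
commutes with everything, and `range(δ⁴) = range(5)`. `δ` is injective (`δ z = 0` gives `0 = δ⁴ z = -5 σ(..)z`, so `z = 0`). So `[Z : δ⁴ Z] = [Z : δ Z]⁴`: `[Z : δ^(k+1) Z] = [Z : δ^k Z] [δ^k Z : δ^(k+1) Z] = [Z : δ^k Z] [Z : δ Z]` (`Subgroup.relIndex_mul_index`-type lemmas, `Subgroup.relIndex_map..`/`Subgroup.index_map_of_injective`; index `0` = infinite is allowed). -/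
def CY5_stmt : Prop := ∀ (Z : Type) [CommGroup Z] (σ : Z →* Z), (∀ z, nm σ z = 1) → (∀ z : Z, z ^ 5 = 1 → z = 1) →
  (df σ).range.index ^ 4 = (powMonoidHom 5 : Z →* Z).range.index

/-- **HQ5** (medium; PURE; from CY5): the Herbrand quotient. Additively: `δ = σ - 1`, `N = 1 + σ + .. + σ⁴`, `Z = ker N`, `F = ker δ` (all fixed elements), `T = δ A ≤ Z`, `R = N A ≤ F`, `N f = 5 f` on `F`.
(a) `Z ∩ 5A = 5Z`, `N A ≤ F` has finite index (it contains `5F`), `[A : 5A] = [Z : 5Z] [NA : 5NA]` (`N` induces `A / (Z + 5A) ≅ NA / 5NA`, `(Z + 5A)/5A ≅ Z / 5Z`), `[NA : 5NA] = [F : 5F] = 5` (`5` is injective: `[F : NA][NA : 5NA] = [F : 5F][5F : 5NA]`, `[5F : 5NA] = [F : NA]`); so `[Z : 5Z] = 5⁸` and by CY5 for the group `Z` `[Z : δZ] = 25`.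
(b) `[T : δZ] = [A : Z + F]` (`δ⁻¹(δ Z) = Z + F`) `= [NA : 5F]` (`N⁻¹(N F) = Z + F`, `N F = 5F`) and `[F : 5F] = [F : NA][NA : 5F]`. So `25 = [Z : δZ] = [Z : T][T : δZ]`, `[T : δZ] [F : NA] = 5`, hence `[Z : T] = 5 [F : NA]`. (`H.relIndex K = [K : H ⊓ K]`.) -/
def HQ5_stmt : Prop := ∀ (A : Type) [CommGroup A] (σ : A →* A), (∀ a, σ (σ (σ (σ (σ a)))) = a) → (∀ a : A, a ^ 5 = 1 → a = 1) →
  (powMonoidHom 5 : A →* A).range.index = 5 ^ 9 → ((df σ).ker.map (powMonoidHom 5)).relIndex (df σ).ker = 5 →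
  (df σ).range.relIndex (nm σ).ker = 5 * (nm σ).range.relIndex (df σ).ker ∧ (nm σ).range.relIndex (df σ).ker ≠ 0

/-- **NIP** (short; PURE). `c ↦ s c / c` is a homomorphism with kernel `{c : s c = c}` and range in `ker n`, so `|n.range| = |C| / |ker n| ≤ |C| / |range| = |{c : s c = c}|`, `|D| = |n.range| * n.range.index ≥ 5 |{c : s c = c}|`. -/
def NIP_stmt : Prop := ∀ (C D : Type) [CommGroup C] [Finite C] [CommGroup D] [Finite D] (n : C →* D) (s : C →* C),
  (∀ c, n (s c) = n c) → 5 * Nat.card {c : C // s c = c} ≤ Nat.card D → 5 ≤ n.range.index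

/-- **PIX** (short; PURE). `D / R` is a nontrivial finite abelian group of exponent 5, a vector space over `ZMod 5` (or: a maximal proper subgroup `H ≥ R`; `D / H` is simple of exponent 5, so of order 5). -/
def PIX_stmt : Prop := ∀ (D : Type) [CommGroup D] [Finite D] (R : Subgroup D), 1 < R.index → (∀ d : D, d ^ 5 ∈ R) →
  ∃ H : Subgroup D, R ≤ H ∧ H.index = 5

/-- **CT5** (medium; PURE): counting. A subgroup of index 5 is the kernel of exactly 4 of the nontrivial homomorphisms `A →* Multiplicative (ZMod 5)` (composition with the automorphisms of a group of order 5), so `4 * #{H : index 5} = #Hom(A, C₅) - 1`; and `#Hom(A, C₅) = #{a : a⁵ = 1}` (both are `[A : A⁵]`: homomorphisms to `C₅` kill `A⁵`,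
`A / A⁵` is a vector space over `ZMod 5` with as many elements as its dual (`Module.card_eq..`, or `CommGroup.monoidHom_mulEquiv_of_hasEnoughRootsOfUnity` with values in `ℂˣ`), and `|A| = |A⁵| |{a : a⁵ = 1}|`). Then `|B| ≤ 4 #{H}`. (Only `≤` is needed everywhere.) -/
def CT5_stmt : Prop := ∀ (A : Type) [CommGroup A] [Finite A] (B : Type) [Finite B] (f : B → Subgroup A), (∀ b, (f b).index = 5) →
  (∀ b : B, Nat.card {b' : B // f b' = f b} ≤ 4) → Nat.card B + 1 ≤ Nat.card {a : A // a ^ 5 = 1}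

/-! ## 2. Units and ambiguous classes -/

/-- **TRL** (short). `φ : L →+* ℂ`. The restriction to `K` is real. `z ↦ conj (φ z)` has the same restriction to `K` (`K`-algebra structure of `ℂ` by `φ`), so as `L / K` is normal `conj ∘ φ = φ ∘ g` for some `g ∈ Gal(L/K)` (`Algebra.IsAlgebraic`/`AlgHom.restrictNormal`, `AlgHom.fieldRange_of_normal`), `g² = 1` and the order of `g` divides `5`: `g = 1`. So `φ` is real. -/
def TRL_stmt : Prop := ∀ (K L : Type) [Field K] [NumberField K] [Field L] [NumberField L] [Algebra K L],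
  IsGalois K L → Module.finrank K L = 5 → IsTotallyReal K → IsTotallyReal L

/-- **URK** (medium). `L` totally real: roots of unity in `L` are `±1` (a real embedding is injective), so `u⁵ = 1` gives `u = 1`; `NumberField.Units.rank L = n - 1` (`IsTotallyReal`: no complex places, `card_add_two_mul_card_eq_rank`); `𝓞 Lˣ ≅ torsion × ℤ^(n-1)` (`NumberField.Units.exist_unique_eq_mul_prod`, `NumberField.Units.basisModTorsion`, or the finite free `ℤ`-module
`Additive ((𝓞 L)ˣ ⧸ torsion L)`), the fifth powers have index `5^(n-1)` (on the torsion `x ↦ x⁵` is bijective; `[ℤ^r : 5ℤ^r] = 5^r`). -/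
def URK_stmt : Prop := ∀ (L : Type) [Field L] [NumberField L], IsTotallyReal L →
  (∀ u : (𝓞 L)ˣ, u ^ 5 = 1 → u = 1) ∧ (powMonoidHom 5 : (𝓞 L)ˣ →* (𝓞 L)ˣ).range.index = 5 ^ (Module.finrank ℚ L - 1)

/-- **UNI** (short to medium; from HQ5, TRL, URK). HQ5 for `A = (𝓞 L)ˣ`, `gU σ`: `[L : ℚ] = 10`; `σ⁵ = 1`; the fixed units are the image of `(𝓞 K)ˣ` (injective; a fixed element is in `K`, and integral), so `[F : F⁵] = [(𝓞 K)ˣ : fifth powers] = 5` (URK for `K`). -/
def UNI_stmt : Prop := ∀ (K L : Type) [Field K] [NumberField K] [Field L] [NumberField L] [Algebra K L] (σ : L ≃ₐ[K] L), Ext5 K L σ →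
  (df (gU σ)).range.relIndex (nm (gU σ)).ker = 5 * (nm (gU σ)).range.relIndex (df (gU σ)).ker ∧
    (nm (gU σ)).range.relIndex (df (gU σ)).ker ≠ 0

/-- **SCX** (short). The action on the class group: `ClassGroup.mk0_eq_mk0_iff`, `ClassGroup.mk0_surjective` (define the map by choice, or by `ClassGroup.equiv`/`MulEquiv` of a ring automorphism if Mathlib has it; `Ideal.map` is multiplicative, maps `span {x}` to `span {σ x}`). -/
def SCX_stmt : Prop := ∀ (K L : Type) [Field K] [NumberField K] [Field L] [NumberField L] [Algebra K L] (σ : L ≃ₐ[K] L),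
  ∃ s : ClassGroup (𝓞 L) →* ClassGroup (𝓞 L), IsS σ s

/-- **NCX** (short). The norm map: `Ideal.relNorm (𝓞 K)` is multiplicative, `Ideal.relNorm_singleton`, `Ideal.relNorm_eq_bot_iff`, `ClassGroup.mk0_eq_mk0_iff`. -/
def NCX_stmt : Prop := ∀ (K L : Type) [Field K] [NumberField K] [Field L] [NumberField L] [Algebra K L],
  ∃ n : ClassGroup (𝓞 L) →* ClassGroup (𝓞 K), IsNC K L n

/-- **INV** (medium). Induction on the norm of `I` (or on the number of prime factors). If `I ≠ ⊤` let `P ∣ I` be a prime, `p = P ∩ 𝓞 K`. The Galois group permutes the primes over `p` transitively (`Ideal.exists_smul_eq_of_isGaloisGroup`, `Algebra.IsInvariant.exists_smul_of_under_eq`), all of them are `σ^i P`, so all divide `I = σ I`;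
`p 𝓞 L` is the product of these different primes (`Ideal.map_algebraMap_eq_finsetProd_pow`, exponents `1` by `Unr`), so it divides `I`: `I = p 𝓞 L * I'`, `σ I' = I'` (cancel). -/
def INV_stmt : Prop := ∀ (K L : Type) [Field K] [NumberField K] [Field L] [NumberField L] [Algebra K L] [IsGalois K L] (σ : L ≃ₐ[K] L),
  (∀ τ : L ≃ₐ[K] L, τ ∈ Subgroup.zpowers σ) → Unr K L → ∀ I : Ideal (𝓞 L), I ≠ ⊥ → I.map (gO σ) = I →
    ∃ J : Ideal (𝓞 K), J.map (algebraMap (𝓞 K) (𝓞 L)) = I

/-- **AMA** (medium-long; from INV; Hilbert 90 = `groupCohomology.exists_div_of_norm_eq_one`). `S = {c : s c = c}`. For `c = [I] ∈ S` there are `x, y ≠ 0` in `𝓞 L` with `(x) σI = (y) I`; the element `t = y / x` has `(t) = σI / I`, and `u = ∏_i σ^i t` is a unit (the ideal is `∏ σ^(i+1) I / ∏ σ^i I = 1`), fixed by `σ`; so `u ∈ F = ker (df (gU σ))`.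
Let `φ c` be the coset of `u` in `F / (R ⊓ F)`, `R = range (nm (gU σ))` (choose `I, x, y` for each `c`). If `φ c₁ = φ c₂` then `c₁ / c₂` is in the range of `ClassGroup.extendedHom`: `u₁ = u₂ ∏ σ^i v`, `t = t₁ / (t₂ v)` has norm `1` (`Algebra.norm_eq_prod_automorphisms`: the norm of `t` is `∏_i σ^i t`), `t = z / σ z` (Hilbert 90), and the fractional ideal `𝔞 = I₁ I₂⁻¹ (z)`
satisfies `σ𝔞 = 𝔞 t₁ / t₂ * σz / z = 𝔞` (`v` is a unit). Multiply by a rational integer to make it integral; INV: it is extended from `K`. So every fibre of `φ` is contained in a coset of the range: `|S| ≤ |range| * [F : R ⊓ F]`. Work with fractional ideals (`FractionalIdeal`, units) or with integral ideals and common factors, as you like. -/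
def AMA_stmt : Prop := ∀ (K L : Type) [Field K] [NumberField K] [Field L] [NumberField L] [Algebra K L] (σ : L ≃ₐ[K] L), Ext5 K L σ → Unr K L →
  (nm (gU σ)).range.relIndex (df (gU σ)).ker ≠ 0 → ∀ s : ClassGroup (𝓞 L) →* ClassGroup (𝓞 L), IsS σ s →
    Nat.card {c : ClassGroup (𝓞 L) // s c = c} ≤
      Nat.card (ClassGroup.extendedHom (𝓞 K) (𝓞 L)).range * (nm (gU σ)).range.relIndex (df (gU σ)).ker

/-- **AMB** (medium; from INV; Hilbert 90: `groupCohomology.exists_mul_galRestrict_of_norm_eq_one`). For a unit `e` with `∏ σ^i e = 1` there is `z ≠ 0` in `𝓞 L` with `e * σ z = z`; `(z)` is fixed by `σ`, so `(z) = 𝔟 𝓞 L` (INV) and `[𝔟] ∈ ker extendedHom`. If `[𝔟₁] = [𝔟₂]` then `𝔟₁ (x) = 𝔟₂ (y)`, `x, y ≠ 0` in `𝓞 K`, `z₁ x = v z₂ y` with a unit `v` of `L`,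
`e₁ = z₁ / σ z₁ = (v / σ v) e₂`: the same class modulo `T = range (df (gU σ))`. So `Z / (T ⊓ Z) → ker` is injective, `Z = ker (nm (gU σ))`. -/
def AMB_stmt : Prop := ∀ (K L : Type) [Field K] [NumberField K] [Field L] [NumberField L] [Algebra K L] (σ : L ≃ₐ[K] L), Ext5 K L σ → Unr K L →
  (df (gU σ)).range.relIndex (nm (gU σ)).ker ≤ Nat.card (ClassGroup.extendedHom (𝓞 K) (𝓞 L)).ker

/-- **NIX** (short; from UNI, SCX, AMA, AMB, NIP). `a = [F : R ⊓ F] ≥ 1`. `5 |S| ≤ 5 a |range| = [Z : T ⊓ Z] |range| ≤ |ker| |range| = |Cl(K)|`. `n (s c) = n c`: `Ideal.relNorm_map_algEquiv`. -/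
def NIX_stmt : Prop := ∀ (K L : Type) [Field K] [NumberField K] [Field L] [NumberField L] [Algebra K L] (σ : L ≃ₐ[K] L), Ext5 K L σ → Unr K L →
  ∀ n : ClassGroup (𝓞 L) →* ClassGroup (𝓞 K), IsNC K L n → 5 ≤ n.range.index

/-- the property of the norm group: it contains the classes of all primes of `K` over which there is a prime of `L` of residue degree one -/
def NG (K L : Type) [Field K] [NumberField K] [Field L] [NumberField L] [Algebra K L] (H : Subgroup (ClassGroup (𝓞 K))) : Prop :=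
  H.index = 5 ∧ ∀ (P : Ideal (𝓞 L)) (v : (Ideal (𝓞 K))⁰), P.IsPrime → P ≠ ⊥ → P.under (𝓞 K) = (v : Ideal (𝓞 K)) → P.inertiaDeg (𝓞 K) = 1 →
    ClassGroup.mk0 v ∈ H

/-- **NRM** (short; from NCX, NIX, PIX). `n` from NCX, `R = n.range`; `n (extendedHom c) = c⁵` (`Ideal.relNorm_algebraMap`, `ClassGroup.extendedHom_mk0`; the degree of `𝓞 L` over `𝓞 K` is 5), so `R` contains the fifth powers; PIX. `Ideal.relNorm (𝓞 K) P = v ^ 1` (`Ideal.relNorm_eq_pow_of_isMaximal`), so `[v] = n [P]`. A generator `σ` exists: the Galois group has order 5. -/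
def NRM_stmt : Prop := ∀ (K L : Type) [Field K] [NumberField K] [Field L] [NumberField L] [Algebra K L], Module.finrank ℚ K = 2 → IsTotallyReal K →
  IsGalois K L → Module.finrank K L = 5 → Unr K L → ∃ H : Subgroup (ClassGroup (𝓞 K)), NG K L H

/-! ## 3. Kummer theory -/

/-- **DSC** (medium; pure Galois theory). `M' = N(α)`, `[M' : N] = 5` (`X^5 - C β` is irreducible, `X_pow_sub_C_irreducible_of_prime`). `g : M' ≃ M'` over `N`, `g α = ζ α`. `T : M' → M'` over `K`, extending `τ`, with `T α = γ α²` (`(γ α²)⁵ = γ⁵ β² = τ β`; the minimal polynomial of `α` is mapped to `X^5 - τ β`).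
`T g α = T(ζ α) = ζ² γ α²`, `g T α = γ ζ² α²`: they commute. `T⁴` is the identity on `N` (`τ⁴ = 1`: `τ^i ζ = ζ^(2^i)` shows that `τ` generates the group of order 4; `K`-automorphisms of `N`, `[N : K] = 4`), so `T⁴ = g^i`; `T' = T g^j` with `4 j + i ≡ 0 mod 5` has `T'⁴ = 1` and extends `τ`. The group generated by `g`, `T'` is abelian of order 20 `= [M' : K]`, so `M' / K` is Galois;
`L` = the fixed field of `⟨T'⟩`, of degree 5 over `K`, normal (abelian group). `L ⊄ N` (5 ∤ 4), so `N(L)` is strictly larger than `N`, of prime index 5 in ..: `N(L) = N(α)`. (Alternative: `M' / K` is normal since it contains all `K`-conjugates of `α`, abelian, and has a subgroup of order 4.) -/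
def DSC_stmt : Prop := ∀ (K N M : Type) [Field K] [Field N] [Field M] [CharZero K] [Algebra K N] [Algebra K M] [Algebra N M] [IsScalarTower K N M]
  [FiniteDimensional K M] (ζ β γ : N) (τ : N ≃ₐ[K] N) (α : M), IsPrimitiveRoot ζ 5 → τ ζ = ζ ^ 2 → Module.finrank K N = 4 →
  α ^ 5 = algebraMap N M β → β ≠ 0 → τ β = β ^ 2 * γ ^ 5 → (¬ ∃ g : N, β = g ^ 5) →
  ∃ L : IntermediateField K M, IsGalois K L ∧ Module.finrank K L = 5 ∧
    IntermediateField.adjoin N (L : Set M) = IntermediateField.adjoin N {α}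

/-- **LIN** (short to medium; pure Galois theory). `g` = the automorphism of `N(α)` with `g α = ζ α`; `(g α')⁵ = β'`, so `g α' = ζ^k α'`; `α' / α^k` is fixed by `g`, so it is in `N`: `β' = β^k h⁵`. (`β'` is not a fifth power so `5 ∤ k`; take `k < 5`; negative exponents are not needed.) -/
def LIN_stmt : Prop := ∀ (N M : Type) [Field N] [Field M] [CharZero N] [Algebra N M] (ζ β β' : N) (α α' : M), IsPrimitiveRoot ζ 5 →
  α ^ 5 = algebraMap N M β → α' ^ 5 = algebraMap N M β' → β ≠ 0 → β' ≠ 0 → (¬ ∃ g : N, β = g ^ 5) → (¬ ∃ g : N, β' = g ^ 5) →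
  IntermediateField.adjoin N {α} = IntermediateField.adjoin N {α'} → ∃ k : ℕ, 1 ≤ k ∧ k ≤ 4 ∧ ∃ h : N, β' = β ^ k * h ^ 5

/-- **FPD** (short). `x² = N(g)⁵` (`Algebra.norm_algebraMap`), `x = x⁶ / x⁵ = (N(g)³ / x)⁵`. -/
def FPD_stmt : Prop := ∀ (F N : Type) [Field F] [Field N] [Algebra F N], Module.finrank F N = 2 → ∀ (x : F) (g : N),
  algebraMap F N x = g ^ 5 → ∃ h : F, x = h ^ 5

/-- **UNA** (medium). `p = P ∩ 𝓞 N`. There is `γ ∈ N`, `γ ≠ 0`, such that `b γ⁵` is an element of `𝓞 N` outside of `p`: `γ ∈ I⁻¹` with `γ I` prime to `p` (take an integral ideal `J` with `I J = (c)`, `γ = d / c` with `d ∈ J`, `d ∉ J p`: `(γ) I = (d) J⁻¹`, not divisible by `p`). Then `y = α γ` satisfies `y⁵ = b γ⁵ =: b'`, `y ∈ 𝓞 M`, `N(y) = M`, its minimal polynomial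
over `𝓞 N` is `X⁵ - b'` (degree 5), and the derivative `5 y⁴` is not in `P` (`5 ∉ P`; `y ∈ P` would give `b' ∈ p`). `aeval_derivative_mem_differentIdeal`: it is in the different, so `P ∤` different; `not_dvd_differentIdeal_iff`, `Ideal.ramificationIdx_eq_one`. -/
def UNA_stmt : Prop := ∀ (N M : Type) [Field N] [NumberField N] [Field M] [NumberField M] [Algebra N M] (α : M) (b : 𝓞 N) (I : Ideal (𝓞 N)),
  α ^ 5 = algebraMap N M (b : N) → b ≠ 0 → Ideal.span {b} = I ^ 5 → Module.finrank N M = 5 → IntermediateField.adjoin N {α} = ⊤ →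
  ∀ P : Ideal (𝓞 M), P.IsPrime → P ≠ ⊥ → (5 : 𝓞 M) ∉ P → P.ramificationIdx (𝓞 N) = 1

/-- **UNB** (medium). `λ = 1 - ζ`; `5 = λ⁴ ε` with a unit `ε` of `ℤ[ζ]`, `ε ≡ -1 mod λ` (`5 = ∏_{i=1}^4 (1 - ζ^i)`, `(1 - ζ^i)/(1 - ζ) = 1 + ζ + .. + ζ^(i-1) ≡ i mod λ`, `4! = 24 ≡ -1 mod 5`). `y = (α - 1)/λ` is a root of the monic polynomial `g(Y) = ((1 + λ Y)⁵ - b)/λ⁵ = Y⁵ + (5/λ) Y⁴ + (10/λ²) Y³ + (10/λ³) Y² + (5/λ⁴) Y + (1 - b)/λ⁵`
with coefficients in `𝓞 N` (`b - 1 = 25 u`, `25 = λ⁸ ε²`), so `y ∈ 𝓞 M`, `N(y) = M`, `g` is its minimal polynomial (degree 5), and `g'(y) = 5 y⁴ + (20/λ) y³ + (30/λ²) y² + (20/λ³) y + ε ≡ ε mod λ` is not in `P` (`λ ∈ P` since `5 ∈ P`, `ε` a unit). As in UNA. -/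
def UNB_stmt : Prop := ∀ (N M : Type) [Field N] [NumberField N] [Field M] [NumberField M] [Algebra N M] (ζ : N) (α : M) (b u : 𝓞 N),
  IsPrimitiveRoot ζ 5 → α ^ 5 = algebraMap N M (b : N) → b = 1 + 25 * u → Module.finrank N M = 5 → IntermediateField.adjoin N {α} = ⊤ →
  ∀ P : Ideal (𝓞 M), P.IsPrime → P ≠ ⊥ → (5 : 𝓞 M) ∈ P → P.ramificationIdx (𝓞 N) = 1

/-- **TOW** (short to medium). `P` a prime of `𝓞 L`, `Q` a prime of `𝓞 M` over `P`. `e(Q|K) = e(Q|L) e(P|K) = e(Q|N) e(Q ∩ N|K)` (`Ideal.ramificationIdx_tower`), `e(Q|N) = 1`, `e(Q ∩ N|K)` divides `[N : K] = 4` and `e(P|K)` divides `[L : K] = 5` (Galois: `Ideal.ncard_primesOver_mul_ramificationIdxIn_mul_inertiaDegIn`). So `e(P|K)` divides 4 and 5. -/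
def TOW_stmt : Prop := ∀ (K L N M : Type) [Field K] [NumberField K] [Field L] [NumberField L] [Field N] [NumberField N] [Field M] [NumberField M]
  [Algebra K L] [Algebra K N] [Algebra K M] [Algebra L M] [Algebra N M] [IsScalarTower K L M] [IsScalarTower K N M],
  IsGalois K L → Module.finrank K L = 5 → IsGalois K N → Module.finrank K N = 4 → Unr N M → Unr K L

/-- **UNL** (short to medium; from UNA, UNB, TOW). `M' = N(α)` (an intermediate field of `M / N`, a number field), `Unr N M'` by UNA, UNB (`[M' : N] = 5`: `X⁵ - b` is irreducible). `L ⊆ M'` (as sets); give `M'` the `L`-algebra structure by the inclusion; TOW for `K, L, N, M'`. -/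
def UNL_stmt : Prop := ∀ (K N M : Type) [Field K] [NumberField K] [Field N] [NumberField N] [Field M] [NumberField M] [Algebra K N] [Algebra K M]
  [Algebra N M] [IsScalarTower K N M] (ζ : N) (α : M) (b u : 𝓞 N) (I : Ideal (𝓞 N)) (L : IntermediateField K M), IsPrimitiveRoot ζ 5 →
  IsGalois K N → Module.finrank K N = 4 → α ^ 5 = algebraMap N M (b : N) → b ≠ 0 → Ideal.span {b} = I ^ 5 → b = 1 + 25 * u →
  (¬ ∃ g : N, (b : N) = g ^ 5) → IsGalois K L → Module.finrank K L = 5 →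
  IntermediateField.adjoin N (L : Set M) = IntermediateField.adjoin N {α} → Unr K L

/-! ## 4. Fields -/

/-! The mirror field of `ℚ(√D)`, `F = ℚ(w)`, `w² = -√5 φ D`, `r = √5`, `φ = (1 + r)/2`, `s` of order 4, is the structure `Mir` of `Pool/Agent/helper60/RF/Defs.lean` (fields `fin r2 w2 sr sw`). -/

/-- **CMP** (medium-long; pure field theory): the field `N = K(ζ₅) = F(√D)`. `w ≠ 0`, `1 + r ≠ 0`. `D` is not a square in `F`: `s` has order 4 (`s² w = w * 2/(1+r) * 2/(1-r) = -w`), `F / ℚ` is cyclic of degree 4 with fixed field `ℚ(r)` of `s²`; if `d² = D`, `d ∈ F`, then `s d = ± d`, `s² d = d`, `d = a + b r` with `a, b ∈ ℚ`, `a² + 5 b² + 2ab r = D`: `ab = 0`, `D` a square or 5 times a square,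
impossible for `D` squarefree, `≠ 1, 5`. `N = F(x)`, `x² = D` (`AdjoinRoot`, or inside an algebraic closure of `F`), `[N : ℚ] = 8`; `K → N` by `x`. `η = w / x`, `η² = -r(1+r)/2`, `ζ = ((r - 1)/2 + η)/2` is a primitive 5th root of unity: `ζ + ζ⁻¹ = (r-1)/2` (`ζ⁻¹ = ((r-1)/2 - η)/2`, product `((r-1)²/4 + r(1+r)/2)/4 = ((6 - 2r)/4 + (r + 5)/2)/4 = 1`),
so `c = (r-1)/2` satisfies `c² + c - 1 = 0`, i.e. `ζ⁴ + ζ³ + ζ² + ζ + 1 = 0`. `τ` = `s` on `F`, `τ x = x` (`s D = D`): `τ ζ = ((-r-1)/2 + (w/x) 2/(1+r))/2 = ζ²`: check `ζ² = c ζ - 1`. `N / K` has degree 4. -/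
def CMP_stmt : Prop := ∀ (D : ℤ), 1 < D → Squarefree D → D ≠ 5 → ∀ (F : Type) [Field F] [NumberField F] (s : F ≃+* F) (r w : F), Mir D F s r w →
  ∀ (K : Type) [Field K] [NumberField K], Module.finrank ℚ K = 2 → (∃ x : K, x ^ 2 = (D : K)) →
  ∃ (N : Type) (_ : Field N) (_ : NumberField N) (_ : Algebra K N) (_ : Algebra F N) (ζ : N) (τ : N ≃ₐ[K] N), IsPrimitiveRoot ζ 5 ∧
    τ ζ = ζ ^ 2 ∧ Module.finrank K N = 4 ∧ Module.finrank F N = 2 ∧ IsGalois K N ∧ ∀ x : F, τ (algebraMap F N x) = algebraMap F N (s x)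

/-- **BIG** (short to medium; pure field theory). Inside an algebraic closure of `N`: the normal closure over `K` of `N(α_b, b ∈ B)` (`IntermediateField.normalClosure`, `FiniteDimensional`), or the splitting field over `K` of the product of the minimal polynomials over `K` of a primitive element and of all `α_b`. Char 0: separable. -/
def BIG_stmt : Prop := ∀ (K N : Type) [Field K] [NumberField K] [Field N] [NumberField N] [Algebra K N] (B : Finset N),
  ∃ (M : Type) (_ : Field M) (_ : NumberField M) (_ : Algebra K M) (_ : Algebra N M) (_ : IsScalarTower K N M), IsGalois K M ∧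
    ∀ b ∈ B, ∃ α : M, α ^ 5 = algebraMap N M b

end Pool.Agent.RF
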