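import Pool.Agent.helper13.RF.SpecT
import Pool.Agent.helper33.RF.SpecL
import Pool.Agent.helper6.RF.FIN2

/-!
# Project RF (MP_16912e_nt), stage 2 (exact order), block B', part M: multiplicity and the two outputs `CNT2_stmt`, `CNG2_stmt` (`Pool/Agent/helper6/RF/FIN2.lean`)

RULES. Row `XXX`: file `Pool/Agent/<seat>/RF/XXX.lean`, header `import Pool.Agent.helper13.RF.SpecM`, `set_option autoImplicit false`, `namespace Pool.Agent.RF`, `open NumberField`, theorem line of the lock note; auxiliary lemmas prefixed `XXX_`; no sorry, no straight double quotes, no `convert`, no `congr!`, no `native_decide`.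
-/

set_option autoImplicit false

namespace Pool.Agent.RF

open NumberField

/-- the part of `f` which divides the coefficients: `∏ l^(v_l f - 28 v_l g)` -/
def F2 (f g : ℕ) : ℕ := ∏ l ∈ f.primeFactors, l ^ (f.factorization l - 28 * g.factorization l)

/-- `∏_(l ∣ g) l^(min (v_l f - v_l g) (27 v_l g))` -/
def h2 (f g : ℕ) : ℕ := ∏ l ∈ g.primeFactors, l ^ (min (f.factorization l - g.factorization l) (27 * g.factorization l))

/-- the weight -/
noncomputable def W2 (g : ℕ) : ℝ := 181 * 36 ^ g.primeFactors.card * 285 ^ (4 * g.primeFactors.card) * (g.divisors.card : ℝ) ^ 4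

/-- **NZ2** (short; from TID): copy of `Pool/Agent/helper60/RF/NZB.lean` with the weaker hypothesis on `k` (the proof shows both `k_p ∣ k_q` and `k_q ∣ k_p`). -/
def NZ2_stmt : Prop := ∀ (D₀ : ℤ) (F : Type) [Field F] [NumberField F] (C : Ctx D₀ F) (p q : Pt) (f g : ℕ), 0 < g →
  IsPt p → IsPt q → p.D = D₀ * (f : ℤ) ^ 2 → q.D = D₀ * (f : ℤ) ^ 2 → (p.k ∣ q.k → q.k ∣ p.k → p.k = q.k) → p ≠ q →
  ∀ z : 𝓞 F, Zr C f g p q z → C.σ (C.σ z) ≠ z

/-- **MU2** (medium; from POS, GDV, TDE, TRI, NZ2, LAO, SPC, TID; helper13): as `MUL` (`Pool/Agent/helper41/RF/MUL.lean`) with `SameU` in place of `SameT`, TDE for DEL, the labels of LAO at all primes `l ∣ f`, and `F2 f g` in place of `f1 f g`. -/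
def MU2_stmt : Prop := ∀ (D₀ : ℤ) (F : Type) [Field F] [NumberField F] (C : Ctx D₀ F) (f g : ℕ), Squarefree D₀ → 0 < D₀ →
  ∀ S : Finset Pt, (∀ p ∈ S, IsPt p ∧ p.D = D₀ * (f : ℤ) ^ 2 ∧ ct p = g ∧ |p.n.norm| ≤ p.D) →
  (∀ p ∈ S, ∀ q ∈ S, p.k ∣ q.k → q.k ∣ p.k → p.k = q.k) → (∀ p ∈ S, ∀ q ∈ S, SameU C f g p q ∧ Eqv C f p q) →
  (S.card : ℝ) ≤ 1 + 36 ^ f.primeFactors.card * (1 + 180 * ((f : ℝ) / (g * F2 f g)) ^ 2)

/-- **HAR** (short to medium, PURE). Compare the factorizations (`Nat.eq_of_factorization_eq`, `Nat.factorization_prod_pow_eq_self`..): for a prime `l`: `v_l g ≤ v_l f`; if `l ∣ g` (then `l ∣ f`): `v_l g + min (v_l f - v_l g) (27 v_l g) + (v_l f - 28 v_l g) = v_l f` (natural subtraction; `omega`); if `l ∤ g`: `v_l (h2) = 0`, `v_l (F2) = v_l f`.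
`h2 f g ∣ g^27`: `v_l ≤ 27 v_l g`. The primes dividing `f` divide `g` or `F2 f g` (`v_l (F2) = v_l f ≥ 1` if `l ∤ g`), so `ω(f) ≤ ω(g) + ω(F2 f g)`. -/
def HAR_stmt : Prop := ∀ f g : ℕ, 0 < f → g ∣ f → g * h2 f g * F2 f g = f ∧ h2 f g ∣ g ^ 27 ∧ 0 < F2 f g ∧ 0 < h2 f g ∧
  f.primeFactors.card ≤ g.primeFactors.card + (F2 f g).primeFactors.card

/-- **HWB** (short to medium, PURE). `36 ≤ 2^6`, `285 ≤ 2^9`, `2^ω(g) ≤ τ(g)`: `W2 g ≤ 181 τ(g)^(6 + 36 + 4)`; `τ(g) ≤ C_e g^e` (divisor bound, in the library, for instance in the files of `helper6/RF` or `helper3/FT`: search for `divisors.card`), and `τ(g^27) ≤ C (g^27)^(e')`. -/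
def HWB_stmt : Prop := ∀ e : ℝ, 0 < e → ∃ C : ℝ, ∀ g : ℕ, 1 ≤ g → W2 g * ((g ^ 27).divisors.card : ℝ) ≤ C * (g : ℝ) ^ e

/-- **CN2** (medium; from MEX, CTX, GDV, TTY, TTP, TCL, MU2, HAR, HWB): `CNT2_stmt` (`Pool/Agent/helper6/RF/FIN2.lean`) with `W = W2`, `H g = (g^27).divisors`, `hh = h2`. As `CNT` (`Pool/Agent/helper39/RF/CNT.lean`): if `S` is not empty then `g > 0`, `g ∣ f`, `f > 0` (GDV). TTY with the bound of TCL with the bound `B = 1 + 36^ω(f) (1 + 180 (f/(g F2))^2)` of MU2; `f/(g F2) = h2` (HAR), `36^ω(f) ≤ 36^ω(g) 36^ω(F2)`, `F2 = f/(g h2)`,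
`1 + 36^ω (1 + 180 h^2) ≤ 36^ω 181 (1 + h^2)`; the number of types: TTP (`Mir.fin`: degree 4). -/
def CN2_doc : Prop := CNT2_stmt

/-- **CG2** (short to medium; from MEX, CTX, TRV, CLG, MU2): `CNG2_stmt` as `CNG` (`Pool/Agent/helper66/RF/CNG.lean`): `SameU` is empty for `g = 1`, `F2 f 1 = f`. -/
def CG2_doc : Prop := CNG2_stmt

end Pool.Agent.RF
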